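import Mathlib

set_option autoImplicit false

/-!
Nilpotent subalgebras `V` of a finite-dimensional algebra `A` over `ZMod p`: the group `1 + V`,
its order, and the proof that all `p`-th powers of elements of `V` commute with `V` when the
group `1 + V` is powerful.
-/

namespace Pool.Agent.Helper515.BP

open Module

section Basic

variable {p : ℕ} {A : Type} [Ring A] [Algebra (ZMod p) A] {V : Submodule (ZMod p) A}

theorem pow_succ_le (hV : V * V ≤ V) {j : ℕ} (hj : 1 ≤ j) : V ^ (j + 1) ≤ V ^ j := by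
  obtain ⟨i, rfl⟩ := Nat.exists_eq_add_of_le' hj
  rw [pow_succ, pow_succ, mul_assoc]
  exact mul_le_mul_right hV _

theorem pow_le (hV : V * V ≤ V) {j : ℕ} (hj : 1 ≤ j) : V ^ j ≤ V := by
  induction j, hj using Nat.le_induction with
  | base => rw [pow_one]
  | succ n hn ih => exact (pow_succ_le hV hn).trans ih

theorem mul_pow_mem {j : ℕ} {x m : A} (hx : x ∈ V) (hm : m ∈ V ^ j) : x * m ∈ V ^ (j + 1) := by
  rw [pow_succ']
  exact Submodule.mul_mem_mul hx hm

theorem pow_mul_mem {j : ℕ} {x m : A} (hx : x ∈ V) (hm : m ∈ V ^ j) : m * x ∈ V ^ (j + 1) := by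
  rw [pow_succ]
  exact Submodule.mul_mem_mul hm hx

theorem mul_mem' (hV : V * V ≤ V) {x y : A} (hx : x ∈ V) (hy : y ∈ V) : x * y ∈ V :=
  hV (Submodule.mul_mem_mul hx hy)

theorem pow_mem' (hV : V * V ≤ V) {x : A} (hx : x ∈ V) {k : ℕ} (hk : 1 ≤ k) : x ^ k ∈ V := by
  induction k, hk using Nat.le_induction with
  | base => rwa [pow_one]
  | succ n hn ih => rw [pow_succ]; exact mul_mem' hV ih hx

theorem nil (hn : ∃ n : ℕ, V ^ n = ⊥) {x : A} (hx : x ∈ V) : IsNilpotent x := by
  obtain ⟨n, hn⟩ := hn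
  refine ⟨n, ?_⟩
  have : x ^ n ∈ V ^ n := Submodule.pow_mem_pow V hx n
  rw [hn] at this
  exact (Submodule.mem_bot _).mp this

/-- the group `1 + V` -/
def UV (V : Submodule (ZMod p) A) (hV : V * V ≤ V) (hn : ∃ n : ℕ, V ^ n = ⊥) : Subgroup Aˣ where
  carrier := {u : Aˣ | ((u : Aˣ) : A) - 1 ∈ V}
  one_mem' := by
    change ((1 : Aˣ) : A) - 1 ∈ V
    rw [Units.val_one, sub_self]
    exact V.zero_mem
  mul_mem' := by
    intro a b ha hb
    change ((a * b : Aˣ) : A) - 1 ∈ V
    have ha' : (a : A) - 1 ∈ V := ha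
    have hb' : (b : A) - 1 ∈ V := hb
    have h : ((a * b : Aˣ) : A) - 1 = ((a : A) - 1) * ((b : A) - 1) + ((a : A) - 1) +
        ((b : A) - 1) := by
      rw [Units.val_mul]; noncomm_ring
    rw [h]
    exact V.add_mem (V.add_mem (mul_mem' hV ha' hb') ha') hb'
  inv_mem' := by
    intro u hu
    change ((u⁻¹ : Aˣ) : A) - 1 ∈ V
    have hu' : (u : A) - 1 ∈ V := hu
    set x := (u : A) - 1 with hx
    have hxn : -x ∈ V := V.neg_mem hu'
    have hinv : (u⁻¹ : Aˣ).val = 1 - x * (u⁻¹ : Aˣ).val := by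
      have : (u : A) * (u⁻¹ : Aˣ).val = 1 := u.mul_inv
      have h2 : (u : A) = x + 1 := by rw [hx]; abel
      rw [h2, add_mul, one_mul] at this
      exact eq_sub_of_add_eq' this
    have key : ∀ k : ℕ, ∃ w ∈ V, (u⁻¹ : Aˣ).val - 1 = w + (-x) ^ (k + 1) * (u⁻¹ : Aˣ).val := by
      intro k
      induction k with
      | zero =>
        refine ⟨0, V.zero_mem, ?_⟩
        rw [zero_add, zero_add, pow_one]
        nth_rewrite 1 [hinv]
        noncomm_ring
      | succ k ih =>
        obtain ⟨w, hw, he⟩ := ih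
        refine ⟨w + (-x) ^ (k + 1), V.add_mem hw (pow_mem' hV hxn (by omega)), ?_⟩
        rw [he]
        nth_rewrite 1 [hinv]
        rw [pow_succ (-x) (k + 1)]
        noncomm_ring
    obtain ⟨n, hn'⟩ := nil hn hxn
    obtain ⟨w, hw, he⟩ := key n
    rw [pow_succ, hn', zero_mul, zero_mul, add_zero] at he
    rw [he]
    exact hw

theorem mem_UV {hV : V * V ≤ V} {hn : ∃ n : ℕ, V ^ n = ⊥} {u : Aˣ} :
    u ∈ UV V hV hn ↔ (u : A) - 1 ∈ V := Iff.rfl

theorem closure_UV (hV : V * V ≤ V) (hn : ∃ n : ℕ, V ^ n = ⊥) :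
    Subgroup.closure {u : Aˣ | ((u : Aˣ) : A) - 1 ∈ V} = UV V hV hn := by
  change Subgroup.closure ((UV V hV hn : Subgroup Aˣ) : Set Aˣ) = _
  exact Subgroup.closure_eq _

theorem exists_unit (hV : V * V ≤ V) (hn : ∃ n : ℕ, V ^ n = ⊥) {x : A} (hx : x ∈ V) :
    ∃ u ∈ UV V hV hn, (u : A) = 1 + x := by
  obtain ⟨u, hu⟩ := (nil hn hx).isUnit_one_add
  refine ⟨u, ?_, hu⟩
  rw [mem_UV, hu, add_sub_cancel_left]
  exact hx

theorem card_UV [hp : Fact p.Prime] [Module.Finite (ZMod p) A] (hV : V * V ≤ V) (hn : ∃ n : ℕ, V ^ n = ⊥) :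
    Nat.card (UV V hV hn) = p ^ finrank (ZMod p) V := by
  have e : UV V hV hn ≃ V :=
    { toFun := fun u => ⟨(u.1 : A) - 1, u.2⟩
      invFun := fun x => ⟨(exists_unit hV hn x.2).choose, (exists_unit hV hn x.2).choose_spec.1⟩
      left_inv := by
        intro u
        apply Subtype.ext
        apply Units.ext
        have h := (exists_unit hV hn (x := (u.1 : A) - 1) u.2).choose_spec.2
        change ((exists_unit hV hn (x := (u.1 : A) - 1) u.2).choose : A) = _
        rw [h, add_sub_cancel]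
      right_inv := by
        intro x
        apply Subtype.ext
        change ((exists_unit hV hn x.2).choose : A) - 1 = _
        rw [(exists_unit hV hn x.2).choose_spec.2, add_sub_cancel_left] }
  rw [Nat.card_congr e, Module.natCard_eq_pow_finrank (K := ZMod p), Nat.card_zmod]

end Basic

/-- The number of generators of `H` is bounded below by the index of a subgroup `K` containing
all `p`-th powers and all commutators. -/
theorem gen_bound {Γ : Type*} [Group Γ] (p : ℕ) (hp : 0 < p) (H K : Subgroup Γ) (hKH : K ≤ H)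
    (hpow : ∀ g ∈ H, g ^ p ∈ K) (hcomm : ∀ g ∈ H, ∀ h ∈ H, g * h * g⁻¹ * h⁻¹ ∈ K)
    (s : Finset Γ) (hs : Subgroup.closure (s : Set Γ) = H) :
    Nat.card H ≤ p ^ s.card * Nat.card K := by
  classical
  set N : Subgroup H := K.subgroupOf H with hN
  have hmemN : ∀ x : H, x ∈ N ↔ (x : Γ) ∈ K := fun x => Subgroup.mem_subgroupOf
  have hnorm : N.Normal := by
    refine ⟨fun n hn g => ?_⟩
    rw [hmemN] at hn ⊢
    have h1 := hcomm g.1 g.2 n.1 n.2
    have h2 : ((g * n * g⁻¹ : H) : Γ) = (g.1 * n.1 * g.1⁻¹ * n.1⁻¹) * n.1 := by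
      push_cast
      group
    rw [h2]
    exact K.mul_mem h1 hn
  let _ : CommGroup (H ⧸ N) :=
    { (inferInstance : Group (H ⧸ N)) with
      mul_comm := by
        intro a b
        induction a using QuotientGroup.induction_on with
        | H a =>
          induction b using QuotientGroup.induction_on with
          | H b =>
            rw [← QuotientGroup.mk_mul, ← QuotientGroup.mk_mul, QuotientGroup.eq, hmemN]
            have h1 := hcomm b.1⁻¹ (H.inv_mem b.2) a.1⁻¹ (H.inv_mem a.2)
            have h2 : (((a * b)⁻¹ * (b * a) : H) : Γ) =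
                b.1⁻¹ * a.1⁻¹ * (b.1⁻¹)⁻¹ * (a.1⁻¹)⁻¹ := by
              push_cast
              group
            rw [h2]
            exact h1 }
  -- generators of `H ⧸ N`
  have hsH : ∀ g ∈ s, g ∈ H := fun g hg => by
    rw [← hs]; exact Subgroup.subset_closure hg
  let t : Finset (H ⧸ N) := s.attach.image (fun g => QuotientGroup.mk (⟨g.1, hsH g.1 g.2⟩ : H))
  have ht : Subgroup.closure (t : Set (H ⧸ N)) = ⊤ := by
    rw [eq_top_iff]
    rintro q -
    induction q using QuotientGroup.induction_on with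
    | H q =>
      have key : ∀ g (hg : g ∈ Subgroup.closure (s : Set Γ)) (hgH : g ∈ H),
          (QuotientGroup.mk (⟨g, hgH⟩ : H) : H ⧸ N) ∈ Subgroup.closure (t : Set (H ⧸ N)) := by
        intro g hg
        induction hg using Subgroup.closure_induction with
        | mem x hx =>
          intro hgH
          apply Subgroup.subset_closure
          rw [Finset.mem_coe, Finset.mem_image]
          exact ⟨⟨x, hx⟩, Finset.mem_attach _ _, rfl⟩
        | one =>
          intro hgH
          exact Subgroup.one_mem _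
        | mul x y hx hy ihx ihy =>
          intro hgH
          have hx' : x ∈ H := hs ▸ hx
          have hy' : y ∈ H := hs ▸ hy
          have := Subgroup.mul_mem _ (ihx hx') (ihy hy')
          rwa [← QuotientGroup.mk_mul] at this
        | inv x hx ihx =>
          intro hgH
          have hx' : x ∈ H := hs ▸ hx
          have := Subgroup.inv_mem _ (ihx hx')
          rwa [← QuotientGroup.mk_inv] at this
      exact key q.1 (hs ▸ q.2) q.2
  have : Group.FG (H ⧸ N) := ⟨⟨t, ht⟩⟩
  have hcard : t.card ≤ s.card := by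
    calc t.card ≤ s.attach.card := Finset.card_image_le
      _ = s.card := Finset.card_attach
  have hrank : Group.rank (H ⧸ N) ≤ s.card := (Group.rank_le ht).trans hcard
  have hexp : ∀ q : H ⧸ N, q ^ p = 1 := by
    intro q
    induction q using QuotientGroup.induction_on with
    | H q =>
      rw [← QuotientGroup.mk_pow, QuotientGroup.eq_one_iff, hmemN]
      exact hpow q.1 q.2
  have hdvd := card_dvd_exponent_pow_rank' (G := H ⧸ N) hexp
  have hle : Nat.card (H ⧸ N) ≤ p ^ s.card :=
    (Nat.le_of_dvd (pow_pos hp _) hdvd).trans (Nat.pow_le_pow_right hp hrank)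
  have hNK : Nat.card N = Nat.card K :=
    Nat.card_congr (Subgroup.subgroupOfEquivOfLe hKH).toEquiv
  rw [Subgroup.card_eq_card_quotient_mul_card_subgroup N, hNK]
  exact Nat.mul_le_mul_right _ hle

end Pool.Agent.Helper515.BP
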