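import Pool.Agent.Helper515.BPa

set_option autoImplicit false

namespace Pool.Agent.Helper515.BP

open Module

variable {p : ℕ} {A : Type} [Ring A] [Algebra (ZMod p) A] {V : Submodule (ZMod p) A}

/-- multiplication by elements of `1 + V` preserves `V ^ j` -/
theorem one_add_mul_mem (hV : V * V ≤ V) {j : ℕ} (hj : 1 ≤ j) {x m : A} (hx : x ∈ V)
    (hm : m ∈ V ^ j) : (1 + x) * m ∈ V ^ j := by
  rw [add_mul, one_mul]
  exact Submodule.add_mem _ hm (pow_succ_le hV hj (mul_pow_mem hx hm))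

theorem mul_one_add_mem (hV : V * V ≤ V) {j : ℕ} (hj : 1 ≤ j) {x m : A} (hx : x ∈ V)
    (hm : m ∈ V ^ j) : m * (1 + x) ∈ V ^ j := by
  rw [mul_add, mul_one]
  exact Submodule.add_mem _ hm (pow_succ_le hV hj (pow_mul_mem hx hm))

/-- the elements of `1 + V` commuting with `V` modulo `V ^ j` -/
def PC (V : Submodule (ZMod p) A) (j : ℕ) (u : Aˣ) : Prop :=
  (u : A) - 1 ∈ V ∧ ∀ y ∈ V, (u : A) * y - y * (u : A) ∈ V ^ j

theorem PC_closure (hV : V * V ≤ V) (hn : ∃ n : ℕ, V ^ n = ⊥) {j : ℕ} (hj : 1 ≤ j)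
    (S : Set Aˣ) (hS : ∀ u ∈ S, PC V j u) (u : Aˣ) (hu : u ∈ Subgroup.closure S) : PC V j u := by
  induction hu using Subgroup.closure_induction with
  | mem x hx => exact hS x hx
  | one =>
    refine ⟨?_, fun y _ => ?_⟩
    · rw [Units.val_one, sub_self]; exact V.zero_mem
    · rw [Units.val_one, one_mul, mul_one, sub_self]; exact Submodule.zero_mem _
  | mul a b _ _ ha hb =>
    refine ⟨(UV V hV hn).mul_mem ha.1 hb.1, fun y hy => ?_⟩
    have h : ((a * b : Aˣ) : A) * y - y * ((a * b : Aˣ) : A) =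
        (1 + ((a : A) - 1)) * ((b : A) * y - y * (b : A)) +
          ((a : A) * y - y * (a : A)) * (1 + ((b : A) - 1)) := by
      rw [Units.val_mul]; noncomm_ring
    rw [h]
    exact Submodule.add_mem _ (one_add_mul_mem hV hj ha.1 (hb.2 y hy))
      (mul_one_add_mem hV hj hb.1 (ha.2 y hy))
  | inv a _ ha =>
    have h1 : ((a⁻¹ : Aˣ) : A) - 1 ∈ V := (UV V hV hn).inv_mem ha.1
    refine ⟨h1, fun y hy => ?_⟩
    have h : ((a⁻¹ : Aˣ) : A) * y - y * ((a⁻¹ : Aˣ) : A) =
        (1 + (((a⁻¹ : Aˣ) : A) - 1)) * (-((a : A) * y - y * (a : A))) *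
          (1 + (((a⁻¹ : Aˣ) : A) - 1)) := by
      rw [add_sub_cancel]
      have e1 : ((a⁻¹ : Aˣ) : A) * (a : A) = 1 := a.inv_mul
      have e2 : (a : A) * ((a⁻¹ : Aˣ) : A) = 1 := a.mul_inv
      calc ((a⁻¹ : Aˣ) : A) * y - y * ((a⁻¹ : Aˣ) : A) =
          ((a⁻¹ : Aˣ) : A) * y * ((a : A) * ((a⁻¹ : Aˣ) : A)) -
            (((a⁻¹ : Aˣ) : A) * (a : A)) * y * ((a⁻¹ : Aˣ) : A) := by
            rw [e1, e2, mul_one, one_mul]
        _ = _ := by noncomm_ring
    rw [h]
    exact mul_one_add_mem hV hj h1 (one_add_mul_mem hV hj h1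
      (Submodule.neg_mem _ (ha.2 y hy)))

/-- The key step for odd `p`. -/
theorem step_odd (hV : V * V ≤ V) {j : ℕ} (hj : 1 ≤ j) {x y v v' : A} (hx : x ∈ V) (hy : y ∈ V)
    (h2 : IsUnit (2 : ZMod p)) (hu : IsUnit (1 + y))
    (e1 : (1 + y) * ((1 + x) * v) = x * y - y * x)
    (e2 : (1 + y) * ((1 - x) * v') = -(x * y - y * x))
    (c1 : ∀ t ∈ V, v * t - t * v ∈ V ^ j) (c2 : ∀ t ∈ V, v' * t - t * v' ∈ V ^ j) :
    x * (x * y - y * x) - (x * y - y * x) * x ∈ V ^ j := by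
  set r := v - v' with hr
  have hrel : v + v' + x * r = 0 := by
    have : (1 + y) * ((1 + x) * v + (1 - x) * v') = (1 + y) * 0 := by
      rw [mul_add, e1, e2, mul_zero]; abel
    have h3 := hu.mul_left_cancel this
    rw [hr]
    calc v + v' + x * (v - v') = (1 + x) * v + (1 - x) * v' := by noncomm_ring
      _ = 0 := h3
  have cr : ∀ t ∈ V, r * t - t * r ∈ V ^ j := by
    intro t ht
    have := Submodule.sub_mem _ (c1 t ht) (c2 t ht)
    have e : r * t - t * r = v * t - t * v - (v' * t - t * v') := by rw [hr]; noncomm_ring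
    rwa [e]
  have cxr : ∀ t ∈ V, (x * r) * t - t * (x * r) ∈ V ^ j := by
    intro t ht
    have e : x * r = -(v + v') := eq_neg_of_add_eq_zero_right hrel
    rw [e]
    have := Submodule.neg_mem _ (Submodule.add_mem _ (c1 t ht) (c2 t ht))
    have e' : -(v + v') * t - t * -(v + v') = -(v * t - t * v + (v' * t - t * v')) := by
      noncomm_ring
    rwa [e']
  have ck : ∀ t ∈ V, (x * t - t * x) * r ∈ V ^ j := by
    intro t ht
    have e : (x * t - t * x) * r = (x * r) * t - t * (x * r) - x * (r * t - t * r) := by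
      noncomm_ring
    rw [e]
    exact Submodule.sub_mem _ (cxr t ht) (pow_succ_le hV hj (mul_pow_mem hx (cr t ht)))
  -- `2 κ = (1 + y) (r - x² r)`
  set κ := x * y - y * x with hκ
  have h2κ : κ + κ = (1 + y) * (r - x * x * r) := by
    have e3 : κ + κ = (1 + y) * ((1 + x) * v) - (1 + y) * ((1 - x) * v') := by
      rw [e1, e2]; abel
    have e4 : (1 + x) * v - (1 - x) * v' = r - x * x * r := by
      have : (1 + x) * v - (1 - x) * v' - (r - x * x * r) = x * (v + v' + x * r) := by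
        rw [hr]; noncomm_ring
      rw [hrel, mul_zero] at this
      exact sub_eq_zero.mp this
    rw [e3, ← mul_sub, e4]
  have hκq : κ * (r - x * x * r) ∈ V ^ j := by
    have e : κ * (r - x * x * r) = (x * y - y * x) * r -
        (x * (y * x * x) - (y * x * x) * x) * r := by
      rw [hκ]; noncomm_ring
    rw [e]
    exact Submodule.sub_mem _ (ck y hy) (ck _ (mul_mem' hV (mul_mem' hV hy hx) hx))
  have hxq : x * (r - x * x * r) - (r - x * x * r) * x ∈ V ^ j := by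
    have e : x * (r - x * x * r) - (r - x * x * r) * x =
        -(r * x - x * r) + x * (x * (r * x - x * r)) := by
      noncomm_ring
    rw [e]
    have h := cr x hx
    exact Submodule.add_mem _ (Submodule.neg_mem _ h)
      (pow_succ_le hV hj (mul_pow_mem hx (pow_succ_le hV hj (mul_pow_mem hx h))))
  have h5 : (x * κ - κ * x) + (x * κ - κ * x) ∈ V ^ j := by
    have e : (x * κ - κ * x) + (x * κ - κ * x) = κ * (r - x * x * r) +
        (1 + y) * (x * (r - x * x * r) - (r - x * x * r) * x) := by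
      have e5 : (x * κ - κ * x) + (x * κ - κ * x) = x * (κ + κ) - (κ + κ) * x := by
        noncomm_ring
      rw [e5, h2κ, hκ]
      noncomm_ring
    rw [e]
    exact Submodule.add_mem _ hκq (one_add_mul_mem hV hj hy hxq)
  have h3 : (2 : ZMod p) • (x * κ - κ * x) ∈ V ^ j := by
    rwa [two_smul]
  obtain ⟨w, hw⟩ := h2
  have h4 := Submodule.smul_mem (V ^ j) ((w⁻¹ : (ZMod p)ˣ) : ZMod p) h3
  rwa [smul_smul, ← hw, Units.inv_mul, one_smul] at h4

/-- The key step for `p = 2`. -/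
theorem step_even (hV : V * V ≤ V) {j : ℕ} (hj : 1 ≤ j) {x y v₁ v₂ : A} (hx : x ∈ V) (hy : y ∈ V)
    (hu : ∃ z ∈ V, (1 + x) * (1 + z) = 1)
    (e1 : (1 + y) * ((1 + x) * v₁) = x * y - y * x)
    (e2 : (1 + (y + x)) * ((1 + x) * v₂) = x * y - y * x)
    (c1 : ∀ t ∈ V, v₁ * t - t * v₁ ∈ V ^ j) (c2 : ∀ t ∈ V, v₂ * t - t * v₂ ∈ V ^ j) :
    x * (x * y - y * x) - (x * y - y * x) * x ∈ V ^ j := by
  set κ := x * y - y * x with hκ
  -- `(1+y+x) v₂ ≡ (1+y) v₁`
  have h0 : (1 + (y + x)) * v₂ - (1 + y) * v₁ ∈ V ^ j := by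
    obtain ⟨z, hz, hz1⟩ := hu
    have a1 := c1 x hx
    have a2 := c2 x hx
    have e : ((1 + (y + x)) * v₂ - (1 + y) * v₁) * (1 + x) =
        (1 + (y + x)) * (v₂ * x - x * v₂) - (1 + y) * (v₁ * x - x * v₁) := by
      have e3 : (1 + (y + x)) * ((1 + x) * v₂) - (1 + y) * ((1 + x) * v₁) = 0 := by
        rw [e1, e2, sub_self]
      calc ((1 + (y + x)) * v₂ - (1 + y) * v₁) * (1 + x) =
          (1 + (y + x)) * (v₂ * x - x * v₂) - (1 + y) * (v₁ * x - x * v₁) +
            ((1 + (y + x)) * ((1 + x) * v₂) - (1 + y) * ((1 + x) * v₁)) := by noncomm_ring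
        _ = _ := by rw [e3, add_zero]
    have hm : ((1 + (y + x)) * v₂ - (1 + y) * v₁) * (1 + x) ∈ V ^ j := by
      rw [e]
      exact Submodule.sub_mem _ (one_add_mul_mem hV hj (V.add_mem hy hx) a2)
        (one_add_mul_mem hV hj hy a1)
    have hm2 := mul_one_add_mem hV hj hz hm
    rwa [mul_assoc, hz1, mul_one] at hm2
  -- commute with `y + x`
  have h1 : κ * v₁ ∈ V ^ j := by
    set w := (1 + (y + x)) * v₂ - (1 + y) * v₁ with hw
    have hyx := V.add_mem hy hx
    have e : κ * v₁ = (w * (y + x) - (y + x) * w)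
        - (1 + (y + x)) * (v₂ * (y + x) - (y + x) * v₂)
        + (1 + y) * (v₁ * (y + x) - (y + x) * v₁) := by
      rw [hw, hκ]; noncomm_ring
    rw [e]
    refine Submodule.add_mem _ (Submodule.sub_mem _ ?_ (one_add_mul_mem hV hj hyx (c2 _ hyx)))
      (one_add_mul_mem hV hj hy (c1 _ hyx))
    exact Submodule.sub_mem _ (pow_succ_le hV hj (pow_mul_mem hyx h0))
      (pow_succ_le hV hj (mul_pow_mem hyx h0))
  have hκV : κ ∈ V := V.sub_mem (mul_mem' hV hx hy) (mul_mem' hV hy hx)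
  have e : x * κ - κ * x = κ * v₁ * (1 + x) - κ * (v₁ * x - x * v₁)
      - (1 + y) * ((1 + x) * (v₁ * x - x * v₁)) := by
    have e3 : x * κ - κ * x = x * ((1 + y) * ((1 + x) * v₁)) - ((1 + y) * ((1 + x) * v₁)) * x := by
      rw [e1]
    rw [e3, hκ]; noncomm_ring
  rw [e]
  refine Submodule.sub_mem _ (Submodule.sub_mem _ (mul_one_add_mem hV hj hx h1)
    (pow_succ_le hV hj (mul_pow_mem hκV (c1 x hx)))) ?_
  exact one_add_mul_mem hV hj hy (one_add_mul_mem hV hj hx (c1 x hx))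

end Pool.Agent.Helper515.BP
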