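import Pool.Agent.Helper515.BPb

set_option autoImplicit false

namespace Pool.Agent.Helper515.BP

open Module
open scoped commutatorElement

variable {p : ℕ} {A : Type} [Ring A] [Algebra (ZMod p) A] {V : Submodule (ZMod p) A}

/-- the inner derivation `ad x` -/
def adx (p : ℕ) {A : Type} [Ring A] [Algebra (ZMod p) A] (x : A) : Module.End (ZMod p) A :=
  LinearMap.mulLeft (ZMod p) x - LinearMap.mulRight (ZMod p) x

theorem adx_apply (x y : A) : adx p x y = x * y - y * x := rfl

theorem adx_pow [hp : Fact p.Prime] [Nontrivial A] (x y : A) :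
    (adx p x ^ p) y = x ^ p * y - y * x ^ p := by
  have : CharP (Module.End (ZMod p) A) p :=
    charP_of_injective_algebraMap (algebraMap (ZMod p) (Module.End (ZMod p) A)).injective p
  have hc : Commute (LinearMap.mulLeft (ZMod p) x) (LinearMap.mulRight (ZMod p) x) :=
    LinearMap.commute_mulLeft_right x x
  rw [adx, sub_pow_char_of_commute p hc, LinearMap.pow_mulLeft, LinearMap.pow_mulRight]
  rfl

theorem adx_mem {j : ℕ} {x m : A} (hx : x ∈ V) (hm : m ∈ V ^ j) :
    adx p x m ∈ V ^ (j + 1) :=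
  Submodule.sub_mem _ (mul_pow_mem hx hm) (pow_mul_mem hx hm)

theorem adx_pow_mem (hV : V * V ≤ V) {j : ℕ} (hj : 1 ≤ j) {x m : A} (hx : x ∈ V)
    (hm : m ∈ V ^ j) (k : ℕ) : (adx p x ^ k) m ∈ V ^ j := by
  induction k with
  | zero => simpa using hm
  | succ k ih =>
    rw [pow_succ']
    exact pow_succ_le hV hj (adx_mem hx ih)

/-- the commutator of `1 + x` and `1 + y` -/
theorem exists_comm (hV : V * V ≤ V) (hn : ∃ n : ℕ, V ^ n = ⊥) {j : ℕ} (hj : 1 ≤ j) {S : Set Aˣ}
    (hS : ∀ u ∈ S, PC V j u) (hle : ⁅UV V hV hn, UV V hV hn⁆ ≤ Subgroup.closure S)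
    {x y : A} (hx : x ∈ V) (hy : y ∈ V) :
    ∃ v ∈ V, (1 + y) * ((1 + x) * v) = x * y - y * x ∧ ∀ t ∈ V, v * t - t * v ∈ V ^ j := by
  obtain ⟨g, hg, hg'⟩ := exists_unit hV hn hx
  obtain ⟨h, hh, hh'⟩ := exists_unit hV hn hy
  set c : Aˣ := ⁅g⁻¹, h⁻¹⁆ with hc
  have hcm : c ∈ Subgroup.closure S := hle (Subgroup.commutator_mem_commutator
    ((UV V hV hn).inv_mem hg) ((UV V hV hn).inv_mem hh))
  have hPC := PC_closure hV hn hj S hS c hcm
  refine ⟨(c : A) - 1, hPC.1, ?_, fun t ht => ?_⟩
  · have h1 : h * (g * c) = g * h := by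
      rw [hc, commutatorElement_def]; group
    have h2 : (1 + y) * ((1 + x) * (c : A)) = (1 + x) * (1 + y) := by
      rw [← hg', ← hh', ← Units.val_mul, ← Units.val_mul, ← Units.val_mul, h1]
    calc (1 + y) * ((1 + x) * ((c : A) - 1)) = (1 + y) * ((1 + x) * (c : A)) -
        (1 + y) * (1 + x) := by noncomm_ring
      _ = _ := by rw [h2]; noncomm_ring
  · have := hPC.2 t ht
    have e : ((c : A) - 1) * t - t * ((c : A) - 1) = (c : A) * t - t * (c : A) := by
      noncomm_ring
    rwa [e]

/-- In a nilpotent algebra with powerful adjoint group all `p`-th powers are central. -/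
theorem pth_central_aux [hp : Fact p.Prime] (hV : V * V ≤ V) (hn : ∃ n : ℕ, V ^ n = ⊥)
    (hle : ⁅UV V hV hn, UV V hV hn⁆ ≤ Subgroup.closure {x : Aˣ | ∃ g ∈ UV V hV hn,
      g ^ (if p = 2 then 4 else p) = x}) (j : ℕ) (hj : 1 ≤ j) :
    ∀ x ∈ V, ∀ y ∈ V, x ^ p * y - y * x ^ p ∈ V ^ j := by
  rcases subsingleton_or_nontrivial A with hsub | hnt
  · intro x _ y _
    rw [Subsingleton.elim (x ^ p * y - y * x ^ p) 0]
    exact Submodule.zero_mem _
  have hcharA : CharP A p := charP_of_injective_algebraMap (algebraMap (ZMod p) A).injective p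
  induction j, hj using Nat.le_induction with
  | base =>
    intro x hx y hy
    rw [pow_one]
    have h := pow_mem' hV hx hp.out.one_le
    exact V.sub_mem (mul_mem' hV h hy) (mul_mem' hV hy h)
  | succ j hj ih =>
    intro x hx y hy
    rw [← adx_pow x y]
    by_cases h2 : p = 2
    · -- `p = 2`
      have hS : ∀ u ∈ {x : Aˣ | ∃ g ∈ UV V hV hn, g ^ (if p = 2 then 4 else p) = x},
          PC V (j + 1) u := by
        rintro u ⟨g, hg, rfl⟩
        rw [if_pos h2]
        refine ⟨(UV V hV hn).pow_mem hg 4, fun t ht => ?_⟩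
        have hgx : (g : A) - 1 ∈ V := hg
        set z := (g : A) - 1 with hz
        have hg1 : (g : A) = z + 1 := by rw [hz]; abel
        have h4 : ((g ^ 4 : Aˣ) : A) = (z ^ p) * (z ^ p) + 1 := by
          rw [Units.val_pow_eq_pow_val, hg1]
          have e1 : (z + 1) ^ p = z ^ p + 1 := by
            rw [add_pow_char_of_commute p (Commute.one_right z), one_pow]
          have e2 : (z ^ p + 1) ^ p = (z ^ p) ^ p + 1 := by
            rw [add_pow_char_of_commute p (Commute.one_right (z ^ p)), one_pow]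
          have e3 : (z + 1) ^ 4 = ((z + 1) ^ p) ^ p := by rw [← pow_mul, h2]
          rw [e3, e1, e2, ← pow_mul, ← pow_add]
          congr 2
          rw [h2]
        have hzp := pow_mem' hV hgx hp.out.one_le
        have e : ((g ^ 4 : Aˣ) : A) * t - t * ((g ^ 4 : Aˣ) : A) =
            z ^ p * (z ^ p * t - t * z ^ p) + (z ^ p * t - t * z ^ p) * z ^ p := by
          rw [h4]
          noncomm_ring
        rw [e]
        exact Submodule.add_mem _ (mul_pow_mem hzp (ih z hgx t ht))
          (pow_mul_mem hzp (ih z hgx t ht))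
      obtain ⟨v₁, hv₁, e1, c1⟩ := exists_comm hV hn (by omega : 1 ≤ j + 1) hS hle hx hy
      obtain ⟨v₂, hv₂, e2, c2⟩ := exists_comm hV hn (by omega : 1 ≤ j + 1) hS hle hx
        (V.add_mem hy hx)
      have hinv : ∃ z ∈ V, (1 + x) * (1 + z) = 1 := by
        obtain ⟨g, hg, hg'⟩ := exists_unit hV hn hx
        refine ⟨((g⁻¹ : Aˣ) : A) - 1, (UV V hV hn).inv_mem hg, ?_⟩
        rw [add_sub_cancel, ← hg']
        exact g.mul_inv
      have e2' : (1 + (y + x)) * ((1 + x) * v₂) = x * y - y * x := by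
        rw [e2]; noncomm_ring
      have := step_even hV (by omega : 1 ≤ j + 1) hx hy hinv e1 e2' c1 c2
      have e5 : (adx p x ^ p) y = x * (x * y - y * x) - (x * y - y * x) * x := by
        have : adx p x ^ p = adx p x ^ 2 := congrArg (fun k => adx p x ^ k) h2
        rw [this, pow_two]
        rfl
      rwa [e5]
    · -- `p` odd
      have hS : ∀ u ∈ {x : Aˣ | ∃ g ∈ UV V hV hn, g ^ (if p = 2 then 4 else p) = x},
          PC V j u := by
        rintro u ⟨g, hg, rfl⟩
        rw [if_neg h2]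
        refine ⟨(UV V hV hn).pow_mem hg p, fun t ht => ?_⟩
        have hgx : (g : A) - 1 ∈ V := hg
        set z := (g : A) - 1 with hz
        have hg1 : (g : A) = z + 1 := by rw [hz]; abel
        have h4 : ((g ^ p : Aˣ) : A) = z ^ p + 1 := by
          rw [Units.val_pow_eq_pow_val, hg1, add_pow_char_of_commute p (Commute.one_right z),
            one_pow]
        have e : ((g ^ p : Aˣ) : A) * t - t * ((g ^ p : Aˣ) : A) = z ^ p * t - t * z ^ p := by
          rw [h4]
          noncomm_ring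
        rw [e]
        exact ih z hgx t ht
      obtain ⟨v, hv, e1, c1⟩ := exists_comm hV hn hj hS hle hx hy
      obtain ⟨v', hv', e2, c2⟩ := exists_comm hV hn hj hS hle (V.neg_mem hx) hy
      have hu : IsUnit (1 + y) := by
        obtain ⟨g, hg, hg'⟩ := exists_unit hV hn hy
        exact ⟨g, hg'⟩
      have h2u : IsUnit (2 : ZMod p) := by
        have h3 : ((2 : ℕ) : ZMod p) = (2 : ZMod p) := by norm_num
        rw [← h3, ZMod.isUnit_iff_coprime]
        exact (Nat.coprime_primes Nat.prime_two hp.out).mpr (Ne.symm h2)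
      have e2' : (1 + y) * ((1 - x) * v') = -(x * y - y * x) := by
        rw [sub_eq_add_neg 1 x, e2]; noncomm_ring
      have h5 := step_odd hV hj hx hy h2u hu e1 e2' c1 c2
      have h6 : adx p x (x * (x * y - y * x) - (x * y - y * x) * x) ∈ V ^ (j + 1) :=
        adx_mem hx h5
      have h7 : 3 ≤ p := by
        have := hp.out.two_le
        omega
      have e5 : (adx p x ^ p) y = (adx p x ^ (p - 3))
          (adx p x (x * (x * y - y * x) - (x * y - y * x) * x)) := by
        have : (adx p x ^ p) = adx p x ^ (p - 3) * (adx p x ^ 3) := by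
          rw [← pow_add]; congr 1; omega
        rw [this, pow_succ (adx p x) 2, pow_two]
        rfl
      rw [e5]
      exact adx_pow_mem hV (by omega) hx h6 _

theorem pth_central [hp : Fact p.Prime] (hV : V * V ≤ V) (hn : ∃ n : ℕ, V ^ n = ⊥)
    (hle : ⁅UV V hV hn, UV V hV hn⁆ ≤ Subgroup.closure {x : Aˣ | ∃ g ∈ UV V hV hn,
      g ^ (if p = 2 then 4 else p) = x}) :
    ∀ x ∈ V, ∀ y ∈ V, x ^ p * y = y * x ^ p := by
  intro x hx y hy
  obtain ⟨n, hn'⟩ := id hn
  have h := pth_central_aux hV hn hle (n + 1) (by omega) x hx y hy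
  rw [pow_succ, hn', Submodule.bot_mul, Submodule.mem_bot] at h
  exact sub_eq_zero.mp h

end Pool.Agent.Helper515.BP
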