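import Pool.Agent.Helper515.BPc
import Pool.Agent.Helper515.EGf

set_option autoImplicit false

namespace Pool.Agent.Helper515.BP

open Module
open scoped commutatorElement

variable {p : ℕ} {A : Type} [Ring A] [Algebra (ZMod p) A]

/-- the centre of `V` as a non-unital subalgebra -/
def CS (V : Submodule (ZMod p) A) (hV : V * V ≤ V) : NonUnitalSubalgebra (ZMod p) A where
  carrier := {c | c ∈ V ∧ ∀ y ∈ V, c * y = y * c}
  zero_mem' := ⟨V.zero_mem, fun y _ => by rw [zero_mul, mul_zero]⟩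
  add_mem' := by
    rintro a b ⟨ha, ha'⟩ ⟨hb, hb'⟩
    exact ⟨V.add_mem ha hb, fun y hy => by rw [add_mul, mul_add, ha' y hy, hb' y hy]⟩
  mul_mem' := by
    rintro a b ⟨ha, ha'⟩ ⟨hb, hb'⟩
    exact ⟨mul_mem' hV ha hb, fun y hy => by
      rw [mul_assoc, hb' y hy, ← mul_assoc, ha' y hy, mul_assoc]⟩
  smul_mem' := by
    rintro c a ⟨ha, ha'⟩
    exact ⟨V.smul_mem c ha, fun y hy => by rw [smul_mul_assoc, mul_smul_comm, ha' y hy]⟩

theorem mem_CS {V : Submodule (ZMod p) A} {hV : V * V ≤ V} {c : A} :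
    c ∈ CS V hV ↔ c ∈ V ∧ ∀ y ∈ V, c * y = y * c := Iff.rfl

/-- the centre of `V` as a commutative non-unital ring -/
abbrev CSring (V : Submodule (ZMod p) A) (hV : V * V ≤ V) : NonUnitalCommRing (CS V hV) :=
  { (inferInstance : NonUnitalRing (CS V hV)) with
    mul_comm := fun a b => Subtype.ext (a.2.2 b.1 b.2.1) }

/-- the span of the `p`-th powers of the centre -/
def WS (V : Submodule (ZMod p) A) (hV : V * V ≤ V) : Submodule (ZMod p) A :=
  Submodule.span (ZMod p) {x | ∃ c ∈ CS V hV, c ^ p = x}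

theorem WS_mul (V : Submodule (ZMod p) A) (hV : V * V ≤ V) : WS V hV * WS V hV ≤ WS V hV := by
  rw [WS, Submodule.span_mul_span]
  apply Submodule.span_mono
  rintro _ ⟨_, ⟨a, ha, rfl⟩, _, ⟨b, hb, rfl⟩, rfl⟩
  refine ⟨a * b, (CS V hV).mul_mem ha hb, ?_⟩
  have : Commute a b := ha.2 b hb.1
  exact this.mul_pow p

theorem WS_le [hp : Fact p.Prime] (V : Submodule (ZMod p) A) (hV : V * V ≤ V) :
    WS V hV ≤ (CS V hV).toSubmodule := by
  rw [WS, Submodule.span_le]
  rintro _ ⟨a, ha, rfl⟩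
  change a ^ p ∈ CS V hV
  have key : ∀ k : ℕ, a ^ (k + 1) ∈ CS V hV := by
    intro k
    induction k with
    | zero => rwa [zero_add, pow_one]
    | succ k ih => rw [pow_succ]; exact (CS V hV).mul_mem ih ha
  have h := key (p - 1)
  rwa [Nat.sub_add_cancel hp.out.one_le] at h

theorem CS_nilp (V : Submodule (ZMod p) A) (hV : V * V ≤ V) (hn : ∃ n : ℕ, V ^ n = ⊥) :
    EGN.IsNilp (CS V hV) := by
  obtain ⟨n, hn⟩ := hn
  refine ⟨n, ?_⟩
  have key : ∀ (l : List (CS V hV)) (a : CS V hV) (k : ℕ), (a : A) ∈ V ^ (k + 1) →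
      ((l.foldl (· * ·) a : CS V hV) : A) ∈ V ^ (k + 1 + l.length) := by
    intro l
    induction l with
    | nil => intro a k ha; simpa using ha
    | cons b l ih =>
      intro a k ha
      rw [List.foldl_cons, List.length_cons]
      have h1 : ((a * b : CS V hV) : A) ∈ V ^ (k + 1 + 1) := by
        rw [pow_succ]
        exact Submodule.mul_mem_mul ha b.2.1
      have h2 := ih (a * b) (k + 1) h1
      have h3 : k + 1 + 1 + l.length = k + 1 + (l.length + 1) := by ring
      rwa [h3] at h2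
  intro a l hl
  have h1 := key l a 0 (by rw [zero_add, pow_one]; exact a.2.1)
  rw [hl, pow_add, hn, Submodule.mul_bot, Submodule.mem_bot] at h1
  exact Subtype.ext h1

theorem CS_finrank [hp : Fact p.Prime] [Module.Finite (ZMod p) A] (V : Submodule (ZMod p) A)
    (hV : V * V ≤ V) (hn : ∃ n : ℕ, V ^ n = ⊥) :
    3 * finrank (ZMod p) (WS V hV) ≤ 2 * finrank (ZMod p) (CS V hV).toSubmodule := by
  let _ : NonUnitalCommRing (CS V hV) := CSring V hV
  have hfin : FiniteDimensional (ZMod p) (CS V hV) :=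
    (inferInstance : FiniteDimensional (ZMod p) (CS V hV).toSubmodule)
  have h1 := EGN.main_nat (F := ZMod p) (R := CS V hV) p (CS_nilp V hV hn)
  have h2 : 3 ≤ EG.cst p := by
    unfold EG.cst
    split_ifs
    · norm_num
    · have := hp.out.two_le
      omega
  have h3 : finrank (ZMod p) (WS V hV) = finrank (ZMod p) (EGN.pPowers (ZMod p) (CS V hV) p) := by
    have hW : WS V hV = (EGN.pPowers (ZMod p) (CS V hV) p).map (CS V hV).toSubmodule.subtype := by
      rw [WS, EGN.pPowers, Submodule.map_span]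
      congr 1
      have hpow : ∀ (a : CS V hV) (k : ℕ), ((EGN.pow1 a k : CS V hV) : A) = (a : A) ^ (k + 1) := by
        intro a k
        induction k with
        | zero => rw [EGN.pow1, zero_add, pow_one]
        | succ k ih =>
          rw [EGN.pow1, pow_succ _ (k + 1), ← ih]
          rfl
      ext x
      constructor
      · rintro ⟨c, hc, rfl⟩
        refine ⟨EGN.pow1 (⟨c, hc⟩ : CS V hV) (p - 1), ⟨⟨c, hc⟩, rfl⟩, ?_⟩
        change ((EGN.pow1 (⟨c, hc⟩ : CS V hV) (p - 1) : CS V hV) : A) = _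
        rw [hpow, Nat.sub_add_cancel hp.out.one_le]
      · rintro ⟨_, ⟨a, rfl⟩, rfl⟩
        refine ⟨a.1, a.2, ?_⟩
        change _ = ((EGN.pow1 a (p - 1) : CS V hV) : A)
        rw [hpow, Nat.sub_add_cancel hp.out.one_le]
    rw [hW]
    exact ((Submodule.equivMapOfInjective _ (Submodule.injective_subtype _) _).finrank_eq).symm
  rw [h3]
  calc _ ≤ EG.cst p * finrank (ZMod p) (EGN.pPowers (ZMod p) (CS V hV) p) :=
        Nat.mul_le_mul_right _ h2
    _ ≤ _ := h1

theorem CS_mul (V : Submodule (ZMod p) A) (hV : V * V ≤ V) :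
    (CS V hV).toSubmodule * (CS V hV).toSubmodule ≤ (CS V hV).toSubmodule := by
  rw [Submodule.mul_le]
  intro a ha b hb
  exact (CS V hV).mul_mem ha hb

theorem nilp_mono {V W : Submodule (ZMod p) A} (h : W ≤ V) (hn : ∃ n : ℕ, V ^ n = ⊥) :
    ∃ n : ℕ, W ^ n = ⊥ := by
  obtain ⟨n, hn⟩ := hn
  refine ⟨n, eq_bot_iff.mpr ?_⟩
  rw [← hn]
  exact pow_le_pow_left' h n

/-- The rank bound for powerful adjoint groups. -/
theorem rank_bound [hp : Fact p.Prime] [Module.Finite (ZMod p) A] (V : Submodule (ZMod p) A)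
    (hV : V * V ≤ V) (hn : ∃ n : ℕ, V ^ n = ⊥)
    (hle : ⁅UV V hV hn, UV V hV hn⁆ ≤ Subgroup.closure {x : Aˣ | ∃ g ∈ UV V hV hn,
      g ^ (if p = 2 then 4 else p) = x}) :
    ∃ H : Subgroup Aˣ, H ≤ UV V hV hn ∧ ∀ s : Finset Aˣ, Subgroup.closure (s : Set Aˣ) = H →
      finrank (ZMod p) V ≤ 4 * s.card := by
  rcases subsingleton_or_nontrivial A with hsub | hnt
  · refine ⟨UV V hV hn, le_rfl, fun s _ => ?_⟩
    have : finrank (ZMod p) V = 0 := finrank_zero_of_subsingleton
    omega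
  have hcharA : CharP A p := charP_of_injective_algebraMap (algebraMap (ZMod p) A).injective p
  have hcen := pth_central hV hn hle
  set C := (CS V hV).toSubmodule with hC
  have hCV : C ≤ V := fun c hc => hc.1
  have hCm : C * C ≤ C := CS_mul V hV
  have hCn := nilp_mono hCV hn
  set W := WS V hV with hW
  have hWC : W ≤ C := WS_le V hV
  have hWm : W * W ≤ W := WS_mul V hV
  have hWn := nilp_mono hWC hCn
  have hdim : 3 * finrank (ZMod p) W ≤ 2 * finrank (ZMod p) C := CS_finrank V hV hn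
  have hp1 : 1 < p := hp.out.one_lt
  have hpowp : ∀ (u : Aˣ), ((u ^ p : Aˣ) : A) - 1 = ((u : A) - 1) ^ p := by
    intro u
    have hu : (u : A) = ((u : A) - 1) + 1 := by abel
    rw [Units.val_pow_eq_pow_val]
    nth_rewrite 1 [hu]
    rw [add_pow_char_of_commute p (Commute.one_right _), one_pow, add_sub_cancel_right]
  -- the whole group
  have hCVU : UV C hCm hCn ≤ UV V hV hn := fun u hu => hCV hu
  have hpowC : ∀ g ∈ UV V hV hn, g ^ p ∈ UV C hCm hCn := by
    intro g hg
    rw [mem_UV, hpowp]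
    exact ⟨pow_mem' hV hg hp.out.one_le, fun y hy => hcen _ hg y hy⟩
  -- the subgroup `1 + C` is normal, so it contains `[G, G]`
  have hS : ∀ u ∈ {x : Aˣ | ∃ g ∈ UV V hV hn, g ^ (if p = 2 then 4 else p) = x},
      u ∈ UV C hCm hCn := by
    rintro u ⟨g, hg, rfl⟩
    by_cases h2 : p = 2
    · rw [if_pos h2]
      have h4 : g ^ 4 = (g ^ p) ^ 2 := by rw [← pow_mul]; congr 1; omega
      rw [h4]
      exact (UV C hCm hCn).pow_mem (hpowC g hg) 2
    · rw [if_neg h2]
      exact hpowC g hg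
  have hcommC : ∀ g ∈ UV V hV hn, ∀ h ∈ UV V hV hn, g * h * g⁻¹ * h⁻¹ ∈ UV C hCm hCn := by
    intro g hg h hh
    have h1 : ⁅g, h⁆ ∈ ⁅UV V hV hn, UV V hV hn⁆ := Subgroup.commutator_mem_commutator hg hh
    rw [commutatorElement_def] at h1
    exact (Subgroup.closure_le _).mpr hS (hle h1)
  -- the subgroup `1 + C`
  have hWCU : UV W hWm hWn ≤ UV C hCm hCn := fun u hu => hWC hu
  have hpowW : ∀ g ∈ UV C hCm hCn, g ^ p ∈ UV W hWm hWn := by
    intro g hg
    rw [mem_UV, hpowp]
    exact Submodule.subset_span ⟨(g : A) - 1, hg, rfl⟩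
  have hcommW : ∀ g ∈ UV C hCm hCn, ∀ h ∈ UV C hCm hCn, g * h * g⁻¹ * h⁻¹ ∈ UV W hWm hWn := by
    intro g hg h hh
    have h1 : g * h = h * g := by
      apply Units.ext
      rw [Units.val_mul, Units.val_mul]
      have e := hg.2 _ (hCV hh)
      have e1 : (g : A) * (h : A) = ((g : A) - 1) * ((h : A) - 1) + (g : A) + (h : A) - 1 := by
        noncomm_ring
      have e2 : (h : A) * (g : A) = ((h : A) - 1) * ((g : A) - 1) + (g : A) + (h : A) - 1 := by
        noncomm_ring
      rw [e1, e2, e]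
    have h2 : g * h * g⁻¹ * h⁻¹ = 1 := by rw [h1]; group
    rw [h2]
    exact Subgroup.one_mem _
  by_cases hcase : 4 * finrank (ZMod p) C ≤ 3 * finrank (ZMod p) V
  · refine ⟨UV V hV hn, le_rfl, fun s hs => ?_⟩
    have h1 := gen_bound p hp.out.pos _ _ hCVU hpowC hcommC s hs
    rw [card_UV, card_UV, ← pow_add] at h1
    have h2 := (Nat.pow_le_pow_iff_right hp1).mp h1
    omega
  · refine ⟨UV C hCm hCn, hCVU, fun s hs => ?_⟩
    have h1 := gen_bound p hp.out.pos _ _ hWCU hpowW hcommW s hs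
    rw [card_UV, card_UV, ← pow_add] at h1
    have h2 := (Nat.pow_le_pow_iff_right hp1).mp h1
    omega

end Pool.Agent.Helper515.BP
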