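import Mathlib

set_option autoImplicit false

namespace Pool.Agent.Helper515.EG

open Polynomial Module

universe u v

variable {F : Type u} {A : Type v} [Field F] [CommRing A] [Algebra F A]

theorem poly_zero (Q : A[X]) (S : Set F) (hS : S.Infinite)
    (h : ∀ t ∈ S, Q.eval (algebraMap F A t) = 0) : Q = 0 := by
  ext i
  rw [coeff_zero]
  by_cases hi : i ∈ Q.support
  swap
  · exact notMem_support_iff.mp hi
  rw [← Module.forall_dual_apply_eq_zero_iff F]
  intro l
  let q : F[X] := ∑ k ∈ Q.support, monomial k (l (Q.coeff k))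
  have hq : q = 0 := by
    apply eq_zero_of_infinite_isRoot
    apply hS.mono
    intro t ht
    have h1 := h t ht
    change q.eval t = 0
    rw [eval_eq_sum, Polynomial.sum] at h1
    have h2 := congrArg l h1
    rw [map_sum, map_zero] at h2
    simp only [q]
    rw [eval_finsetSum, ← h2]
    apply Finset.sum_congr rfl
    intro k _
    rw [eval_monomial, ← map_pow, mul_comm (Q.coeff k), ← Algebra.smul_def, map_smul, smul_eq_mul,
      mul_comm]
  have h3 : q.coeff i = l (Q.coeff i) := by
    simp only [q]
    rw [finsetSum_coeff, Finset.sum_eq_single i]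
    · rw [coeff_monomial, if_pos rfl]
    · intro b _ hb
      rw [coeff_monomial, if_neg hb]
    · intro hh; exact absurd hi hh
  rw [← h3, hq, coeff_zero]

/-- multiplication by `a` -/
abbrev mu (F : Type u) {A : Type v} [Field F] [CommRing A] [Algebra F A] (a : A) : A →ₗ[F] A :=
  LinearMap.mulLeft F a

theorem mu_apply (a b : A) : mu F a b = a * b := rfl

/-- coefficients of the family `(y + t z)^s` -/
def co (y z : A) (s m : ℕ) : A := z ^ m * y ^ (s - m) * (s.choose m : A)

theorem fam_eq (y z : A) (s : ℕ) (t : F) :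
    (y + t • z) ^ s = ∑ m ∈ Finset.range (s + 1), t ^ m • co y z s m := by
  rw [add_comm, add_pow]
  apply Finset.sum_congr rfl
  intro m _
  rw [_root_.smul_pow, co, smul_mul_assoc, smul_mul_assoc]

/-- the polynomial `l ((y + t z)^s a)` in `t` -/
noncomputable def fp (l : A →ₗ[F] F) (y z : A) (s : ℕ) (a : A) : F[X] :=
  ∑ m ∈ Finset.range (s + 1), monomial m (l (co y z s m * a))

theorem fp_eval (l : A →ₗ[F] F) (y z : A) (s : ℕ) (a : A) (t : F) :
    (fp l y z s a).eval t = l ((y + t • z) ^ s * a) := by
  rw [fam_eq, fp, eval_finsetSum, Finset.sum_mul, map_sum]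
  apply Finset.sum_congr rfl
  intro m _
  rw [eval_monomial, smul_mul_assoc, map_smul, smul_eq_mul, mul_comm]

theorem lift_core [FiniteDimensional F A] (V : Submodule F A) (y z : A) (s : ℕ) :
    ∃ d : F[X], d.eval 0 = 1 ∧
      (∀ t, d.eval t ≠ 0 → finrank F (V.map (mu F (y ^ s))) ≤
        finrank F (V.map (mu F ((y + t • z) ^ s)))) ∧
      ∀ x ∈ V, y ^ s * x = 0 → ∃ Q : A[X], (∀ i, Q.coeff i ∈ V) ∧ Q.eval 0 = x ∧
        ∀ t, d.eval t ≠ 0 → finrank F (V.map (mu F ((y + t • z) ^ s))) ≤
          finrank F (V.map (mu F (y ^ s))) →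
          (y + t • z) ^ s * Q.eval (algebraMap F A t) = 0 := by
  classical
  set r := finrank F (V.map (mu F (y ^ s))) with hr
  let b : Basis (Fin r) F (V.map (mu F (y ^ s))) := finBasis F _
  have hc : ∀ j, ∃ c ∈ V, y ^ s * c = (b j : A) := by
    intro j
    obtain ⟨c, hc, h⟩ := (b j).2
    exact ⟨c, hc, h⟩
  choose c hcV hcb using hc
  have hl : ∀ i, ∃ l : A →ₗ[F] F, ∀ v : V.map (mu F (y ^ s)), l v = b.coord i v := by
    intro i
    obtain ⟨l, hl⟩ := LinearMap.exists_extend (b.coord i)
    exact ⟨l, fun v => by rw [← hl]; rfl⟩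
  choose l hl using hl
  let M : Matrix (Fin r) (Fin r) F[X] := fun i j => fp (l i) y z s (c j)
  let Mt : F → Matrix (Fin r) (Fin r) F := fun t i j => l i ((y + t • z) ^ s * c j)
  have hM : ∀ t, (Polynomial.evalRingHom t).mapMatrix M = Mt t := by
    intro t
    ext i j
    change (fp (l i) y z s (c j)).eval t = _
    rw [fp_eval]
  have hdet : ∀ t, M.det.eval t = (Mt t).det := by
    intro t
    rw [← hM t, ← RingHom.map_det]
    rfl
  have hadj : ∀ t i j, (M.adjugate i j).eval t = (Mt t).adjugate i j := by
    intro t i j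
    rw [← hM t, ← RingHom.map_adjugate]
    rfl
  have hM0 : Mt 0 = 1 := by
    ext i j
    simp only [Mt]
    rw [zero_smul, add_zero, hcb, hl, Basis.coord_apply, Basis.repr_self, Matrix.one_apply]
    rw [Finsupp.single_apply]
    simp only [eq_comm]
  -- surjectivity of the vector of functionals
  have hsurj : ∀ t : F, (Mt t).det ≠ 0 → ∀ g : Fin r → F, ∃ u ∈ V.map (mu F ((y + t • z) ^ s)),
      ∀ i, l i u = g i := by
    intro t ht g
    have hu : IsUnit (Mt t).det := isUnit_iff_ne_zero.mpr ht
    let h : Fin r → F := (Mt t)⁻¹.mulVec g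
    refine ⟨∑ j, h j • ((y + t • z) ^ s * c j), ?_, ?_⟩
    · apply Submodule.sum_mem
      intro j _
      exact Submodule.smul_mem _ _ ⟨c j, hcV j, rfl⟩
    · intro i
      rw [map_sum]
      have h1 : (Mt t).mulVec h = g := by
        simp only [h]
        rw [Matrix.mulVec_mulVec, Matrix.mul_nonsing_inv _ hu, Matrix.one_mulVec]
      rw [← congrFun h1 i]
      change _ = ∑ j, Mt t i j * h j
      apply Finset.sum_congr rfl
      intro j _
      rw [map_smul, smul_eq_mul, mul_comm]
  let Lam : ∀ t : F, ↥(V.map (mu F ((y + t • z) ^ s))) →ₗ[F] (Fin r → F) := fun t =>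
    LinearMap.pi (fun i => (l i).comp (Submodule.subtype _))
  have hLs : ∀ t : F, (Mt t).det ≠ 0 → Function.Surjective (Lam t) := by
    intro t ht g
    obtain ⟨u, hu, hg⟩ := hsurj t ht g
    exact ⟨⟨u, hu⟩, funext hg⟩
  have hge : ∀ t : F, (Mt t).det ≠ 0 → r ≤ finrank F (V.map (mu F ((y + t • z) ^ s))) := by
    intro t ht
    have := LinearMap.finrank_le_finrank_of_surjective (hLs t ht)
    rwa [finrank_fin_fun] at this
  have hinj : ∀ t : F, (Mt t).det ≠ 0 → finrank F (V.map (mu F ((y + t • z) ^ s))) ≤ r →
      Function.Injective (Lam t) := by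
    intro t ht hle
    have h1 : finrank F (V.map (mu F ((y + t • z) ^ s))) = finrank F (Fin r → F) := by
      rw [finrank_fin_fun]
      exact le_antisymm hle (hge t ht)
    exact (LinearMap.injective_iff_surjective_of_finrank_eq_finrank h1).mpr (hLs t ht)
  refine ⟨M.det, ?_, ?_, ?_⟩
  · rw [hdet, hM0, Matrix.det_one]
  · intro t ht
    rw [hdet] at ht
    exact hge t ht
  · intro x hx hx0
    let w : Fin r → F[X] := fun i => fp (l i) y z s x
    let g : Fin r → F[X] := M.adjugate.mulVec w
    let Q : A[X] := (M.det.map (algebraMap F A)) * C x -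
      ∑ j, ((g j).map (algebraMap F A)) * C (c j)
    refine ⟨Q, ?_, ?_, ?_⟩
    · intro i
      simp only [Q]
      rw [coeff_sub, finsetSum_coeff, coeff_mul_C, coeff_map, ← Algebra.smul_def]
      apply Submodule.sub_mem _ (V.smul_mem _ hx)
      apply Submodule.sum_mem
      intro j _
      rw [coeff_mul_C, coeff_map, ← Algebra.smul_def]
      exact V.smul_mem _ (hcV j)
    · have h0 : ∀ q : F[X], (q.map (algebraMap F A)).eval 0 = algebraMap F A (q.eval 0) := by
        intro q
        rw [← map_zero (algebraMap F A), eval_map, eval₂_at_apply]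
      simp only [Q]
      rw [eval_sub, eval_finsetSum, eval_mul, eval_C, h0, hdet, hM0, Matrix.det_one, map_one,
        one_mul]
      have h1 : ∀ j, (g j).eval 0 = 0 := by
        intro j
        simp only [g]
        change (∑ i, M.adjugate j i * w i).eval 0 = 0
        rw [eval_finsetSum]
        apply Finset.sum_eq_zero
        intro i _
        rw [eval_mul]
        simp only [w]
        rw [fp_eval, zero_smul, add_zero, hx0, map_zero, mul_zero]
      rw [Finset.sum_eq_zero, sub_zero]
      intro j _
      rw [eval_mul, h0, h1, map_zero, zero_mul]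
    · intro t ht hle
      rw [hdet] at ht
      have h0 : ∀ q : F[X], (q.map (algebraMap F A)).eval (algebraMap F A t) =
          algebraMap F A (q.eval t) := by
        intro q
        rw [eval_map, eval₂_at_apply]
      have hQ : Q.eval (algebraMap F A t) = M.det.eval t • x - ∑ j, (g j).eval t • c j := by
        simp only [Q]
        rw [eval_sub, eval_finsetSum, eval_mul, eval_C, h0, ← Algebra.smul_def]
        congr 1
        apply Finset.sum_congr rfl
        intro j _
        rw [eval_mul, h0, eval_C, ← Algebra.smul_def]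
      have hQV : Q.eval (algebraMap F A t) ∈ V := by
        rw [hQ]
        exact Submodule.sub_mem _ (V.smul_mem _ hx)
          (Submodule.sum_mem _ fun j _ => V.smul_mem _ (hcV j))
      have hmem : (y + t • z) ^ s * Q.eval (algebraMap F A t) ∈
          V.map (mu F ((y + t • z) ^ s)) := ⟨_, hQV, rfl⟩
      have hzero : Lam t ⟨_, hmem⟩ = 0 := by
        funext i
        change l i ((y + t • z) ^ s * Q.eval (algebraMap F A t)) = 0
        rw [hQ, mul_sub, map_sub, mul_smul_comm, map_smul, Finset.mul_sum, map_sum, hdet]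
        have h2 : ∀ j, (g j).eval t = (Mt t).adjugate.mulVec (fun i => (w i).eval t) j := by
          intro j
          simp only [g]
          change (∑ i, M.adjugate j i * w i).eval t = ∑ i, (Mt t).adjugate j i * (w i).eval t
          rw [eval_finsetSum]
          apply Finset.sum_congr rfl
          intro i _
          rw [eval_mul, hadj]
        have h3 : (Mt t).mulVec ((Mt t).adjugate.mulVec (fun i => (w i).eval t)) i =
            (Mt t).det * (w i).eval t := by
          rw [Matrix.mulVec_mulVec, Matrix.mul_adjugate, Matrix.smul_mulVec, Matrix.one_mulVec]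
          rfl
        have h4 : (w i).eval t = l i ((y + t • z) ^ s * x) := fp_eval _ _ _ _ _ _
        have h5 : (Mt t).mulVec ((Mt t).adjugate.mulVec (fun i => (w i).eval t)) i =
            ∑ j, l i ((y + t • z) ^ s * (g j).eval t • c j) := by
          change ∑ j, Mt t i j * _ = _
          apply Finset.sum_congr rfl
          intro j _
          rw [← h2 j, mul_smul_comm, map_smul, smul_eq_mul, mul_comm]
        rw [← h5, h3, ← h4, smul_eq_mul, sub_self]
      have h6 := hinj t ht hle (hzero.trans (map_zero (Lam t)).symm)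
      exact congrArg Subtype.val h6

end Pool.Agent.Helper515.EG
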