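import Pool.Agent.Helper515.EGa

set_option autoImplicit false

namespace Pool.Agent.Helper515.EG

open Polynomial Module

universe u v

variable {F : Type u} {A : Type v} [Field F] [CommRing A] [Algebra F A]

/-- rank of the multiplication by `y ^ s` on `V` -/
noncomputable def rk (F : Type u) {A : Type v} [Field F] [CommRing A] [Algebra F A]
    (V : Submodule F A) (y : A) (s : ℕ) : ℕ :=
  finrank F (V.map (mu F (y ^ s)))

/-- `y` is generic for the exponents up to `p`: the sum of the ranks is maximal. -/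
def IsGen (V : Submodule F A) (p : ℕ) (y : A) : Prop :=
  y ∈ V ∧ ∀ y' ∈ V, ∑ s ∈ Finset.range (p + 1), rk F V y' s ≤ ∑ s ∈ Finset.range (p + 1), rk F V y s

theorem exists_gen [FiniteDimensional F A] (V : Submodule F A) (p : ℕ) : ∃ y, IsGen V p y := by
  let S : Set ℕ := {m | ∃ y ∈ V, m = ∑ s ∈ Finset.range (p + 1), rk F V y s}
  have hne : S.Nonempty := ⟨_, 0, V.zero_mem, rfl⟩
  have hbd : BddAbove S := by
    refine ⟨(p + 1) * finrank F A, ?_⟩
    rintro m ⟨y, _, rfl⟩
    calc ∑ s ∈ Finset.range (p + 1), rk F V y s ≤ ∑ s ∈ Finset.range (p + 1), finrank F A :=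
          Finset.sum_le_sum fun s _ => Submodule.finrank_le _
      _ = (p + 1) * finrank F A := by rw [Finset.sum_const, Finset.card_range, smul_eq_mul]
  obtain ⟨y, hy, h⟩ := Nat.sSup_mem hne hbd
  refine ⟨y, hy, fun y' hy' => ?_⟩
  rw [← h]
  exact le_csSup hbd ⟨y', hy', rfl⟩

theorem gen_lift [Infinite F] [FiniteDimensional F A] (V : Submodule F A) (p : ℕ) (y : A)
    (hy : IsGen V p y) (z : A) (hz : z ∈ V) (s : ℕ) (hs : s ≤ p) (x : A) (hx : x ∈ V)
    (hxy : y ^ s * x = 0) :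
    ∃ Q : A[X], (∀ i, Q.coeff i ∈ V) ∧ Q.eval 0 = x ∧ (C y + X * C z) ^ s * Q = 0 := by
  classical
  have hcore := fun s => lift_core V y z s
  choose d hd0 hdr hdl using hcore
  let D : F[X] := ∏ k ∈ Finset.range (p + 1), d k
  have hD : D ≠ 0 := by
    intro h
    have h1 : D.eval 0 = 1 := by
      simp only [D]
      rw [eval_prod]
      exact Finset.prod_eq_one fun k _ => hd0 k
    rw [h, eval_zero] at h1
    exact zero_ne_one h1
  let G : Set F := {t | D.eval t ≠ 0}
  have hG : G.Infinite := by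
    have h1 : Gᶜ.Finite := by
      have : Gᶜ = {t | D.IsRoot t} := by
        ext t
        simp [G]
      rw [this]
      by_contra hcon
      exact hD (eq_zero_of_infinite_isRoot D hcon)
    exact h1.infinite_compl.mono (by rw [compl_compl])
  have hGd : ∀ t ∈ G, ∀ k ∈ Finset.range (p + 1), (d k).eval t ≠ 0 := by
    intro t ht k hk hkt
    apply ht
    simp only [D]
    rw [eval_prod]
    exact Finset.prod_eq_zero hk hkt
  have hrk : ∀ t ∈ G, ∀ k ∈ Finset.range (p + 1), rk F V (y + t • z) k = rk F V y k := by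
    intro t ht
    have hle : ∀ k ∈ Finset.range (p + 1), rk F V y k ≤ rk F V (y + t • z) k := fun k hk =>
      hdr k t (hGd t ht k hk)
    have hmax := hy.2 (y + t • z) (V.add_mem hy.1 (V.smul_mem t hz))
    have heq : ∑ k ∈ Finset.range (p + 1), rk F V y k =
        ∑ k ∈ Finset.range (p + 1), rk F V (y + t • z) k :=
      le_antisymm (Finset.sum_le_sum hle) hmax
    intro k hk
    exact ((Finset.sum_eq_sum_iff_of_le hle).mp heq k hk).symm
  have hsr : s ∈ Finset.range (p + 1) := Finset.mem_range.mpr (by omega)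
  obtain ⟨Q, hQV, hQ0, hQ⟩ := hdl s x hx hxy
  refine ⟨Q, hQV, hQ0, ?_⟩
  apply poly_zero _ G hG
  intro t ht
  rw [eval_mul, eval_pow, eval_add, eval_mul, eval_C, eval_X, eval_C, ← Algebra.smul_def]
  exact hQ t (hGd t ht s hsr) (hrk t ht s hsr).le

/-- nilpotency of the elements annihilated by `y ^ s` -/
theorem gen_nil [Infinite F] [FiniteDimensional F A] (V : Submodule F A) (p : ℕ) (y : A)
    (hy : IsGen V p y) (s : ℕ) (hs : s ≤ p) (hs1 : 1 ≤ s) (x : A) (hx : x ∈ V)
    (hxy : y ^ s * x = 0) : x ^ (2 * s + 1) = 0 := by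
  obtain ⟨Q, hQV, hQ0, hQ⟩ := gen_lift V p y hy x hx s hs x hx hxy
  have h1 : (Q * C x) * (X * C x) ^ (2 * s - 1) = 0 := by
    have h2 : (X * C x : A[X]) = (C y + X * C x) + -(C y) := by ring
    rw [h2, add_pow, Finset.mul_sum]
    apply Finset.sum_eq_zero
    intro m hm
    rw [Finset.mem_range] at hm
    by_cases hms : s ≤ m
    · obtain ⟨k, rfl⟩ := Nat.exists_eq_add_of_le hms
      rw [pow_add]
      linear_combination (C x * (C y + X * C x) ^ k * (-C y) ^ (2 * s - 1 - (s + k)) *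
        ((2 * s - 1).choose (s + k) : A[X])) * hQ
    · obtain ⟨k, hk⟩ := Nat.exists_eq_add_of_le (show s ≤ 2 * s - 1 - m by omega)
      rw [hk, pow_add]
      have h3 : (C x : A[X]) * (-C y) ^ s = 0 := by
        rw [neg_pow, mul_left_comm, ← C_pow, ← C_mul, mul_comm x, hxy, C_0, mul_zero]
      linear_combination (Q * (C y + X * C x) ^ m * (-C y) ^ k *
        ((2 * s - 1).choose m : A[X])) * h3
  have h4 : X ^ (2 * s - 1) * (Q * C x * C x ^ (2 * s - 1)) = 0 := by
    rw [← h1, mul_pow]; ring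
  have h5 : Q * C x * C x ^ (2 * s - 1) = 0 := by
    ext i
    have := congrArg (fun q => coeff q (i + (2 * s - 1))) h4
    simp only [coeff_X_pow_mul, coeff_zero] at this
    rw [this, coeff_zero]
  have h6 := congrArg (eval 0) h5
  rw [eval_mul, eval_mul, eval_pow, eval_C, eval_zero, hQ0] at h6
  have h7 : 2 * s + 1 = 1 + 1 + (2 * s - 1) := by omega
  rw [h7, pow_add, pow_add, pow_one]
  exact h6

theorem cX1 (q : A[X]) : (X * q).coeff 1 = q.coeff 0 := coeff_X_mul q 0

theorem cX2 (q : A[X]) : (X * q).coeff 2 = q.coeff 1 := coeff_X_mul q 1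

theorem cX0 (q : A[X]) : (X * q).coeff 0 = 0 := by
  rw [mul_coeff_zero, coeff_X_zero, zero_mul]

/-- first order information -/
theorem gen_first [Infinite F] [FiniteDimensional F A] (V : Submodule F A) (p : ℕ) (y : A)
    (hy : IsGen V p y) (hp : 1 ≤ p) (x : A) (hx : x ∈ V) (z : A) (hz : z ∈ V)
    (hxy : y * x = 0) : ∃ v ∈ V, x * z = y * v := by
  obtain ⟨Q, hQV, hQ0, hQ⟩ := gen_lift V p y hy z hz 1 hp x hx (by rwa [pow_one])
  refine ⟨-(Q.coeff 1), V.neg_mem (hQV 1), ?_⟩
  rw [pow_one] at hQ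
  have h1 := congrArg (fun q => coeff q 1) hQ
  have hQ0' : Q.coeff 0 = x := by rw [coeff_zero_eq_eval_zero, hQ0]
  have e : (C y + X * C z) * Q = C y * Q + X * (C z * Q) := by ring
  rw [e] at h1
  simp only [coeff_add, coeff_C_mul, coeff_zero, cX1, hQ0'] at h1
  linear_combination h1

/-- second order information -/
theorem gen_second [Infinite F] [FiniteDimensional F A] (V : Submodule F A) (p : ℕ) (y : A)
    (hy : IsGen V p y) (hp : 2 ≤ p) (h2 : IsUnit (2 : A)) (x : A) (hx : x ∈ V)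
    (hxy : y ^ 2 * x = 0) : (∃ v ∈ V, x ^ 3 = y ^ 2 * v) ∧ y * x ^ 3 = 0 := by
  have first : ∀ z ∈ V, ∃ v ∈ V, y ^ 2 * v + 2 * (x * y * z) = 0 := by
    intro z hz
    obtain ⟨Q, hQV, hQ0, hQ⟩ := gen_lift V p y hy z hz 2 hp x hx hxy
    refine ⟨Q.coeff 1, hQV 1, ?_⟩
    have h1 := congrArg (fun q => coeff q 1) hQ
    have hQ0' : Q.coeff 0 = x := by rw [coeff_zero_eq_eval_zero, hQ0]
    have e : (C y + X * C z) ^ 2 * Q = C (y ^ 2) * Q + X * (C (2 * y * z) * Q + X * (C (z ^ 2) * Q)) := by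
      simp only [map_mul, map_pow, map_ofNat]
      ring
    rw [e] at h1
    simp only [coeff_add, coeff_C_mul, coeff_zero, cX1, cX0, hQ0', add_zero] at h1
    linear_combination h1
  obtain ⟨Q, hQV, hQ0, hQ⟩ := gen_lift V p y hy x hx 2 hp x hx hxy
  have hQ0' : Q.coeff 0 = x := by rw [coeff_zero_eq_eval_zero, hQ0]
  have e : (C y + X * C x) ^ 2 * Q = C (y ^ 2) * Q + X * (C (2 * y * x) * Q + X * (C (x ^ 2) * Q)) := by
    simp only [map_mul, map_pow, map_ofNat]
    ring
  have h1 := congrArg (fun q => coeff q 1) hQ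
  have h2' := congrArg (fun q => coeff q 2) hQ
  rw [e] at h1 h2'
  simp only [coeff_add, coeff_C_mul, coeff_zero, cX1, cX0, cX2, hQ0', add_zero] at h1 h2'
  obtain ⟨v, hv, hv1⟩ := first (Q.coeff 1) (hQV 1)
  constructor
  · refine ⟨v - Q.coeff 2, V.sub_mem hv (hQV 2), ?_⟩
    linear_combination h2' - hv1
  · obtain ⟨u, hu⟩ := h2
    have h4 : (2 : A) * (y * x ^ 3) = 0 := by
      linear_combination x * h1 - Q.coeff 1 * hxy
    rw [← hu] at h4
    have h5 := congrArg (fun q => (↑u⁻¹ : A) * q) h4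
    simpa [← mul_assoc] using h5

end Pool.Agent.Helper515.EG
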