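import Pool.Agent.Helper515.EGb

set_option autoImplicit false

namespace Pool.Agent.Helper515.EG

open Module

universe u v

variable {F : Type u} {A : Type v} [Field F] [CommRing A] [Algebra F A]

theorem frob_add (F : Type u) {A : Type v} [Field F] [CommRing A] [Algebra F A]
    (p : ℕ) [hp : Fact p.Prime] [CharP F p] (x y : A) : (x + y) ^ p = x ^ p + y ^ p := by
  rcases subsingleton_or_nontrivial A with h | h
  · exact Subsingleton.elim _ _
  · have := charP_of_injective_algebraMap (algebraMap F A).injective p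
    exact add_pow_char x y p

theorem frob_sum (F : Type u) {A : Type v} [Field F] [CommRing A] [Algebra F A]
    (p : ℕ) [hp : Fact p.Prime] [CharP F p] {ι : Type*} (s : Finset ι) (f : ι → A) :
    (∑ i ∈ s, f i) ^ p = ∑ i ∈ s, f i ^ p := by
  classical
  induction s using Finset.induction_on with
  | empty => rw [Finset.sum_empty, Finset.sum_empty, zero_pow hp.out.ne_zero]
  | insert a s ha ih => rw [Finset.sum_insert ha, Finset.sum_insert ha, frob_add F p, ih]

/-- the elements whose `p`-th power vanishes -/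
def nilK (F : Type u) (A : Type v) [Field F] [CommRing A] [Algebra F A]
    (p : ℕ) [hp : Fact p.Prime] [CharP F p] : Submodule F A where
  carrier := {x | x ^ p = 0}
  add_mem' := by
    intro a b ha hb
    change (a + b) ^ p = 0
    rw [frob_add F p, ha, hb, add_zero]
  zero_mem' := zero_pow hp.out.ne_zero
  smul_mem' := by
    intro c x hx
    change (c • x) ^ p = 0
    rw [smul_pow, hx, smul_zero]

/-- the span of the `p`-th powers of the elements of `M` -/
def phi (p : ℕ) (M : Submodule F A) : Submodule F A := Submodule.span F ((fun x => x ^ p) '' M)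

theorem phi_mono (p : ℕ) {M N : Submodule F A} (h : M ≤ N) : phi p M ≤ phi p N :=
  Submodule.span_mono (Set.image_mono h)

theorem mem_phi (p : ℕ) [hp : Fact p.Prime] [CharP F p] (hroot : ∀ a : F, ∃ b, b ^ p = a)
    (M : Submodule F A) (w : A) (hw : w ∈ phi p M) : ∃ x ∈ M, x ^ p = w := by
  unfold phi at hw
  induction hw using Submodule.span_induction with
  | mem x hx =>
    obtain ⟨y, hy, rfl⟩ := hx
    exact ⟨y, hy, rfl⟩
  | zero => exact ⟨0, M.zero_mem, zero_pow hp.out.ne_zero⟩
  | add a b _ _ ha hb =>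
    obtain ⟨x, hx, rfl⟩ := ha
    obtain ⟨y, hy, rfl⟩ := hb
    exact ⟨x + y, M.add_mem hx hy, frob_add F p x y⟩
  | smul c a _ ha =>
    obtain ⟨x, hx, rfl⟩ := ha
    obtain ⟨d, hd⟩ := hroot c
    exact ⟨d • x, M.smul_mem d hx, by rw [smul_pow, hd]⟩

theorem finrank_phi [FiniteDimensional F A] (p : ℕ) [hp : Fact p.Prime] [CharP F p]
    (hroot : ∀ a : F, ∃ b, b ^ p = a) (M : Submodule F A) :
    finrank F (phi p M) + finrank F (M ⊓ nilK F A p : Submodule F A) = finrank F M := by
  classical
  set N : Submodule F A := M ⊓ nilK F A p with hN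
  obtain ⟨D, hD⟩ := Submodule.exists_isCompl N
  set E : Submodule F A := M ⊓ D with hE
  have hsup : N ⊔ E = M := by
    have hNM : N ≤ M := inf_le_left
    rw [hE, inf_comm, ← sup_inf_assoc_of_le D hNM, hD.sup_eq_top, top_inf_eq]
  have hinf : N ⊓ E = ⊥ := by
    rw [eq_bot_iff, ← hD.inf_eq_bot]
    exact inf_le_inf_left _ inf_le_right
  obtain ⟨r, hr⟩ : ∃ r, r = finrank F E := ⟨_, rfl⟩
  let b : Basis (Fin (finrank F E)) F E := finBasis F E
  let w : Fin (finrank F E) → A := fun i => (b i : A) ^ p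
  have hli : LinearIndependent F w := by
    rw [Fintype.linearIndependent_iff]
    intro a ha i
    choose c hc using fun i => hroot (a i)
    have h1 : (∑ i, c i • (b i : A)) ^ p = 0 := by
      rw [frob_sum F p, ← ha]
      apply Finset.sum_congr rfl
      intro i _
      rw [smul_pow, hc]
    have h0 : (∑ i, c i • (b i : A)) ∈ E :=
      Submodule.sum_mem _ fun i _ => E.smul_mem _ (b i).2
    have h3 : (∑ i, c i • (b i : A)) = 0 := by
      have h4 : (∑ i, c i • (b i : A)) ∈ N ⊓ E := ⟨⟨h0.1, h1⟩, h0⟩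
      rw [hinf, Submodule.mem_bot] at h4
      exact h4
    have h4 : (∑ i, c i • b i) = 0 := by
      apply Subtype.ext
      push_cast
      exact h3
    have h5 := Fintype.linearIndependent_iff.mp b.linearIndependent c h4 i
    rw [← hc i, h5, zero_pow hp.out.ne_zero]
  have hspan : phi p M = Submodule.span F (Set.range w) := by
    apply le_antisymm
    · unfold phi
      rw [Submodule.span_le]
      rintro _ ⟨x, hx, rfl⟩
      have h1 : x ∈ N ⊔ E := by rw [hsup]; exact hx
      obtain ⟨n, hn, c, hc, hnc⟩ := Submodule.mem_sup.mp h1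
      have h3 : (⟨c, hc⟩ : E) = ∑ i, b.repr ⟨c, hc⟩ i • b i := (b.sum_repr _).symm
      have h4 : c = ∑ i, b.repr ⟨c, hc⟩ i • (b i : A) := by
        have h5 := congrArg Subtype.val h3
        push_cast at h5
        exact h5
      have hn' : n ^ p = 0 := hn.2
      change x ^ p ∈ Submodule.span F (Set.range w)
      rw [← hnc, frob_add F p, hn', zero_add, h4, frob_sum F p]
      apply Submodule.sum_mem
      intro i _
      rw [smul_pow]
      exact Submodule.smul_mem _ _ (Submodule.subset_span ⟨i, rfl⟩)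
    · rw [Submodule.span_le]
      rintro _ ⟨i, rfl⟩
      exact Submodule.subset_span ⟨_, (b i).2.1, rfl⟩
  have h1 : finrank F (phi p M) = finrank F E := by
    rw [hspan, finrank_span_eq_card hli, Fintype.card_fin]
  have h2 := Submodule.finrank_sup_add_finrank_inf_eq N E
  rw [hsup, hinf, finrank_bot] at h2
  rw [h1]
  omega

theorem rank_null [FiniteDimensional F A] (V : Submodule F A) (f : A →ₗ[F] A) :
    finrank F (V ⊓ LinearMap.ker f : Submodule F A) + finrank F (V.map f) = finrank F V := by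
  have h := LinearMap.finrank_range_add_finrank_ker (f.domRestrict V)
  have h1 : LinearMap.range (f.domRestrict V) = V.map f := LinearMap.range_domRestrict V f
  have h2 : (LinearMap.ker (f.domRestrict V)).map V.subtype = V ⊓ LinearMap.ker f := by
    rw [LinearMap.ker_domRestrict]
    ext x
    simp only [Submodule.mem_map, Submodule.mem_inf, LinearMap.mem_ker]
    constructor
    · rintro ⟨y, hy, rfl⟩
      exact ⟨y.2, hy⟩
    · rintro ⟨hx, hx'⟩
      exact ⟨⟨x, hx⟩, hx', rfl⟩
  have h3 : finrank F (V ⊓ LinearMap.ker f : Submodule F A) =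
      finrank F (LinearMap.ker (f.domRestrict V)) := by
    rw [← h2, Submodule.finrank_map_subtype_eq]
  rw [h1] at h
  rw [h3]
  omega

/-- the subspace `y ^ s V` -/
abbrev pw (V : Submodule F A) (y : A) (s : ℕ) : Submodule F A := V.map (mu F (y ^ s))

/-- the annihilator of `y ^ s` in `V` -/
abbrev an (V : Submodule F A) (y : A) (s : ℕ) : Submodule F A := V ⊓ LinearMap.ker (mu F (y ^ s))

theorem pw_zero (V : Submodule F A) (y : A) : pw V y 0 = V := by
  ext x
  simp [pw, mu]

theorem pw_succ (V : Submodule F A) (y : A) (s : ℕ) :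
    (pw V y s).map (mu F y) = pw V y (s + 1) := by
  rw [pw, pw, ← Submodule.map_comp]
  congr 1
  ext x
  simp [mu, pow_succ']

theorem pw_anti (V : Submodule F A) (hV : ∀ a, ∀ v ∈ V, a * v ∈ V) (y : A) (s : ℕ) :
    pw V y (s + 1) ≤ pw V y s := by
  rintro _ ⟨v, hv, rfl⟩
  refine ⟨y * v, hV _ _ hv, ?_⟩
  change y ^ s * (y * v) = y ^ (s + 1) * v
  ring

/-- the number of blocks of size larger than `s` -/
noncomputable def fb (V : Submodule F A) (y : A) (s : ℕ) : ℕ :=
  finrank F (pw V y s ⊓ LinearMap.ker (mu F y) : Submodule F A)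

theorem fb_add [FiniteDimensional F A] (V : Submodule F A) (y : A) (s : ℕ) :
    fb V y s + finrank F (pw V y (s + 1)) = finrank F (pw V y s) := by
  have := rank_null (pw V y s) (mu F y)
  rw [pw_succ] at this
  exact this

theorem fb_anti [FiniteDimensional F A] (V : Submodule F A) (hV : ∀ a, ∀ v ∈ V, a * v ∈ V)
    (y : A) {s t : ℕ} (h : s ≤ t) : fb V y t ≤ fb V y s := by
  induction t, h using Nat.le_induction with
  | base => exact le_rfl
  | succ t _ ih =>
    refine le_trans ?_ ih
    exact Submodule.finrank_mono (inf_le_inf_right _ (pw_anti V hV y t))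

theorem fb_mul [FiniteDimensional F A] (V : Submodule F A) (hV : ∀ a, ∀ v ∈ V, a * v ∈ V)
    (y : A) (s : ℕ) : (s + 1) * fb V y s + finrank F (pw V y (s + 1)) ≤ finrank F V := by
  have key : ∀ k, k ≤ s + 1 → k * fb V y s + finrank F (pw V y k) ≤ finrank F V := by
    intro k
    induction k with
    | zero => intro _; rw [pw_zero]; omega
    | succ k ih =>
      intro hk
      have h1 := ih (by omega)
      have h2 := fb_add V y k
      have h3 := fb_anti V hV y (show k ≤ s by omega)
      have h4 : (k + 1) * fb V y s = k * fb V y s + fb V y s := by ring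
      omega
  exact key (s + 1) le_rfl

theorem an_add [FiniteDimensional F A] (V : Submodule F A) (y : A) (s : ℕ) :
    finrank F (an V y s) + finrank F (pw V y s) = finrank F V := rank_null V _

theorem pw_le [FiniteDimensional F A] (V : Submodule F A) (hV : ∀ a, ∀ v ∈ V, a * v ∈ V)
    (y : A) {s t : ℕ} (h : s ≤ t) : finrank F (pw V y t) ≤ finrank F (pw V y s) := by
  induction t, h using Nat.le_induction with
  | base => exact le_rfl
  | succ t _ ih => exact (Submodule.finrank_mono (pw_anti V hV y t)).trans ih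

theorem an_sup [FiniteDimensional F A] (V : Submodule F A) (hV : ∀ a, ∀ v ∈ V, a * v ∈ V)
    (y : A) (s : ℕ) :
    finrank F (an V y s ⊔ pw V y 1 : Submodule F A) + finrank F (pw V y s) =
      finrank F V + finrank F (pw V y (s + 1)) := by
  have h1 := rank_null (an V y s ⊔ pw V y 1) (mu F (y ^ s))
  have h2 : (an V y s ⊔ pw V y 1).map (mu F (y ^ s)) = pw V y (s + 1) := by
    rw [Submodule.map_sup]
    have h3 : (an V y s).map (mu F (y ^ s)) = ⊥ := by
      rw [eq_bot_iff]
      rintro _ ⟨v, hv, rfl⟩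
      exact hv.2
    rw [h3, bot_sup_eq, pw, pw, ← Submodule.map_comp]
    congr 1
    ext x
    simp [mu, pow_succ]
  have h4 : (an V y s ⊔ pw V y 1) ⊓ LinearMap.ker (mu F (y ^ s)) = an V y s := by
    apply le_antisymm
    · apply inf_le_inf_right
      apply sup_le inf_le_left
      rintro _ ⟨v, hv, rfl⟩
      exact hV _ _ hv
    · exact le_inf le_sup_left inf_le_right
  rw [h2, h4] at h1
  have h5 := an_add V y s
  omega

theorem sup_diff [FiniteDimensional F A] (X X' Y : Submodule F A) (h : X' ≤ X) :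
    finrank F (X ⊔ Y : Submodule F A) + finrank F X' ≤
      finrank F (X' ⊔ Y : Submodule F A) + finrank F X := by
  have h1 := Submodule.finrank_sup_add_finrank_inf_eq X Y
  have h2 := Submodule.finrank_sup_add_finrank_inf_eq X' Y
  have h3 : finrank F (X' ⊓ Y : Submodule F A) ≤ finrank F (X ⊓ Y : Submodule F A) :=
    Submodule.finrank_mono (inf_le_inf_right _ h)
  omega

/-- The bound of `W ∩ Ann(y^p)`. -/
theorem beta [FiniteDimensional F A] (p : ℕ) [hp : Fact p.Prime] [CharP F p]
    (hroot : ∀ a : F, ∃ b, b ^ p = a) (V : Submodule F A) (hV : ∀ a, ∀ v ∈ V, a * v ∈ V) (y : A) :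
    finrank F (phi p V ⊓ LinearMap.ker (mu F (y ^ p)) : Submodule F A) +
      finrank F ((V ⊓ nilK F A p) ⊔ pw V y 1 : Submodule F A) ≤ finrank F V := by
  set K := V ⊓ nilK F A p with hK
  have hKV : ∀ a, ∀ v ∈ K, a * v ∈ K := by
    intro a v hv
    refine ⟨hV a v hv.1, ?_⟩
    change (a * v) ^ p = 0
    have : v ^ p = 0 := hv.2
    rw [mul_pow, this, mul_zero]
  let M : Submodule F A := V ⊓ K.comap (mu F (y ^ 1))
  have h1 : phi p V ⊓ LinearMap.ker (mu F (y ^ p)) ≤ phi p M := by
    rintro w ⟨hw, hw'⟩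
    obtain ⟨x, hx, rfl⟩ := mem_phi p hroot V w hw
    apply Submodule.subset_span
    refine ⟨x, ⟨hx, ?_⟩, rfl⟩
    refine ⟨hV _ _ hx, ?_⟩
    change (y ^ 1 * x) ^ p = 0
    have h2 : y ^ p * x ^ p = 0 := hw'
    rw [pow_one, mul_pow, h2]
  have h2 := Submodule.finrank_mono h1
  have h3 := finrank_phi p hroot M
  have h4 : M ⊓ nilK F A p = K := by
    apply le_antisymm
    · rintro x ⟨hx, hx'⟩
      exact ⟨hx.1, hx'⟩
    · intro x hx
      refine ⟨⟨hx.1, ?_⟩, hx.2⟩
      exact hKV _ _ hx
  rw [h4] at h3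
  have h5 := rank_null M (mu F (y ^ 1))
  have h6 : M ⊓ LinearMap.ker (mu F (y ^ 1)) = an V y 1 := by
    apply le_antisymm
    · rintro x ⟨hx, hx'⟩
      exact ⟨hx.1, hx'⟩
    · rintro x ⟨hx, hx'⟩
      refine ⟨⟨hx, ?_⟩, hx'⟩
      change mu F (y ^ 1) x ∈ K
      rw [LinearMap.mem_ker.mp hx']
      exact K.zero_mem
  have h7 : M.map (mu F (y ^ 1)) = K ⊓ pw V y 1 := by
    apply le_antisymm
    · rintro _ ⟨x, hx, rfl⟩
      exact ⟨hx.2, ⟨x, hx.1, rfl⟩⟩
    · rintro _ ⟨hx, ⟨x, hx', rfl⟩⟩
      exact ⟨x, ⟨hx', hx⟩, rfl⟩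
  rw [h6, h7] at h5
  have h8 := Submodule.finrank_sup_add_finrank_inf_eq K (pw V y 1)
  have h9 := an_add V y 1
  omega

end Pool.Agent.Helper515.EG
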