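import Pool.Agent.Helper515.EGc

set_option autoImplicit false

namespace Pool.Agent.Helper515.EG

open Module

universe u v w

variable {F : Type u} {A : Type v} [Field F] [CommRing A] [Algebra F A]

/-- the constant: `2` times the factor in the inequality -/
def cst (p : ℕ) : ℕ := if p = 3 then 5 else p + 1

theorem beta_le [FiniteDimensional F A] (p : ℕ) [hp : Fact p.Prime] [CharP F p]
    (hroot : ∀ a : F, ∃ b, b ^ p = a) (V : Submodule F A) (hV : ∀ a, ∀ v ∈ V, a * v ∈ V) (y : A)
    (s : ℕ) (h : an V y s ≤ nilK F A p) :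
    finrank F (phi p V ⊓ LinearMap.ker (mu F (y ^ p)) : Submodule F A) ≤ fb V y s := by
  have h1 := beta p hroot V hV y
  have h2 := an_sup V hV y s
  have h3 := fb_add V y s
  have h4 : finrank F (an V y s ⊔ pw V y 1 : Submodule F A) ≤
      finrank F ((V ⊓ nilK F A p) ⊔ pw V y 1 : Submodule F A) :=
    Submodule.finrank_mono (sup_le_sup_right (le_inf inf_le_left h) _)
  omega

theorem beta_le2 [FiniteDimensional F A] (p : ℕ) [hp : Fact p.Prime] [CharP F p]
    (hroot : ∀ a : F, ∃ b, b ^ p = a) (V : Submodule F A) (hV : ∀ a, ∀ v ∈ V, a * v ∈ V) (y : A)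
    (s : ℕ) (h : ∀ x ∈ an V y s, x ^ p ∈ pw V y s ⊓ LinearMap.ker (mu F y)) :
    finrank F (phi p V ⊓ LinearMap.ker (mu F (y ^ p)) : Submodule F A) ≤ 2 * fb V y s := by
  have h1 := beta p hroot V hV y
  have h2 := an_sup V hV y s
  have h3 := fb_add V y s
  have h4 := finrank_phi p hroot (an V y s)
  have h5 : finrank F (phi p (an V y s)) ≤ fb V y s := by
    apply Submodule.finrank_mono
    rw [phi, Submodule.span_le]
    rintro _ ⟨x, hx, rfl⟩
    exact h x hx
  have h6 := sup_diff (an V y s) (an V y s ⊓ nilK F A p) (pw V y 1) inf_le_left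
  have h7 : finrank F ((an V y s ⊓ nilK F A p) ⊔ pw V y 1 : Submodule F A) ≤
      finrank F ((V ⊓ nilK F A p) ⊔ pw V y 1 : Submodule F A) :=
    Submodule.finrank_mono (sup_le_sup_right (inf_le_inf_right _ inf_le_left) _)
  omega

theorem local_ineq [Infinite F] [FiniteDimensional F A] (p : ℕ) [hp : Fact p.Prime] [CharP F p]
    (hroot : ∀ a : F, ∃ b, b ^ p = a) (V : Submodule F A) (hV : ∀ a, ∀ v ∈ V, a * v ∈ V) (y : A)
    (hy : IsGen V p y) :
    cst p * finrank F (phi p V ⊓ LinearMap.ker (mu F (y ^ p)) : Submodule F A) ≤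
      2 * finrank F (an V y p) := by
  set B := finrank F (phi p V ⊓ LinearMap.ker (mu F (y ^ p)) : Submodule F A) with hB
  have hnil : ∀ s, 1 ≤ s → 2 * s + 1 ≤ p → an V y s ≤ nilK F A p := by
    intro s hs hsp x hx
    have h1 := gen_nil V p y hy s (by omega) hs x hx.1 hx.2
    change x ^ p = 0
    obtain ⟨k, hk⟩ := Nat.exists_eq_add_of_le hsp
    rw [hk, pow_add, h1, zero_mul]
  have h0 : B ≤ fb V y 0 := by
    apply beta_le p hroot V hV y 0
    rintro x ⟨_, hx⟩
    have : y ^ 0 * x = 0 := hx
    rw [pow_zero, one_mul] at this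
    rw [this]
    exact Submodule.zero_mem _
  have hD := an_add V y p
  by_cases hp3 : p = 3
  · have h1 : B ≤ fb V y 1 := beta_le p hroot V hV y 1 (hnil 1 le_rfl (by omega))
    have h2A : IsUnit (2 : A) := by
      have h3 : (3 : F) = 0 := by
        have := CharP.cast_eq_zero F p
        rw [hp3] at this
        exact_mod_cast this
      have h4 : (2 : F) ≠ 0 := by
        intro h
        have : (1 : F) = 3 - 2 := by norm_num
        rw [h3, h, sub_zero] at this
        exact one_ne_zero this
      have h5 : IsUnit (algebraMap F A 2) := (isUnit_iff_ne_zero.mpr h4).map _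
      rwa [map_ofNat] at h5
    have h2 : B ≤ 2 * fb V y 2 := by
      apply beta_le2 p hroot V hV y 2
      intro x hx
      obtain ⟨⟨v, hv, hxv⟩, hx3⟩ := gen_second V p y hy (by omega) h2A x hx.1 hx.2
      rw [hp3]
      exact ⟨⟨v, hv, hxv.symm⟩, hx3⟩
    have e0 : fb V y 0 + finrank F (pw V y 1) = finrank F (pw V y 0) := fb_add V y 0
    have e1 : fb V y 1 + finrank F (pw V y 2) = finrank F (pw V y 1) := fb_add V y 1
    have e2 : fb V y 2 + finrank F (pw V y 3) = finrank F (pw V y 2) := fb_add V y 2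
    rw [pw_zero] at e0
    have ha : fb V y 1 ≤ fb V y 0 := fb_anti V hV y (by norm_num)
    rw [cst, if_pos hp3]
    rw [hp3] at hD ⊢
    omega
  · rw [cst, if_neg hp3]
    by_cases hp2 : p = 2
    · have h1 : B ≤ 2 * fb V y 1 := by
        apply beta_le2 p hroot V hV y 1
        intro x hx
        have hx1 : y * x = 0 := by
          have := hx.2
          have h : y ^ 1 * x = 0 := this
          rwa [pow_one] at h
        obtain ⟨v, hv, hxv⟩ := gen_first V p y hy (by omega) x hx.1 x hx.1 hx1
        rw [hp2, pow_two]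
        refine ⟨⟨v, hv, ?_⟩, ?_⟩
        · change y ^ 1 * v = x * x
          rw [pow_one, hxv]
        · change y * (x * x) = 0
          rw [← mul_assoc, hx1, zero_mul]
      have e0 : fb V y 0 + finrank F (pw V y 1) = finrank F (pw V y 0) := fb_add V y 0
      have e1 : fb V y 1 + finrank F (pw V y 2) = finrank F (pw V y 1) := fb_add V y 1
      rw [pw_zero] at e0
      rw [hp2] at hD ⊢
      omega
    · have hp5 : 5 ≤ p := by
        have h2 := hp.out.two_le
        have h4 : p ≠ 4 := by
          intro h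
          have := hp.out
          rw [h] at this
          exact absurd this (by norm_num)
        omega
      obtain ⟨s, hs⟩ : ∃ s, p = 2 * s + 1 := by
        rcases hp.out.eq_two_or_odd' with h | h
        · exact absurd h hp2
        · exact h
      have h1 : B ≤ fb V y s := beta_le p hroot V hV y s (hnil s (by omega) (by omega))
      have h2 := fb_mul V hV y s
      have h3 := pw_le V hV y (show s + 1 ≤ p by omega)
      have h4 : (p + 1) * B = 2 * ((s + 1) * B) := by rw [hs]; ring
      have h5 : (s + 1) * B ≤ (s + 1) * fb V y s := Nat.mul_le_mul_left _ h1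
      omega

theorem rank_null' {M N : Type*} [AddCommGroup M] [Module F M] [AddCommGroup N] [Module F N]
    [FiniteDimensional F M] (V : Submodule F M) (f : M →ₗ[F] N) :
    finrank F (V ⊓ LinearMap.ker f : Submodule F M) + finrank F (V.map f) = finrank F V := by
  have h := LinearMap.finrank_range_add_finrank_ker (f.domRestrict V)
  have h1 : LinearMap.range (f.domRestrict V) = V.map f := LinearMap.range_domRestrict V f
  have h2 : (LinearMap.ker (f.domRestrict V)).map V.subtype = V ⊓ LinearMap.ker f := by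
    rw [LinearMap.ker_domRestrict]
    ext x
    simp only [Submodule.mem_map, Submodule.mem_inf, LinearMap.mem_ker]
    constructor
    · rintro ⟨y, hy, rfl⟩
      exact ⟨y.2, hy⟩
    · rintro ⟨hx, hx'⟩
      exact ⟨⟨x, hx⟩, hx', rfl⟩
  have h3 : finrank F (V ⊓ LinearMap.ker f : Submodule F M) =
      finrank F (LinearMap.ker (f.domRestrict V)) := by
    rw [← h2, Submodule.finrank_map_subtype_eq]
  rw [h1] at h
  rw [h3]
  omega

theorem phi_le (p : ℕ) [hp : Fact p.Prime] (R : Ideal A) :
    phi p (R.restrictScalars F) ≤ R.restrictScalars F := by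
  rw [phi, Submodule.span_le]
  rintro _ ⟨x, hx, rfl⟩
  exact R.pow_mem_of_mem hx p hp.out.pos

theorem main_aux (F : Type u) [Field F] [Infinite F] (p : ℕ) [hp : Fact p.Prime] [CharP F p]
    (hroot : ∀ a : F, ∃ b, b ^ p = a) :
    ∀ n : ℕ, ∀ (A : Type v) [CommRing A] [Algebra F A] [FiniteDimensional F A] (R : Ideal A),
      IsNilpotent R → finrank F (R.restrictScalars F) = n →
      cst p * finrank F (phi p (R.restrictScalars F)) ≤ 2 * n := by
  intro n
  induction n using Nat.strong_induction_on with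
  | _ n ih =>
  intro A _ _ _ R hR hn
  by_cases hn0 : n = 0
  · have h1 := Submodule.finrank_mono (phi_le (F := F) p R)
    rw [hn, hn0] at h1
    have h2 : finrank F (phi p (R.restrictScalars F)) = 0 := by omega
    rw [h2, mul_zero]
    exact Nat.zero_le _
  set V : Submodule F A := R.restrictScalars F with hVdef
  have hV : ∀ a, ∀ v ∈ V, a * v ∈ V := fun a v hv => R.mul_mem_left a hv
  obtain ⟨y, hy⟩ := exists_gen V p
  let I : Ideal A := R ⊓ LinearMap.ker (LinearMap.mulLeft A (y ^ p))
  have hI : I.restrictScalars F = an V y p := by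
    ext x
    exact Iff.rfl
  -- nonzero
  have hRne : R ≠ ⊥ := by
    intro h
    apply hn0
    rw [← hn, hVdef, h, Submodule.restrictScalars_bot]
    exact finrank_bot F A
  have hIne : I ≠ ⊥ := by
    classical
    have hex : ∃ k, R ^ k = ⊥ := hR
    let k := Nat.find hex
    have hk : R ^ k = ⊥ := Nat.find_spec hex
    have hk0 : k ≠ 0 := by
      intro h
      rw [h, pow_zero, Ideal.one_eq_top] at hk
      apply hRne
      have : (⊤ : Ideal A) = ⊥ := hk
      rw [eq_bot_iff, ← this]
      exact le_top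
    have hk1 : k ≠ 1 := by
      intro h
      rw [h, pow_one] at hk
      exact hRne hk
    have hpred : R ^ (k - 1) ≠ ⊥ := Nat.find_min hex (show k - 1 < k by omega)
    obtain ⟨x, hx, hx0⟩ := Submodule.exists_mem_ne_zero_of_ne_bot hpred
    have hxI : x ∈ I := by
      refine ⟨Ideal.pow_le_self (by omega) hx, ?_⟩
      change y ^ p * x = 0
      have h1 : y * x ∈ R ^ k := by
        have : k = 1 + (k - 1) := by omega
        rw [this, pow_add, pow_one]
        exact Ideal.mul_mem_mul hy.1 hx
      rw [hk, Submodule.mem_bot] at h1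
      obtain ⟨m, hm⟩ := Nat.exists_eq_add_of_le hp.out.one_le
      rw [hm, pow_add, pow_one, mul_right_comm, h1, zero_mul]
    intro h
    rw [h, Submodule.mem_bot] at hxI
    exact hx0 hxI
  have hIpos : 0 < finrank F (an V y p) := by
    rw [← hI]
    rw [Module.finrank_pos_iff]
    obtain ⟨x, hx, hx0⟩ := Submodule.exists_mem_ne_zero_of_ne_bot hIne
    exact ⟨⟨x, hx⟩, 0, fun h => hx0 (congrArg Subtype.val h)⟩
  -- the quotient
  let q : A →ₗ[F] (A ⧸ I) := (Ideal.Quotient.mkₐ F I).toLinearMap
  have hkerq : LinearMap.ker q = I.restrictScalars F := by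
    ext x
    exact Ideal.Quotient.eq_zero_iff_mem
  let R' : Ideal (A ⧸ I) := R.map (Ideal.Quotient.mk I)
  have hR' : R'.restrictScalars F = V.map q := by
    ext x
    constructor
    · intro hx
      obtain ⟨r, hr, hrx⟩ := (Ideal.mem_map_iff_of_surjective _ Ideal.Quotient.mk_surjective).mp hx
      exact ⟨r, hr, hrx⟩
    · rintro ⟨r, hr, rfl⟩
      exact Ideal.mem_map_of_mem _ hr
  have hphi : phi p (V.map q) = (phi p V).map q := by
    rw [phi, phi, Submodule.map_span]
    congr 1
    ext x
    constructor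
    · rintro ⟨_, ⟨v, hv, rfl⟩, rfl⟩
      exact ⟨v ^ p, ⟨v, hv, rfl⟩, map_pow (Ideal.Quotient.mkₐ F I) v p⟩
    · rintro ⟨_, ⟨v, hv, rfl⟩, rfl⟩
      exact ⟨q v, ⟨v, hv, rfl⟩, (map_pow (Ideal.Quotient.mkₐ F I) v p).symm⟩
  have hnil' : IsNilpotent R' := by
    obtain ⟨k, hk⟩ := hR
    refine ⟨k, ?_⟩
    change (R.map (Ideal.Quotient.mk I)) ^ k = 0
    rw [← Ideal.map_pow, hk]
    exact Ideal.map_bot
  have e1 := rank_null' V q
  have e2 := rank_null' (phi p V) q
  have e3 : V ⊓ LinearMap.ker q = an V y p := by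
    rw [hkerq, hI]
    exact inf_eq_right.mpr inf_le_left
  have e4 : phi p V ⊓ LinearMap.ker q = phi p V ⊓ LinearMap.ker (mu F (y ^ p)) := by
    rw [hkerq, hI]
    apply le_antisymm
    · exact inf_le_inf_left _ inf_le_right
    · rintro x ⟨hx, hx'⟩
      exact ⟨hx, phi_le p R hx, hx'⟩
  rw [e3] at e1
  rw [e4] at e2
  have e5 := local_ineq p hroot V hV y hy
  have e6 := ih (finrank F (V.map q)) (by omega) (A ⧸ I) R' hnil' (by rw [hR'])
  rw [hR', hphi] at e6
  have e7 : cst p * finrank F (phi p V) =
      cst p * finrank F (phi p V ⊓ LinearMap.ker (mu F (y ^ p)) : Submodule F A) +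
        cst p * finrank F ((phi p V).map q) := by
    rw [← mul_add, e2]
  omega

end Pool.Agent.Helper515.EG
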