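import Pool.Agent.Helper515.EGd

set_option autoImplicit false

namespace Pool.Agent.Helper515.EG

open Module
open scoped TensorProduct

universe u v w

section BaseChange

variable (F : Type u) [Field F] (L : Type w) [Field L] [Algebra F L]
  (A : Type v) [CommRing A] [Algebra F A]

/-- the base change of an ideal -/
def bc (R : Ideal A) : Ideal (L ⊗[F] A) :=
  R.map (Algebra.TensorProduct.includeRight : A →ₐ[F] L ⊗[F] A)

variable {A}

theorem one_tmul_mem (R : Ideal A) (r : A) (hr : r ∈ R) : (1 : L) ⊗ₜ[F] r ∈ bc F L A R :=
  Ideal.mem_map_of_mem _ hr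

theorem bc_le (R : Ideal A) : (bc F L A R).restrictScalars L ≤
    LinearMap.range (LinearMap.baseChange L (R.restrictScalars F).subtype) := by
  set g := LinearMap.baseChange L (R.restrictScalars F).subtype with hg
  have hmul : ∀ b : L ⊗[F] A, ∀ t : L ⊗[F] (R.restrictScalars F : Submodule F A),
      b * g t ∈ LinearMap.range g := by
    intro b t
    induction b using TensorProduct.induction_on with
    | zero => rw [zero_mul]; exact Submodule.zero_mem _
    | add x y hx hy => rw [add_mul]; exact Submodule.add_mem _ hx hy
    | tmul l a =>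
      induction t using TensorProduct.induction_on with
      | zero => rw [map_zero, mul_zero]; exact Submodule.zero_mem _
      | add x y hx hy => rw [map_add, mul_add]; exact Submodule.add_mem _ hx hy
      | tmul l' r =>
        refine ⟨(l * l') ⊗ₜ ⟨a * r.1, R.mul_mem_left a r.2⟩, ?_⟩
        rw [hg, LinearMap.baseChange_tmul, LinearMap.baseChange_tmul,
          Algebra.TensorProduct.tmul_mul_tmul]
        rfl
  have key : ∀ x ∈ Ideal.span ((Algebra.TensorProduct.includeRight : A →ₐ[F] L ⊗[F] A) '' R),
      x ∈ LinearMap.range g := by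
    intro x hx
    induction hx using Submodule.span_induction with
    | mem x hx =>
      obtain ⟨r, hr, rfl⟩ := hx
      exact ⟨1 ⊗ₜ ⟨r, hr⟩, rfl⟩
    | zero => exact Submodule.zero_mem _
    | add a b _ _ iha ihb => exact Submodule.add_mem _ iha ihb
    | smul b a _ iha =>
      obtain ⟨t, ht⟩ := iha
      rw [← ht]
      exact hmul b t
  intro x hx
  exact key x hx

theorem bc_finrank_le [FiniteDimensional F A] (R : Ideal A) :
    finrank L ((bc F L A R).restrictScalars L) ≤ finrank F (R.restrictScalars F) := by
  calc finrank L ((bc F L A R).restrictScalars L) ≤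
      finrank L (LinearMap.range (LinearMap.baseChange L (R.restrictScalars F).subtype)) :=
        Submodule.finrank_mono (bc_le F L R)
    _ ≤ finrank L (L ⊗[F] (R.restrictScalars F : Submodule F A)) := LinearMap.finrank_range_le _
    _ = finrank F (R.restrictScalars F) := finrank_baseChange

theorem phi_bc_le [FiniteDimensional F A] (p : ℕ) (R : Ideal A) :
    finrank F (phi p (R.restrictScalars F)) ≤
      finrank L (phi p ((bc F L A R).restrictScalars L)) := by
  set W := phi p (R.restrictScalars F) with hW
  set h := LinearMap.baseChange L W.subtype with hh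
  have hinj : Function.Injective h := by
    have := Module.Flat.lTensor_preserves_injective_linearMap (M := L) W.subtype
      (Submodule.injective_subtype W)
    exact this
  have hone : ∀ w ∈ W, (1 : L) ⊗ₜ[F] w ∈ phi p ((bc F L A R).restrictScalars L) := by
    intro w hw
    rw [hW, phi] at hw
    induction hw using Submodule.span_induction with
    | mem x hx =>
      obtain ⟨y, hy, rfl⟩ := hx
      apply Submodule.subset_span
      refine ⟨(1 : L) ⊗ₜ[F] y, one_tmul_mem F L R y hy, ?_⟩
      change ((1 : L) ⊗ₜ[F] y) ^ p = (1 : L) ⊗ₜ[F] (y ^ p)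
      rw [Algebra.TensorProduct.tmul_pow, one_pow]
    | zero => rw [TensorProduct.tmul_zero]; exact Submodule.zero_mem _
    | add a b _ _ ha hb => rw [TensorProduct.tmul_add]; exact Submodule.add_mem _ ha hb
    | smul c a _ ha =>
      have : (1 : L) ⊗ₜ[F] (c • a) = (algebraMap F L c) • ((1 : L) ⊗ₜ[F] a) := by
        rw [TensorProduct.tmul_smul, ← algebraMap_smul L c]
      rw [this]
      exact Submodule.smul_mem _ _ ha
  have hrange : LinearMap.range h ≤ phi p ((bc F L A R).restrictScalars L) := by
    rintro _ ⟨t, rfl⟩
    induction t using TensorProduct.induction_on with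
    | zero => rw [map_zero]; exact Submodule.zero_mem _
    | add x y hx hy => rw [map_add]; exact Submodule.add_mem _ hx hy
    | tmul l w =>
      have : h (l ⊗ₜ w) = l • ((1 : L) ⊗ₜ[F] (w : A)) := by
        rw [hh, LinearMap.baseChange_tmul, TensorProduct.smul_tmul', smul_eq_mul, mul_one]
        rfl
      rw [this]
      exact Submodule.smul_mem _ _ (hone _ w.2)
  calc finrank F W = finrank L (L ⊗[F] W) := finrank_baseChange.symm
    _ = finrank L (LinearMap.range h) := (LinearMap.finrank_range_of_inj hinj).symm
    _ ≤ _ := Submodule.finrank_mono hrange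

end BaseChange

/-- The inequality for nilpotent ideals of commutative algebras over arbitrary fields. -/
theorem main_unital (F : Type u) [Field F] (p : ℕ) [hp : Fact p.Prime] [CharP F p]
    (A : Type v) [CommRing A] [Algebra F A] [FiniteDimensional F A] (R : Ideal A)
    (hR : IsNilpotent R) :
    cst p * finrank F (phi p (R.restrictScalars F)) ≤ 2 * finrank F (R.restrictScalars F) := by
  let L := AlgebraicClosure F
  have : CharP L p := charP_of_injective_algebraMap (algebraMap F L).injective p
  have : Infinite L := IsAlgClosed.instInfinite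
  have hroot : ∀ a : L, ∃ b, b ^ p = a := fun a => IsAlgClosed.exists_pow_nat_eq a hp.out.pos
  have hnil : IsNilpotent (bc F L A R) := by
    obtain ⟨k, hk⟩ := hR
    refine ⟨k, ?_⟩
    change (R.map (Algebra.TensorProduct.includeRight : A →ₐ[F] L ⊗[F] A)) ^ k = 0
    rw [← Ideal.map_pow, hk]
    exact Ideal.map_bot
  have h1 := main_aux L p hroot _ (L ⊗[F] A) (bc F L A R) hnil rfl
  have h2 := bc_finrank_le F L R
  have h3 := phi_bc_le F L p R
  calc cst p * finrank F (phi p (R.restrictScalars F)) ≤
      cst p * finrank L (phi p ((bc F L A R).restrictScalars L)) := Nat.mul_le_mul_left _ h3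
    _ ≤ _ := h1
    _ ≤ _ := Nat.mul_le_mul_left _ h2

end Pool.Agent.Helper515.EG
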