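import Pool.Agent.Helper515.PrimDefs

set_option autoImplicit false

namespace PrimVar

theorem map_lift {α G H : Type} [Group G] [Group H] (f : G →* H) (a : α → G) (w : FreeGroup α) :
    f (FreeGroup.lift a w) = FreeGroup.lift (fun i => f (a i)) w := by
  have : f.comp (FreeGroup.lift a) = FreeGroup.lift (fun i => f (a i)) := by
    ext i; simp
  rw [← this]; rfl

theorem QuasiIdentity.Holds.of_injective {q : QuasiIdentity} {G H : Type} [Group G] [Group H]
    (hq : q.Holds H) (f : G →* H) (hf : Function.Injective f) : q.Holds G := by
  intro a ha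
  apply hf
  rw [map_lift, map_one]
  apply hq
  intro u hu
  rw [← map_lift, ha u hu, map_one]

theorem QuasiIdentity.Holds.pi {q : QuasiIdentity} {ι : Type} {G : ι → Type} [∀ i, Group (G i)]
    (hq : ∀ i, q.Holds (G i)) : q.Holds (∀ i, G i) := by
  intro a ha
  funext i
  have h1 := map_lift (Pi.evalMonoidHom G i) a q.conclusion
  simp only [Pi.evalMonoidHom_apply] at h1
  rw [h1, Pi.one_apply]
  apply hq i
  intro u hu
  have h2 := map_lift (Pi.evalMonoidHom G i) a u
  simp only [Pi.evalMonoidHom_apply] at h2
  rw [← h2, ha u hu, Pi.one_apply]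

theorem QuasiIdentity.Holds.prod {q : QuasiIdentity} {G H : Type} [Group G] [Group H]
    (hG : q.Holds G) (hH : q.Holds H) : q.Holds (G × H) := by
  intro a ha
  have h1 := map_lift (MonoidHom.fst G H) a q.conclusion
  have h2 := map_lift (MonoidHom.snd G H) a q.conclusion
  apply Prod.ext
  · change (MonoidHom.fst G H) _ = 1
    rw [h1]
    apply hG
    intro u hu
    rw [← map_lift (MonoidHom.fst G H) a u, ha u hu, map_one]
  · change (MonoidHom.snd G H) _ = 1
    rw [h2]
    apply hH
    intro u hu
    rw [← map_lift (MonoidHom.snd G H) a u, ha u hu, map_one]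

theorem Identity.Holds.of_injective {e : Identity} {G H : Type} [Group G] [Group H]
    (he : e.Holds H) (f : G →* H) (hf : Function.Injective f) : e.Holds G := by
  intro a
  apply hf
  rw [map_lift, map_one]
  apply he

theorem Identity.Holds.of_surjective {e : Identity} {G H : Type} [Group G] [Group H]
    (he : e.Holds G) (f : G →* H) (hf : Function.Surjective f) : e.Holds H := by
  intro a
  choose b hb using fun i => hf (a i)
  have : FreeGroup.lift a e.word = f (FreeGroup.lift b e.word) := by
    rw [map_lift]; congr 2; funext i; exact (hb i).symm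
  rw [this, he b, map_one]

theorem Identity.Holds.pi {e : Identity} {ι : Type} {G : ι → Type} [∀ i, Group (G i)]
    (he : ∀ i, e.Holds (G i)) : e.Holds (∀ i, G i) := by
  intro a
  funext i
  have h1 := map_lift (Pi.evalMonoidHom G i) a e.word
  simp only [Pi.evalMonoidHom_apply] at h1
  rw [h1, Pi.one_apply]
  exact he i _

theorem Identity.Holds.prod {e : Identity} {G H : Type} [Group G] [Group H]
    (hG : e.Holds G) (hH : e.Holds H) : e.Holds (G × H) := by
  intro a
  apply Prod.ext
  · change (MonoidHom.fst G H) _ = 1
    rw [map_lift (MonoidHom.fst G H) a e.word]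
    exact hG _
  · change (MonoidHom.snd G H) _ = 1
    rw [map_lift (MonoidHom.snd G H) a e.word]
    exact hH _

theorem InQuasivariety.of_injective {Q : Set QuasiIdentity} {G H : Type} [Group G] [Group H]
    (h : InQuasivariety Q H) (f : G →* H) (hf : Function.Injective f) : InQuasivariety Q G :=
  fun q hq => (h q hq).of_injective f hf

theorem InQuasivariety.prod {Q : Set QuasiIdentity} {G H : Type} [Group G] [Group H]
    (hG : InQuasivariety Q G) (hH : InQuasivariety Q H) : InQuasivariety Q (G × H) :=
  fun q hq => (hG q hq).prod (hH q hq)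

theorem InVariety.of_injective {W : Set Identity} {G H : Type} [Group G] [Group H]
    (h : InVariety W H) (f : G →* H) (hf : Function.Injective f) : InVariety W G :=
  fun e he => (h e he).of_injective f hf

theorem InVariety.subgroup {W : Set Identity} {G : Type} [Group G]
    (h : InVariety W G) (K : Subgroup G) : InVariety W K :=
  h.of_injective K.subtype K.subtype_injective

theorem InVariety.of_surjective {W : Set Identity} {G H : Type} [Group G] [Group H]
    (h : InVariety W G) (f : G →* H) (hf : Function.Surjective f) : InVariety W H :=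
  fun e he => (h e he).of_surjective f hf

theorem InVariety.quotient {W : Set Identity} {G : Type} [Group G]
    (h : InVariety W G) (N : Subgroup G) [N.Normal] : InVariety W (G ⧸ N) :=
  h.of_surjective (QuotientGroup.mk' N) (QuotientGroup.mk'_surjective N)

theorem InVariety.pi {W : Set Identity} {ι : Type} {G : ι → Type} [∀ i, Group (G i)]
    (h : ∀ i, InVariety W (G i)) : InVariety W (∀ i, G i) :=
  fun e he => Identity.Holds.pi fun i => h i e he

theorem InVariety.prod {W : Set Identity} {G H : Type} [Group G] [Group H]
    (hG : InVariety W G) (hH : InVariety W H) : InVariety W (G × H) :=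
  fun e he => (hG e he).prod (hH e he)

/-- closed under homomorphic images -/
def ImageClosed (Q : Set QuasiIdentity) : Prop :=
  ∀ (G H : Type) [Group G] [Group H] (f : G →* H), Function.Surjective f →
    InQuasivariety Q G → InQuasivariety Q H

/-- Birkhoff: a quasivariety closed under images is a variety. -/
theorem variety_of_imageClosed (Q : Set QuasiIdentity) (hQ : ImageClosed Q) :
    ∃ W' : Set Identity, ∀ (G : Type) [Group G], InQuasivariety Q G ↔ InVariety W' G := by
  refine ⟨{e | ∀ (A : Type) [Group A], InQuasivariety Q A → e.Holds A}, fun G _ => ⟨?_, ?_⟩⟩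
  · intro hG e he
    exact he G hG
  · intro hG q hq a ha
    -- the relatively free group
    let F := FreeGroup (Fin q.n)
    let I : Subgroup F :=
      { carrier := {w | ∀ (A : Type) [Group A], InQuasivariety Q A →
          ∀ b : Fin q.n → A, FreeGroup.lift b w = 1}
        one_mem' := by intro A _ _ b; exact map_one _
        mul_mem' := by
          intro x y hx hy A _ hA b
          rw [map_mul, hx A hA b, hy A hA b, one_mul]
        inv_mem' := by
          intro x hx A _ hA b
          rw [map_inv, hx A hA b, inv_one] }
    have hmemI : ∀ w : F, w ∈ I ↔ ∀ (A : Type) [Group A], InQuasivariety Q A →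
          ∀ b : Fin q.n → A, FreeGroup.lift b w = 1 := fun w => Iff.rfl
    have hIn : I.Normal := by
      constructor
      intro n hn g
      rw [hmemI] at hn ⊢
      intro A _ hA b
      rw [map_mul, map_mul, hn A hA b, map_inv, mul_one, mul_inv_cancel]
    have hFI : InQuasivariety Q (F ⧸ I) := by
      intro q' hq' c hc
      choose c' hc' using fun i => QuotientGroup.mk'_surjective I (c i)
      have key : ∀ w : FreeGroup (Fin q'.n),
          FreeGroup.lift c w = QuotientGroup.mk' I (FreeGroup.lift c' w) := by
        intro w
        rw [map_lift]; congr 2; funext i; exact (hc' i).symm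
      rw [key, QuotientGroup.mk'_apply, QuotientGroup.eq_one_iff, hmemI]
      intro A _ hA b
      rw [map_lift]
      apply hA q' hq'
      intro u hu
      have h1 := hc u hu
      rw [key, QuotientGroup.mk'_apply, QuotientGroup.eq_one_iff, hmemI] at h1
      rw [← map_lift]
      exact h1 A hA b
    have hker : ∀ w ∈ I, FreeGroup.lift a w = 1 := by
      intro w hw
      exact hG ⟨q.n, w⟩ (fun A _ hA b => hw A hA b) a
    let φ : F ⧸ I →* G := QuotientGroup.lift I (FreeGroup.lift a) hker
    have hH1 : InQuasivariety Q φ.range :=
      hQ (F ⧸ I) φ.range φ.rangeRestrict φ.rangeRestrict_surjective hFI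
    let a' : Fin q.n → φ.range := fun i => ⟨a i, ⟨QuotientGroup.mk' I (FreeGroup.of i), by
      change FreeGroup.lift a (FreeGroup.of i) = a i
      simp⟩⟩
    have key2 : ∀ w : FreeGroup (Fin q.n), ((FreeGroup.lift a' w : φ.range) : G)
        = FreeGroup.lift a w := by
      intro w
      have := map_lift φ.range.subtype a' w
      simpa using this
    have h3 := hH1 q hq a' (by
      intro u hu
      apply Subtype.ext
      rw [key2, ha u hu]; rfl)
    rw [← key2, h3]; rfl

theorem isPrimitive_iff (W : Set Identity) : IsPrimitive W ↔
    ∀ Q : Set QuasiIdentity, (∀ (G : Type) [Group G], InQuasivariety Q G → InVariety W G) →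
      ImageClosed Q := by
  constructor
  · intro h Q hQ G H _ _ f hf hG
    obtain ⟨W', hW'⟩ := h Q hQ
    exact (hW' H).2 (((hW' G).1 hG).of_surjective f hf)
  · intro h Q hQ
    exact variety_of_imageClosed Q (h Q hQ)

/-- the quasi-identities of a group -/
def theoryOf (F : Type) [Group F] : Set QuasiIdentity := {q | q.Holds F}

theorem mem_theoryOf_self (F : Type) [Group F] : InQuasivariety (theoryOf F) F :=
  fun _ hq => hq

theorem theoryOf_le {W : Set Identity} {F : Type} [Group F] (hF : InVariety W F)
    (G : Type) [Group G] (hG : InQuasivariety (theoryOf F) G) : InVariety W G := by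
  intro e he a
  have : (⟨e.n, [], e.word⟩ : QuasiIdentity) ∈ theoryOf F := fun b _ => hF e he b
  exact hG _ this a (by simp)

/-- Subdirectly irreducible groups. -/
def SI (G : Type) [Group G] : Prop :=
  ∃ m : G, m ≠ 1 ∧ ∀ A : Subgroup G, A.Normal → A ≠ ⊥ → m ∈ A

theorem SI.injective {G H : Type} [Group G] [Group H] {m : G}
    (hm : ∀ A : Subgroup G, A.Normal → A ≠ ⊥ → m ∈ A) (f : G →* H) (hf : f m ≠ 1) :
    Function.Injective f := by
  rw [← MonoidHom.ker_eq_bot_iff]
  by_contra h
  exact hf (hm f.ker inferInstance h)

/-- A finite subdirectly irreducible group satisfying the quasi-identities of `F` embeds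
in `F`. -/
theorem exists_injective_of_theory {F S : Type} [Group F] [Group S] [Finite S]
    (hS : SI S) (h : InQuasivariety (theoryOf F) S) :
    ∃ f : S →* F, Function.Injective f := by
  obtain ⟨m, hm1, hm⟩ := hS
  classical
  have := Fintype.ofFinite S
  let e : S ≃ Fin (Fintype.card S) := Fintype.equivFin S
  let x : S → FreeGroup (Fin (Fintype.card S)) := fun s => FreeGroup.of (e s)
  let q : QuasiIdentity := ⟨Fintype.card S,
    (Finset.univ : Finset (S × S)).toList.map (fun p => x p.1 * x p.2 * (x (p.1 * p.2))⁻¹), x m⟩
  have hnot : ¬ q.Holds S := by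
    intro hq
    have := hq (fun i => e.symm i) (by
      intro u hu
      simp only [q, List.mem_map, Finset.mem_toList, Finset.mem_univ, true_and] at hu
      obtain ⟨p, rfl⟩ := hu
      simp [x])
    apply hm1
    simpa [q, x] using this
  have hnotF : ¬ q.Holds F := fun hq => hnot (h q hq)
  unfold QuasiIdentity.Holds at hnotF
  push Not at hnotF
  obtain ⟨a, ha, hc⟩ := hnotF
  have hmul : ∀ s t : S, a (e (s * t)) = a (e s) * a (e t) := by
    intro s t
    have := ha (x s * x t * (x (s * t))⁻¹) (by
      simp only [q, List.mem_map, Finset.mem_toList, Finset.mem_univ, true_and]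
      exact ⟨(s, t), rfl⟩)
    simp only [x, map_mul, map_inv, FreeGroup.lift_apply_of] at this
    exact (mul_inv_eq_one.1 this).symm
  let f : S →* F := MonoidHom.mk' (fun s => a (e s)) hmul
  refine ⟨f, SI.injective hm f ?_⟩
  change a (e m) ≠ 1
  simpa [q, x] using hc

/-- In a primitive variety, finite subdirectly irreducible images of products of copies of `F`
embed in `F`. -/
theorem embed_of_primitive {W : Set Identity} (hW : IsPrimitive W) {F F' S : Type} [Group F]
    [Group F'] [Group S] [Finite S] (hF : InVariety W F) (hF' : InQuasivariety (theoryOf F) F')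
    (g : F' →* S) (hg : Function.Surjective g) (hS : SI S) :
    ∃ f : S →* F, Function.Injective f := by
  rw [isPrimitive_iff] at hW
  exact exists_injective_of_theory hS (hW (theoryOf F) (fun G _ hG => theoryOf_le hF G hG)
    F' S g hg hF')

/-- A primitive variety has finite exponent. -/
theorem finite_exponent {W : Set Identity} (hW : IsPrimitive W) :
    ∃ n : ℕ, 0 < n ∧ ∀ (G : Type) [Group G], InVariety W G → ∀ g : G, g ^ n = 1 := by
  by_contra hcon
  push Not at hcon
  choose G instG hG g hg using fun n : ℕ => hcon (n + 1) (Nat.succ_pos n)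
  let P := ∀ n, G n
  have hP : InVariety W P := InVariety.pi hG
  let x : P := fun n => g n
  have hx : ∀ k : ℕ, 0 < k → x ^ k ≠ 1 := by
    intro k hk h
    obtain ⟨j, rfl⟩ : ∃ j, k = j + 1 := ⟨k - 1, by omega⟩
    have := congrFun h j
    exact hg j this
  let f : Multiplicative ℤ →* P := zpowersHom P x
  have hf : Function.Injective f := by
    rw [← MonoidHom.ker_eq_bot_iff, eq_bot_iff]
    intro z hz
    rw [MonoidHom.mem_ker] at hz
    rw [Subgroup.mem_bot]
    have hz' : x ^ (Multiplicative.toAdd z) = 1 := hz
    by_contra hne
    have hne' : Multiplicative.toAdd z ≠ 0 := fun h => hne (by simpa using h)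
    have h4 : x ^ (Multiplicative.toAdd z).natAbs = 1 := by
      rcases Int.natAbs_eq (Multiplicative.toAdd z) with h5 | h5
      · rw [h5] at hz'; simpa using hz'
      · rw [h5] at hz'; simpa using hz'
    exact hx _ (Int.natAbs_pos.2 hne') h4
  have hZ : InVariety W (Multiplicative ℤ) := hP.of_injective f hf
  rw [isPrimitive_iff] at hW
  have h2 := hW (theoryOf (Multiplicative ℤ)) (fun G _ hG => theoryOf_le hZ G hG)
    (Multiplicative ℤ) (Multiplicative (ZMod 2))
    (AddMonoidHom.toMultiplicative (Int.castAddHom (ZMod 2))) (by
      intro y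
      obtain ⟨z, hz⟩ := ZMod.intCast_surjective (Multiplicative.toAdd y)
      exact ⟨Multiplicative.ofAdd z, by
        change Multiplicative.ofAdd ((z : ZMod 2)) = y
        rw [hz]; rfl⟩) (mem_theoryOf_self _)
  -- the quasi-identity x^2 = 1 → x = 1
  let q : QuasiIdentity := ⟨1, [FreeGroup.of 0 ^ 2], FreeGroup.of 0⟩
  have hq : q ∈ theoryOf (Multiplicative ℤ) := by
    intro a ha
    have h3 := ha (FreeGroup.of 0 ^ 2) (by simp [q])
    simp only [map_pow, FreeGroup.lift_apply_of] at h3
    simp only [q, FreeGroup.lift_apply_of]
    have h4 : (2 : ℤ) * Multiplicative.toAdd (a 0) = 0 := by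
      have := congrArg Multiplicative.toAdd h3
      simpa using this
    have h5 : Multiplicative.toAdd (a 0) = 0 := by omega
    exact Multiplicative.toAdd.injective h5
  have h6 := h2 q hq (fun _ => Multiplicative.ofAdd (1 : ZMod 2)) (by
    intro u hu
    simp only [q, List.mem_singleton] at hu
    subst hu
    simp only [map_pow, FreeGroup.lift_apply_of]
    decide)
  simp only [q, FreeGroup.lift_apply_of] at h6
  revert h6
  decide

end PrimVar
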