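import Pool.Agent.Helper515.PrimA

set_option autoImplicit false

namespace PrimVar

open Subgroup
open scoped commutatorElement

section general

variable {X : Type} [Group X] [Finite X]

/-- maximal normal subgroups avoiding an element give subdirectly irreducible quotients -/
theorem exists_SI_quotient (D : Subgroup X) [hD : D.Normal] (c : X) (hc : c ∉ D) :
    ∃ (N : Subgroup X) (_ : N.Normal), D ≤ N ∧ c ∉ N ∧
      ∀ A : Subgroup (X ⧸ N), A.Normal → A ≠ ⊥ → (QuotientGroup.mk' N c) ∈ A := by
  let S : Set (Subgroup X) := {N | N.Normal ∧ D ≤ N ∧ c ∉ N}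
  obtain ⟨N, hN⟩ := (Set.toFinite S).exists_maximal ⟨D, hD, le_rfl, hc⟩
  obtain ⟨hNn, hDN, hcN⟩ := hN.1
  refine ⟨N, hNn, hDN, hcN, ?_⟩
  intro A hA hAb
  by_contra hcA
  have h1 : N ≤ A.comap (QuotientGroup.mk' N) := by
    intro x hx
    rw [Subgroup.mem_comap]
    have : QuotientGroup.mk' N x = 1 := by
      rw [QuotientGroup.mk'_apply, QuotientGroup.eq_one_iff]; exact hx
    rw [this]; exact A.one_mem
  have h2 : A.comap (QuotientGroup.mk' N) ∈ S :=
    ⟨hA.comap _, hDN.trans h1, fun h => hcA h⟩
  have h3 := hN.2 h2 h1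
  apply hAb
  rw [eq_bot_iff]
  intro y hy
  obtain ⟨x, rfl⟩ := QuotientGroup.mk'_surjective N y
  have : x ∈ N := h3 hy
  rw [Subgroup.mem_bot, QuotientGroup.mk'_apply, QuotientGroup.eq_one_iff]
  exact this

/-- a finite abelian group of order divisible by `p` has a subgroup of index `p` -/
theorem exists_index_prime {A : Type} [CommGroup A] [Finite A] {p : ℕ} (hp : p.Prime)
    (h : p ∣ Nat.card A) : ∃ M : Subgroup A, M.index = p := by
  have := Fact.mk hp
  obtain ⟨a, ha⟩ := exists_prime_orderOf_dvd_card' p h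
  let R : Subgroup A := (powMonoidHom p : A →* A).range
  have hR : R ≠ ⊤ := by
    intro hR
    have hsurj : Function.Surjective (powMonoidHom p : A →* A) :=
      MonoidHom.range_eq_top.1 hR
    have hinj := Finite.injective_iff_surjective.2 hsurj
    have : a = 1 := hinj (by
      change a ^ p = 1 ^ p
      rw [one_pow, ← ha, pow_orderOf_eq_one])
    rw [this, orderOf_one] at ha
    exact hp.one_lt.ne ha
  obtain ⟨M, hM, hRM⟩ : ∃ M : Subgroup A, IsCoatom M ∧ R ≤ M := by
    rcases eq_top_or_exists_le_coatom R with h | h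
    · exact absurd h hR
    · exact h
  refine ⟨M, ?_⟩
  obtain ⟨x, hx⟩ : ∃ x, x ∉ M := by
    by_contra hcon
    push Not at hcon
    exact hM.1 (eq_top_iff.2 fun y _ => hcon y)
  have hxp : x ^ p ∈ M := hRM ⟨x, rfl⟩
  have htop : M ⊔ zpowers x = ⊤ := by
    apply hM.2
    rw [lt_iff_le_and_ne]
    refine ⟨le_sup_left, fun h => hx ?_⟩
    rw [h]
    exact (le_sup_right : zpowers x ≤ M ⊔ zpowers x) (mem_zpowers x)
  have hgen : ∀ y : A ⧸ M, y ∈ zpowers (QuotientGroup.mk' M x) := by
    intro y
    obtain ⟨z, rfl⟩ := QuotientGroup.mk'_surjective M y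
    have hz : z ∈ M ⊔ zpowers x := htop ▸ Subgroup.mem_top z
    obtain ⟨m, hm, w, hw, rfl⟩ := Subgroup.mem_sup.1 hz
    obtain ⟨k, rfl⟩ := Subgroup.mem_zpowers_iff.1 hw
    rw [map_mul, map_zpow]
    have : QuotientGroup.mk' M m = 1 := by
      rw [QuotientGroup.mk'_apply, QuotientGroup.eq_one_iff]; exact hm
    rw [this, one_mul]
    exact zpow_mem (mem_zpowers _) k
  have hord : orderOf (QuotientGroup.mk' M x) = p := by
    apply orderOf_eq_prime
    · rw [← map_pow, QuotientGroup.mk'_apply, QuotientGroup.eq_one_iff]; exact hxp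
    · rw [Ne, QuotientGroup.mk'_apply, QuotientGroup.eq_one_iff]; exact hx
  rw [Subgroup.index_eq_card, ← hord]
  exact (orderOf_eq_card_of_forall_mem_zpowers hgen).symm

/-- if there is a normal subgroup with nontrivial abelian `p`-quotient, there is a normal
subgroup of index `p` above it -/
theorem exists_normal_index_prime {p : ℕ} (hp : p.Prime) (R : Subgroup X) [R.Normal]
    (hcomm : ∀ a b : X, ⁅a, b⁆ ∈ R) {x : X} (hx : x ∉ R) {k : ℕ} (hk : x ^ (p ^ k) ∈ R) :
    ∃ L : Subgroup X, L.Normal ∧ R ≤ L ∧ L.index = p := by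
  have := Fact.mk hp
  let _ : CommGroup (X ⧸ R) := { (inferInstance : Group (X ⧸ R)) with
    mul_comm := by
      intro a b
      obtain ⟨a, rfl⟩ := QuotientGroup.mk'_surjective R a
      obtain ⟨b, rfl⟩ := QuotientGroup.mk'_surjective R b
      rw [← map_mul, ← map_mul, QuotientGroup.mk'_apply, QuotientGroup.mk'_apply,
        QuotientGroup.eq]
      have h := hcomm b⁻¹ a⁻¹
      have e : (a * b)⁻¹ * (b * a) = ⁅b⁻¹, a⁻¹⁆ := by
        rw [commutatorElement_def]; group
      rw [e]; exact h }
  have hdvd : p ∣ Nat.card (X ⧸ R) := by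
    by_contra hnd
    apply hx
    have h1 : (QuotientGroup.mk' R x) ^ (p ^ k) = 1 := by
      rw [← map_pow, QuotientGroup.mk'_apply, QuotientGroup.eq_one_iff]; exact hk
    have h2 : (QuotientGroup.mk' R x) ^ (Nat.card (X ⧸ R)) = 1 := pow_card_eq_one'
    have h3 : Nat.Coprime (p ^ k) (Nat.card (X ⧸ R)) :=
      Nat.Coprime.pow_left k ((Nat.Prime.coprime_iff_not_dvd hp).2 hnd)
    have h4 : QuotientGroup.mk' R x = 1 := by
      have := orderOf_dvd_of_pow_eq_one h1
      have h5 := orderOf_dvd_of_pow_eq_one h2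
      have h6 := Nat.dvd_gcd this h5
      rw [h3] at h6
      exact orderOf_eq_one_iff.1 (Nat.dvd_one.1 h6)
    rwa [QuotientGroup.mk'_apply, QuotientGroup.eq_one_iff] at h4
  obtain ⟨M, hM⟩ := exists_index_prime hp hdvd
  have hMn : M.Normal := inferInstance
  refine ⟨M.comap (QuotientGroup.mk' R), hMn.comap _, ?_, ?_⟩
  · intro y hy
    rw [Subgroup.mem_comap]
    have : QuotientGroup.mk' R y = 1 := by
      rw [QuotientGroup.mk'_apply, QuotientGroup.eq_one_iff]; exact hy
    rw [this]; exact M.one_mem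
  · rw [Subgroup.index_comap_of_surjective _ (QuotientGroup.mk'_surjective R), hM]

/-- `p`-elements lie in the commutator subgroup if there is no normal subgroup of index `p` -/
theorem mem_commutator_of_no_index {p : ℕ} (hp : p.Prime)
    (hno : ∀ L : Subgroup X, L.Normal → L.index ≠ p) {x : X} {k : ℕ} (hk : x ^ (p ^ k) = 1) :
    x ∈ commutator X := by
  by_contra hx
  obtain ⟨L, hL, -, hLi⟩ := exists_normal_index_prime hp (commutator X)
    (fun a b => Subgroup.commutator_mem_commutator (Subgroup.mem_top a) (Subgroup.mem_top b))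
    hx (k := k) (by rw [hk]; exact one_mem _)
  exact hno L hL hLi

/-- all `p`-subgroups are abelian -/
def PAb (p : ℕ) (X : Type) [Group X] : Prop :=
  ∀ P : Subgroup X, IsPGroup p P → ∀ a ∈ P, ∀ b ∈ P, a * b = b * a

theorem exists_transfer (P : Subgroup X) (hP : ∀ a ∈ P, ∀ b ∈ P, a * b = b * a) :
    ∃ τ : X →* P, ∀ z ∈ center X, ((τ z : P) : X) = z ^ P.index := by
  let _ : CommGroup P := { (inferInstance : Group P) with
    mul_comm := fun a b => Subtype.ext (hP a a.2 b b.2) }
  refine ⟨MonoidHom.transfer (MonoidHom.id P), ?_⟩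
  intro z hz
  rw [MonoidHom.transfer_eq_pow (MonoidHom.id P) z]
  · rfl
  · intro k g _
    have hzk : z ^ k ∈ center X := pow_mem hz k
    rw [mul_assoc, ← (Subgroup.mem_center_iff.1 hzk g), inv_mul_cancel_left]

omit [Finite X] in
theorem transfer_commutator {P : Subgroup X} (hP : ∀ a ∈ P, ∀ b ∈ P, a * b = b * a)
    (τ : X →* P) {z : X} (hz : z ∈ commutator X) : τ z = 1 := by
  have : commutator X ≤ τ.ker := by
    rw [commutator_def, Subgroup.commutator_le]
    intro a _ b _
    rw [MonoidHom.mem_ker, map_commutatorElement, commutatorElement_eq_one_iff_mul_comm]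
    exact Subtype.ext (hP _ (τ a).2 _ (τ b).2)
  exact this hz

theorem eq_one_of_coprime_pow {Y : Type} [Group Y] {z : Y} {a b : ℕ} (h : Nat.Coprime a b)
    (ha : z ^ a = 1) (hb : z ^ b = 1) : z = 1 := by
  have h6 := Nat.dvd_gcd (orderOf_dvd_of_pow_eq_one ha) (orderOf_dvd_of_pow_eq_one hb)
  rw [h] at h6
  exact orderOf_eq_one_iff.1 (Nat.dvd_one.1 h6)

/-- transfer fact -/
theorem central_commutator {p : ℕ} (hp : p.Prime) (hab : PAb p X) {z : X}
    (hz : z ∈ center X) (hz' : z ∈ commutator X) {k : ℕ} (hk : z ^ (p ^ k) = 1) : z = 1 := by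
  have := Fact.mk hp
  let P : Sylow p X := default
  obtain ⟨τ, hτ⟩ := exists_transfer (P : Subgroup X) (hab P P.isPGroup')
  have h1 := transfer_commutator (hab P P.isPGroup') τ hz'
  have h2 := hτ z hz
  rw [h1] at h2
  have h3 : z ^ (P : Subgroup X).index = 1 := h2.symm
  have h4 : ¬ p ∣ (P : Subgroup X).index := P.not_dvd_index
  exact eq_one_of_coprime_pow (Nat.Coprime.pow_left k ((Nat.Prime.coprime_iff_not_dvd hp).2 h4))
    hk h3

end general

theorem AbelianPGroups.pab {W : Set Identity} (h : AbelianPGroups W) {p : ℕ} (hp : p.Prime)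
    {G : Type} [Group G] [Finite G] (hG : InVariety W G) : PAb p G := by
  intro P hP a ha b hb
  have := h p hp P (hG.subgroup P) hP ⟨a, ha⟩ ⟨b, hb⟩
  exact congrArg Subtype.val this

theorem abelianPGroups_aux {W : Set Identity} (hW : IsPrimitive W) (p : ℕ) (hp : p.Prime) :
    ∀ n : ℕ, ∀ (G : Type) [Group G] [Finite G], Nat.card G = n → InVariety W G →
      IsPGroup p G → ∀ a b : G, a * b = b * a := by
  intro n
  induction n using Nat.strong_induction_on with
  | _ n ih =>
    intro G _ _ hn hG hpG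
    by_contra hcon
    push Not at hcon
    obtain ⟨a0, b0, hab⟩ := hcon
    have := Fact.mk hp
    have hnt : Nontrivial G := ⟨a0 * b0, b0 * a0, hab⟩
    -- all commutators lie in every nontrivial normal subgroup
    have h1 : ∀ A : Subgroup G, A.Normal → A ≠ ⊥ → ∀ x y : G, ⁅x, y⁆ ∈ A := by
      intro A hA hAb x y
      have hcard : Nat.card (G ⧸ A) < n := by
        rw [← hn]
        have h2 := Subgroup.card_eq_card_quotient_mul_card_subgroup A
        have h3 : 1 < Nat.card A := by
          rw [← Subgroup.one_lt_card_iff_ne_bot] at hAb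
          exact hAb
        have h4 : 0 < Nat.card (G ⧸ A) := Nat.card_pos
        nlinarith
      have h5 := ih _ hcard (G ⧸ A) rfl (hG.quotient A) (hpG.to_quotient A)
        (QuotientGroup.mk' A x) (QuotientGroup.mk' A y)
      have h6 : QuotientGroup.mk' A ⁅x, y⁆ = 1 := by
        rw [map_commutatorElement, commutatorElement_eq_one_iff_mul_comm]; exact h5
      rwa [QuotientGroup.mk'_apply, QuotientGroup.eq_one_iff] at h6
    have hcen : center G ≠ ⊥ := by
      have := hpG.center_nontrivial
      exact (Subgroup.nontrivial_iff_ne_bot _).1 this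
    have h2 : ∀ x y : G, ⁅x, y⁆ ∈ center G := h1 (center G) inferInstance hcen
    set c : G := ⁅a0, b0⁆ with hc
    have hc1 : c ≠ 1 := by
      rw [hc, Ne, commutatorElement_eq_one_iff_mul_comm]; exact hab
    let D : Subgroup (G × G) :=
      { carrier := {x | x.1 ∈ center G ∧ x.1 * x.2 = 1}
        one_mem' := ⟨one_mem _, by simp⟩
        mul_mem' := by
          rintro ⟨x1, x2⟩ ⟨y1, y2⟩ ⟨hx1, hx2⟩ ⟨hy1, hy2⟩
          refine ⟨mul_mem hx1 hy1, ?_⟩
          change x1 * y1 * (x2 * y2) = 1
          change x1 * x2 = 1 at hx2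
          change y1 * y2 = 1 at hy2
          have e : x1 * y1 * (x2 * y2) = (x1 * x2) * (y1 * y2) := by
            rw [mul_assoc, mul_assoc, ← mul_assoc y1 x2 y2, ← Subgroup.mem_center_iff.1 hy1 x2,
              mul_assoc]
          rw [e, hx2, hy2, one_mul]
        inv_mem' := by
          rintro ⟨x1, x2⟩ ⟨hx1, hx2⟩
          refine ⟨inv_mem hx1, ?_⟩
          change x1 * x2 = 1 at hx2
          change x1⁻¹ * x2⁻¹ = 1
          have : x2 = x1⁻¹ := (inv_eq_of_mul_eq_one_right hx2).symm
          rw [this]; simp }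
    have hDn : D.Normal := by
      constructor
      rintro ⟨x1, x2⟩ ⟨hx1, hx2⟩ ⟨g1, g2⟩
      change x1 ∈ center G at hx1
      change x1 * x2 = 1 at hx2
      have hx2' : x2 = x1⁻¹ := (inv_eq_of_mul_eq_one_right hx2).symm
      subst hx2'
      have e1 : g1 * x1 * g1⁻¹ = x1 := by
        rw [Subgroup.mem_center_iff.1 hx1 g1, mul_inv_cancel_right]
      have e2 : g2 * x1⁻¹ * g2⁻¹ = x1⁻¹ := by
        rw [Subgroup.mem_center_iff.1 (inv_mem hx1) g2, mul_inv_cancel_right]
      refine ⟨?_, ?_⟩
      · change g1 * x1 * g1⁻¹ ∈ center G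
        rw [e1]; exact hx1
      · change g1 * x1 * g1⁻¹ * (g2 * x1⁻¹ * g2⁻¹) = 1
        rw [e1, e2, mul_inv_cancel]
    have hcD : ((c, 1) : G × G) ∉ D := by
      rintro ⟨_, h⟩
      apply hc1
      simpa using h
    obtain ⟨N, hNn, hDN, hcN, hN⟩ := exists_SI_quotient D ((c, 1) : G × G) hcD
    have hSI : SI ((G × G) ⧸ N) := by
      refine ⟨QuotientGroup.mk' N (c, 1), ?_, hN⟩
      rw [Ne, QuotientGroup.mk'_apply, QuotientGroup.eq_one_iff]
      exact hcN
    obtain ⟨f, hf⟩ := embed_of_primitive hW hG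
      ((mem_theoryOf_self G).prod (mem_theoryOf_self G))
      (QuotientGroup.mk' N) (QuotientGroup.mk'_surjective N) hSI
    -- elements (g,1) of N
    have hN1 : ∀ g : G, ((g, 1) : G × G) ∈ N → g = 1 := by
      intro g hg
      by_contra hg1
      have hA : (N.comap (MonoidHom.inl G G)).Normal := hNn.comap _
      have hA1 : N.comap (MonoidHom.inl G G) ≠ ⊥ := by
        intro h
        have : g ∈ N.comap (MonoidHom.inl G G) := hg
        rw [h, Subgroup.mem_bot] at this
        exact hg1 this
      exact hcN (h1 _ hA hA1 a0 b0)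
    have hle : (center ((G × G) ⧸ N)).comap (QuotientGroup.mk' N) ≤
        (center G).prod (center G) := by
      rintro ⟨a, b⟩ hab
      rw [Subgroup.mem_comap, Subgroup.mem_center_iff] at hab
      have hcommN : ∀ y : G × G, ⁅(a, b), y⁆ ∈ N := by
        intro y
        have h5 := hab (QuotientGroup.mk' N y)
        have h6 : QuotientGroup.mk' N ⁅(a, b), y⁆ = 1 := by
          rw [map_commutatorElement, commutatorElement_eq_one_iff_mul_comm]; exact h5.symm
        rwa [QuotientGroup.mk'_apply, QuotientGroup.eq_one_iff] at h6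
      refine ⟨?_, ?_⟩
      · change a ∈ center G
        rw [Subgroup.mem_center_iff]
        intro g
        have h5 := hcommN (g, 1)
        have h6 : ⁅((a, b) : G × G), ((g, 1) : G × G)⁆ = (⁅a, g⁆, 1) := by
          simp [commutatorElement_def]
        rw [h6] at h5
        have h7 := hN1 _ h5
        rw [commutatorElement_eq_one_iff_mul_comm] at h7
        exact h7.symm
      · change b ∈ center G
        rw [Subgroup.mem_center_iff]
        intro g
        have h5 := hcommN (1, g)
        have h6 : ⁅((a, b) : G × G), ((1, g) : G × G)⁆ = (1, ⁅b, g⁆) := by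
          simp [commutatorElement_def]
        rw [h6] at h5
        have h8 : ((⁅b, g⁆, ⁅b, g⁆⁻¹) : G × G) ∈ N := hDN ⟨h2 b g, mul_inv_cancel _⟩
        have h9 := mul_mem h8 h5
        have h10 : ((⁅b, g⁆, ⁅b, g⁆⁻¹) : G × G) * (1, ⁅b, g⁆) = (⁅b, g⁆, 1) :=
          Prod.ext (mul_one _) (inv_mul_cancel _)
        rw [h10] at h9
        have h7 := hN1 _ h9
        rw [commutatorElement_eq_one_iff_mul_comm] at h7
        exact h7.symm
    have hi1 : (center G).index * (center G).index ≤ (center ((G × G) ⧸ N)).index := by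
      rw [← Subgroup.index_prod,
        ← Subgroup.index_comap_of_surjective (center ((G × G) ⧸ N))
          (QuotientGroup.mk'_surjective N)]
      exact Subgroup.index_antitone hle
    have hi2 : (center ((G × G) ⧸ N)).index ≤ (center G).index := by
      have h5 : (center G).comap f ≤ center ((G × G) ⧸ N) := by
        intro e he
        rw [Subgroup.mem_center_iff]
        intro x
        apply hf
        rw [map_mul, map_mul]
        exact Subgroup.mem_center_iff.1 he (f x)
      refine (Subgroup.index_antitone h5).trans ?_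
      rw [Subgroup.index_comap]
      exact Nat.le_of_dvd (Nat.pos_of_ne_zero Subgroup.index_ne_zero_of_finite)
        (Subgroup.relIndex_dvd_index_of_normal _ _)
    have hi3 : (center G).index = 1 := by
      have h5 : 0 < (center G).index := Nat.pos_of_ne_zero Subgroup.index_ne_zero_of_finite
      have h6 := hi1.trans hi2
      nlinarith
    rw [Subgroup.index_eq_one] at hi3
    have : a0 ∈ center G := by rw [hi3]; exact Subgroup.mem_top _
    exact hab (Subgroup.mem_center_iff.1 this b0).symm

theorem abelianPGroups_of_primitive {W : Set Identity} (hW : IsPrimitive W) :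
    AbelianPGroups W :=
  fun p hp G _ _ hG hpG => abelianPGroups_aux hW p hp _ G rfl hG hpG

end PrimVar
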