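import Pool.Agent.Helper515.PrimB

set_option autoImplicit false

namespace PrimVar

open Subgroup
open scoped commutatorElement

theorem normal_of_le_center' {H : Type} [Group H] {A : Subgroup H} (h : A ≤ center H) :
    A.Normal := by
  constructor
  intro a ha g
  have : g * a * g⁻¹ = a := by
    rw [Subgroup.mem_center_iff.1 (h ha) g, mul_inv_cancel_right]
  rw [this]; exact ha

theorem eq_top_of_index_prime {H : Type} [Group H] {p : ℕ} (hp : p.Prime) {K C : Subgroup H}
    (hK : K.index = p) (hKC : K ≤ C) {x : H} (hxC : x ∈ C) (hxK : x ∉ K) : C = ⊤ := by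
  have h1 : C.index ∣ p := hK ▸ Subgroup.index_dvd_of_le hKC
  rcases (Nat.dvd_prime hp).1 h1 with h | h
  · exact Subgroup.index_eq_one.1 h
  · exfalso
    have h2 := Subgroup.relIndex_mul_index hKC
    rw [h, hK] at h2
    have h3 : K.relIndex C = 1 := Nat.eq_of_mul_eq_mul_right hp.pos (by rw [h2, one_mul])
    rw [Subgroup.relIndex_eq_one] at h3
    exact hxK (h3 hxC)

theorem mk'_eq_one {H : Type} [Group H] {A : Subgroup H} [A.Normal] {x : H} :
    QuotientGroup.mk' A x = 1 ↔ x ∈ A := by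
  rw [QuotientGroup.mk'_apply, QuotientGroup.eq_one_iff]

theorem pow_mem_of_index {H : Type} [Group H] {p : ℕ} {K : Subgroup H} [K.Normal]
    (hK : K.index = p) (x : H) : x ^ p ∈ K := by
  have := K.pow_index_mem x
  rwa [hK] at this

/-- the `p`-part of an element outside a normal subgroup of index `p` -/
theorem exists_pPart {H : Type} [Group H] [Finite H] {p : ℕ} (hp : p.Prime) {K : Subgroup H}
    [K.Normal] (hK : K.index = p) {w : H} (hw : w ∉ K) :
    ∃ m k : ℕ, w ^ m ∉ K ∧ (w ^ m) ^ (p ^ k) = 1 := by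
  obtain ⟨k, m, hm, hkm⟩ := Nat.exists_eq_pow_mul_and_not_dvd (orderOf_pos w).ne' p hp.ne_one
  refine ⟨m, k, ?_, ?_⟩
  · intro h
    apply hw
    have h1 : (QuotientGroup.mk' K w) ^ m = 1 := by rw [← map_pow, mk'_eq_one]; exact h
    have h2 : (QuotientGroup.mk' K w) ^ p = 1 := by
      rw [← map_pow, mk'_eq_one]; exact pow_mem_of_index hK w
    have h3 := eq_one_of_coprime_pow ((Nat.Prime.coprime_iff_not_dvd hp).2 hm) h2 h1
    exact mk'_eq_one.1 h3
  · rw [← pow_mul, mul_comm m, ← hkm, pow_orderOf_eq_one]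

theorem comm_mem_iff {H : Type} [Group H] {A : Subgroup H} [A.Normal] {y : H} :
    QuotientGroup.mk' A y ∈ center (H ⧸ A) ↔ ∀ h : H, ⁅y, h⁆ ∈ A := by
  rw [Subgroup.mem_center_iff]
  constructor
  · intro hy h
    rw [← mk'_eq_one, map_commutatorElement, commutatorElement_eq_one_iff_mul_comm]
    exact (hy _).symm
  · intro hy g
    obtain ⟨h, rfl⟩ := QuotientGroup.mk'_surjective A g
    have := hy h
    rw [← mk'_eq_one, map_commutatorElement, commutatorElement_eq_one_iff_mul_comm] at this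
    exact this.symm

/-- reduction map -/
def red (p : ℕ) : Multiplicative (ZMod (p ^ 2)) →* Multiplicative (ZMod p) :=
  AddMonoidHom.toMultiplicative
    (ZMod.castHom (dvd_pow_self p two_ne_zero : p ∣ p ^ 2) (ZMod p)).toAddMonoidHom

theorem red_surjective (p : ℕ) : Function.Surjective (red p) := by
  intro y
  obtain ⟨x, hx⟩ := ZMod.castHom_surjective (dvd_pow_self p two_ne_zero : p ∣ p ^ 2)
    (Multiplicative.toAdd y)
  exact ⟨Multiplicative.ofAdd x, by
    change Multiplicative.ofAdd _ = y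
    rw [← ofAdd_toAdd y, ← hx]; rfl⟩

theorem red_eq_one_iff {p : ℕ} (hp : p.Prime) (c : Multiplicative (ZMod (p ^ 2))) :
    red p c = 1 ↔ c ^ p = 1 := by
  have : NeZero (p ^ 2) := ⟨pow_ne_zero 2 hp.ne_zero⟩
  obtain ⟨n, hn⟩ := ZMod.natCast_zmod_surjective (Multiplicative.toAdd c)
  have h1 : red p c = Multiplicative.ofAdd ((n : ZMod p)) := by
    rw [← ofAdd_toAdd c, ← hn]
    change Multiplicative.ofAdd (ZMod.castHom (dvd_pow_self p two_ne_zero : p ∣ p ^ 2) (ZMod p)
      (n : ZMod (p ^ 2))) = _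
    rw [map_natCast]
  have h2 : c ^ p = Multiplicative.ofAdd ((p * n : ℕ) : ZMod (p ^ 2)) := by
    rw [← ofAdd_toAdd c, ← hn, ← ofAdd_nsmul, nsmul_eq_mul, Nat.cast_mul]
  rw [h1, h2, ofAdd_eq_one, ofAdd_eq_one, ZMod.natCast_eq_zero_iff, ZMod.natCast_eq_zero_iff,
    pow_two, Nat.mul_dvd_mul_iff_left hp.pos]

theorem centreCondition_aux {W : Set Identity} (hW : IsPrimitive W) (p : ℕ) (hp : p.Prime)
    (hC : InVariety W (Multiplicative (ZMod (p ^ 2)))) :
    ∀ n : ℕ, ∀ (H : Type) [Group H] [Finite H], Nat.card H = n → InVariety W H →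
      ∀ K : Subgroup H, K.Normal → K.index = p → ¬ (Subgroup.center H ≤ K) := by
  have hpab := abelianPGroups_of_primitive hW
  have hfact := Fact.mk hp
  intro n
  induction n using Nat.strong_induction_on with
  | _ n ih =>
  intro H _ _ hn hH K hKn hKi hcen
  have hHab : PAb p H := hpab.pab hp hH
  have hKV : InVariety W K := hH.subgroup K
  have hKab : PAb p K := hpab.pab hp hKV
  -- (s1)
  have s1 : ∀ A : Subgroup H, ∀ _ : A.Normal, A ≠ ⊥ → A ≤ K → ∃ y, y ∉ K ∧ ∀ h : H, ⁅y, h⁆ ∈ A := by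
    intro A hA hAb hAK
    have hcard : Nat.card (H ⧸ A) < n := by
      rw [← hn]
      have h2 := Subgroup.card_eq_card_quotient_mul_card_subgroup A
      have h3 : 1 < Nat.card A := (Subgroup.one_lt_card_iff_ne_bot A).2 hAb
      have h4 : 0 < Nat.card (H ⧸ A) := Nat.card_pos
      nlinarith
    have hsurj := QuotientGroup.mk'_surjective A
    have h5 := ih _ hcard (H ⧸ A) rfl (hH.quotient A) (K.map (QuotientGroup.mk' A))
      (hKn.map _ hsurj) (by
        rw [Subgroup.index_map_eq K hsurj (by rw [QuotientGroup.ker_mk']; exact hAK), hKi])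
    rw [SetLike.not_le_iff_exists] at h5
    obtain ⟨y', hy', hy'K⟩ := h5
    obtain ⟨y, rfl⟩ := hsurj y'
    exact ⟨y, fun h => hy'K ⟨y, h, rfl⟩, comm_mem_iff.1 hy'⟩
  -- (s3)
  have s3 : ∀ z ∈ center H, ∀ k : ℕ, z ^ (p ^ k) = 1 → z = 1 := by
    intro z hz k hk
    by_contra hz1
    have hle : zpowers z ≤ center H := by rw [Subgroup.zpowers_le]; exact hz
    obtain ⟨y, hyK, hy⟩ := s1 (zpowers z) (normal_of_le_center' hle)
      (by rw [Ne, Subgroup.zpowers_eq_bot]; exact hz1) (hle.trans hcen)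
    apply hyK
    apply hcen
    rw [Subgroup.mem_center_iff]
    intro h
    have h1 : ⁅y, h⁆ = 1 := by
      apply central_commutator hp hHab (hle (hy h))
        (Subgroup.commutator_mem_commutator (Subgroup.mem_top y) (Subgroup.mem_top h)) (k := k)
      obtain ⟨j, hj⟩ := Subgroup.mem_zpowers_iff.1 (hy h)
      rw [← hj, ← zpow_natCast, ← zpow_mul, mul_comm, zpow_mul, zpow_natCast, hk, one_zpow]
    rw [commutatorElement_eq_one_iff_mul_comm] at h1
    exact h1.symm
  have hKcard : Nat.card K < n := by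
    rw [← hn, ← K.card_mul_index, hKi]
    have h4 : 0 < Nat.card K := Nat.card_pos
    have := hp.one_lt
    nlinarith
  -- (s4)
  have s4 : ∀ L : Subgroup K, L.Normal → L.index ≠ p := by
    intro L hL hLi
    have h5 := ih _ hKcard K rfl hKV L hL hLi
    rw [SetLike.not_le_iff_exists] at h5
    obtain ⟨z, hz, hzL⟩ := h5
    obtain ⟨m, k, hmL, hmk⟩ := exists_pPart hp hLi hzL
    set z' : K := z ^ m with hz'
    have hz'c : z' ∈ center K := pow_mem hz m
    have hzz : ((z' : K) : H) ^ (p ^ k) = 1 := by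
      rw [← Subgroup.coe_pow, hmk]; rfl
    have hPz : IsPGroup p (zpowers (z' : H)) := by
      intro g
      refine ⟨k, ?_⟩
      apply Subtype.ext
      obtain ⟨j, hj⟩ := Subgroup.mem_zpowers_iff.1 g.2
      rw [Subgroup.coe_pow, ← hj, ← zpow_natCast, ← zpow_mul, mul_comm, zpow_mul, zpow_natCast,
        hzz, one_zpow]; rfl
    obtain ⟨P, hP⟩ := hPz.exists_le_sylow
    have hzP : (z' : H) ∈ P := hP (mem_zpowers _)
    have hPK : ¬ ((P : Subgroup H) ≤ K) := by
      intro h
      have h6 := Subgroup.index_dvd_of_le h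
      rw [hKi] at h6
      exact P.not_dvd_index h6
    rw [SetLike.not_le_iff_exists] at hPK
    obtain ⟨x, hxP, hxK⟩ := hPK
    have htop : centralizer {(z' : H)} = ⊤ := by
      apply eq_top_of_index_prime hp hKi _ _ hxK
      · intro y hy
        rw [Subgroup.mem_centralizer_singleton_iff]
        have := Subgroup.mem_center_iff.1 hz'c ⟨y, hy⟩
        exact congrArg Subtype.val this
      · rw [Subgroup.mem_centralizer_singleton_iff]
        exact hHab P P.isPGroup' x hxP z' hzP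
    have hzc : (z' : H) ∈ center H := by
      rw [Subgroup.mem_center_iff]
      intro g
      have : g ∈ centralizer {(z' : H)} := htop ▸ Subgroup.mem_top g
      rwa [Subgroup.mem_centralizer_singleton_iff] at this
    have h1 := s3 z' hzc k hzz
    apply hmL
    have : z' = 1 := Subtype.ext h1
    rw [this]; exact one_mem _
  -- (s5)
  have s5 : ∀ A : Subgroup H, ∀ _ : A.Normal, A ≠ ⊥ → A ⊓ K ≠ ⊥ := by
    intro A hA hAb hAK
    obtain ⟨⟨a, ha⟩, ha1'⟩ := Subgroup.ne_bot_iff_exists_ne_one.1 hAb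
    have ha1 : a ≠ 1 := fun h => ha1' (Subtype.ext h)
    have haK : a ∉ K := by
      intro h
      have : a ∈ A ⊓ K := ⟨ha, h⟩
      rw [hAK, Subgroup.mem_bot] at this
      exact ha1 this
    have htop : centralizer {a} = ⊤ := by
      apply eq_top_of_index_prime hp hKi _ _ haK
      · intro y hy
        rw [Subgroup.mem_centralizer_singleton_iff]
        have h1 : ⁅y, a⁆ ∈ ⁅K, A⁆ := Subgroup.commutator_mem_commutator hy ha
        have h2 := Subgroup.commutator_le_inf K A h1
        rw [inf_comm, hAK, Subgroup.mem_bot, commutatorElement_eq_one_iff_mul_comm] at h2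
        exact h2
      · rw [Subgroup.mem_centralizer_singleton_iff]
    apply haK
    apply hcen
    rw [Subgroup.mem_center_iff]
    intro g
    have : g ∈ centralizer {a} := htop ▸ Subgroup.mem_top g
    rwa [Subgroup.mem_centralizer_singleton_iff] at this
  -- (s6)
  have s6 : ∀ A1 A2 : Subgroup H, ∀ _ : A1.Normal, ∀ _ : A2.Normal, A1 ≠ ⊥ → A2 ≠ ⊥ →
      A1 ≤ K → A2 ≤ K → A1 ⊓ A2 ≠ ⊥ := by
    intro A1 A2 hA1 hA2 hb1 hb2 hK1 hK2 hinf
    obtain ⟨w1, hw1K, hw1⟩ := s1 A1 hA1 hb1 hK1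
    obtain ⟨w2, hw2K, hw2⟩ := s1 A2 hA2 hb2 hK2
    obtain ⟨m1, k1, hm1, hk1⟩ := exists_pPart hp hKi hw1K
    obtain ⟨m2, k2, hm2, hk2⟩ := exists_pPart hp hKi hw2K
    have hcardHK : Nat.card (H ⧸ K) = p := by rw [← Subgroup.index_eq_card, hKi]
    obtain ⟨j, hj⟩ : ∃ j : ℕ, (QuotientGroup.mk' K (w2 ^ m2)) ^ j =
        QuotientGroup.mk' K (w1 ^ m1) := by
      have := mem_powers_of_prime_card (p := p) hcardHK (g := QuotientGroup.mk' K (w2 ^ m2))
        (g' := QuotientGroup.mk' K (w1 ^ m1)) (by rw [Ne, mk'_eq_one]; exact hm2)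
      exact Submonoid.mem_powers_iff _ _ |>.1 this
    set u1 := w1 ^ m1 with hu1
    set u2 := (w2 ^ m2) ^ j with hu2
    have hu1A : QuotientGroup.mk' A1 u1 ∈ center (H ⧸ A1) := by
      rw [hu1, map_pow]; exact pow_mem (comm_mem_iff.2 hw1) _
    have hu2A : QuotientGroup.mk' A2 u2 ∈ center (H ⧸ A2) := by
      rw [hu2, map_pow, map_pow]; exact pow_mem (pow_mem (comm_mem_iff.2 hw2) _) _
    have hu12 : QuotientGroup.mk' K u2 = QuotientGroup.mk' K u1 := by
      rw [← hj]; exact map_pow _ _ _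
    have hdK : u1⁻¹ * u2 ∈ K := by
      rw [← mk'_eq_one, map_mul, map_inv, hu12, inv_mul_cancel]
    have hcomm : Commute u1 u2 := by
      have h1 : ⁅u1, u2⁆ ∈ A1 := comm_mem_iff.1 hu1A u2
      have h2 : ⁅u1, u2⁆ ∈ A2 := by
        have := comm_mem_iff.1 hu2A u1
        rw [← commutatorElement_inv]
        exact inv_mem this
      have h3 : ⁅u1, u2⁆ ∈ A1 ⊓ A2 := ⟨h1, h2⟩
      rw [hinf, Subgroup.mem_bot, commutatorElement_eq_one_iff_mul_comm] at h3
      exact h3
    have hdp : (u1⁻¹ * u2) ^ (p ^ (k1 + k2)) = 1 := by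
      rw [(hcomm.inv_left).mul_pow, inv_pow, pow_add, pow_mul, hk1, one_pow, inv_one, one_mul,
        hu2, ← pow_mul, mul_comm (p ^ k1), ← mul_assoc, mul_comm j, mul_assoc, pow_mul, hk2,
        one_pow]
    have hB : (A1 ⊔ A2).Normal := inferInstance
    have hB' : ((A1 ⊔ A2).subgroupOf K).Normal := inferInstance
    let B' : Subgroup K := (A1 ⊔ A2).subgroupOf K
    let d : K := ⟨u1⁻¹ * u2, hdK⟩
    have hKB : InVariety W (K ⧸ B') := hKV.quotient B'
    have hdcen : QuotientGroup.mk' B' d ∈ center (K ⧸ B') := by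
      rw [comm_mem_iff]
      intro h
      rw [Subgroup.mem_subgroupOf]
      change ⁅u1⁻¹ * u2, (h : H)⁆ ∈ A1 ⊔ A2
      revert h
      suffices ∀ h : H, ⁅u1⁻¹ * u2, h⁆ ∈ A1 ⊔ A2 from fun h => this h
      rw [← comm_mem_iff, map_mul, map_inv]
      refine mul_mem (inv_mem ?_) ?_
      · rw [comm_mem_iff]
        exact fun h => (le_sup_left : A1 ≤ A1 ⊔ A2) (comm_mem_iff.1 hu1A h)
      · rw [comm_mem_iff]
        exact fun h => (le_sup_right : A2 ≤ A1 ⊔ A2) (comm_mem_iff.1 hu2A h)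
    have hdp' : (QuotientGroup.mk' B' d) ^ (p ^ (k1 + k2)) = 1 := by
      rw [← map_pow]
      have : d ^ (p ^ (k1 + k2)) = 1 := Subtype.ext hdp
      rw [this, map_one]
    have hdcomm : QuotientGroup.mk' B' d ∈ commutator (K ⧸ B') := by
      apply mem_commutator_of_no_index hp _ hdp'
      intro L hL hLi
      apply s4 (L.comap (QuotientGroup.mk' B')) (hL.comap _)
      rw [Subgroup.index_comap_of_surjective _ (QuotientGroup.mk'_surjective B'), hLi]
    have hd1 := central_commutator hp (hpab.pab hp hKB) hdcen hdcomm hdp'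
    rw [mk'_eq_one, Subgroup.mem_subgroupOf] at hd1
    obtain ⟨a1, ha1, a2, ha2, ha⟩ := Subgroup.mem_sup_of_normal_right.1 hd1
    change a1 * a2 = u1⁻¹ * u2 at ha
    have hz : u1 * a1 = u2 * a2⁻¹ := by
      rw [eq_mul_inv_iff_mul_eq, mul_assoc, ha, mul_inv_cancel_left]
    have hzc : u1 * a1 ∈ center H := by
      rw [Subgroup.mem_center_iff]
      intro h
      have h1 : ⁅u1 * a1, h⁆ ∈ A1 := by
        apply comm_mem_iff.1
        rw [map_mul, mk'_eq_one.2 ha1, mul_one]; exact hu1A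
      have h2 : ⁅u1 * a1, h⁆ ∈ A2 := by
        rw [hz]
        apply comm_mem_iff.1
        rw [map_mul, mk'_eq_one.2 (inv_mem ha2), mul_one]; exact hu2A
      have h3 : ⁅u1 * a1, h⁆ ∈ A1 ⊓ A2 := ⟨h1, h2⟩
      rw [hinf, Subgroup.mem_bot, commutatorElement_eq_one_iff_mul_comm] at h3
      exact h3.symm
    have h4 := hcen hzc
    exact hm1 ((Subgroup.mul_mem_cancel_right K (hK1 ha1)).1 h4)
  -- (s7)
  have hKtop : K ≠ ⊤ := by
    intro h
    rw [h, Subgroup.index_top] at hKi
    exact hp.one_lt.ne hKi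
  have hSI : SI H := by
    let S : Set (Subgroup H) := {A | A.Normal ∧ A ≠ ⊥}
    have hne : S.Nonempty := by
      refine ⟨⊤, inferInstance, ?_⟩
      intro h
      apply hKtop
      rw [eq_top_iff, h]; exact bot_le
    obtain ⟨A0, hA0⟩ := (Set.toFinite S).exists_minimal hne
    obtain ⟨⟨hA0n, hA0b⟩, hmin⟩ := hA0
    obtain ⟨m, hm1⟩ := Subgroup.ne_bot_iff_exists_ne_one.1 hA0b
    refine ⟨m, fun h => hm1 (Subtype.ext h), ?_⟩
    intro A hA hAb
    have h1 := s6 (A ⊓ K) (A0 ⊓ K) inferInstance inferInstance (s5 A hA hAb) (s5 A0 hA0n hA0b)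
      inf_le_right inf_le_right
    have h2 : A ⊓ A0 ≠ ⊥ := by
      intro h
      apply h1
      rw [eq_bot_iff, ← h]
      exact inf_le_inf inf_le_left inf_le_left
    have h3 : A0 ≤ A ⊓ A0 := hmin (⟨inferInstance, h2⟩ : A ⊓ A0 ∈ S) inf_le_right
    exact (h3 m.2).1
  -- (s8)
  have hcardHK : Nat.card (H ⧸ K) = p := by rw [← Subgroup.index_eq_card, hKi]
  have hcardZ : Nat.card (Multiplicative (ZMod p)) = p := by
    rw [Nat.card_congr Multiplicative.toAdd, Nat.card_zmod]
  let e : (H ⧸ K) ≃* Multiplicative (ZMod p) := mulEquivOfPrimeCardEq hcardHK hcardZ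
  let χ : H →* Multiplicative (ZMod p) := e.toMonoidHom.comp (QuotientGroup.mk' K)
  have hχ : ∀ x, χ x = 1 ↔ x ∈ K := by
    intro x
    change e (QuotientGroup.mk' K x) = 1 ↔ _
    rw [map_eq_one_iff e e.injective, mk'_eq_one]
  let F : Subgroup (H × Multiplicative (ZMod (p ^ 2))) :=
    MonoidHom.eqLocus (χ.comp (MonoidHom.fst _ _)) ((red p).comp (MonoidHom.snd _ _))
  have hFmem : ∀ x : H × Multiplicative (ZMod (p ^ 2)), x ∈ F ↔ χ x.1 = red p x.2 :=
    fun x => Iff.rfl
  have hFV : InVariety W F := (hH.prod hC).subgroup F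
  let pr1 : F →* H := (MonoidHom.fst _ _).comp F.subtype
  let pr2 : F →* Multiplicative (ZMod (p ^ 2)) := (MonoidHom.snd _ _).comp F.subtype
  have hpr1 : Function.Surjective pr1 := by
    intro h
    obtain ⟨c, hc⟩ := red_surjective p (χ h)
    exact ⟨⟨(h, c), hc.symm⟩, rfl⟩
  obtain ⟨ι, hι⟩ := embed_of_primitive hW hFV (mem_theoryOf_self F) pr1 hpr1 hSI
  have hσ : Function.Injective (pr1.comp ι) := by
    rw [← MonoidHom.ker_eq_bot_iff, eq_bot_iff]
    intro h hh
    rw [MonoidHom.mem_ker] at hh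
    rw [Subgroup.mem_bot]
    have hh1 : ((ι h : F) : H × Multiplicative (ZMod (p ^ 2))).1 = 1 := hh
    have hh2 : red p ((ι h : F) : H × Multiplicative (ZMod (p ^ 2))).2 = 1 := by
      rw [← (hFmem _).1 (ι h).2, hh1, map_one]
    rw [red_eq_one_iff hp] at hh2
    apply s3 h _ 1
    · apply hι
      rw [map_pow, map_one, pow_one]
      apply Subtype.ext
      apply Prod.ext
      · change ((ι h : F) : H × Multiplicative (ZMod (p ^ 2))).1 ^ p = 1
        rw [hh1, one_pow]
      · exact hh2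
    · rw [Subgroup.mem_center_iff]
      intro g
      apply hι
      rw [map_mul, map_mul]
      apply Subtype.ext
      apply Prod.ext
      · change ((ι g : F) : H × Multiplicative (ZMod (p ^ 2))).1 *
          ((ι h : F) : H × Multiplicative (ZMod (p ^ 2))).1 =
          ((ι h : F) : H × Multiplicative (ZMod (p ^ 2))).1 *
          ((ι g : F) : H × Multiplicative (ZMod (p ^ 2))).1
        rw [hh1, one_mul, mul_one]
      · exact mul_comm _ _
  have hσb : Function.Bijective (pr1.comp ι) :=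
    ⟨hσ, Finite.injective_iff_surjective.1 hσ⟩
  let σ : H ≃* H := MulEquiv.ofBijective (pr1.comp ι) hσb
  let g : H →* Multiplicative (ZMod (p ^ 2)) := (pr2.comp ι).comp σ.symm.toMonoidHom
  have hg : ∀ h : H, red p (g h) = χ h := by
    intro h
    have h1 : pr1 (ι (σ.symm h)) = h := σ.apply_symm_apply h
    have h2 := (hFmem _).1 (ι (σ.symm h)).2
    change χ (pr1 (ι (σ.symm h))) = red p (g h) at h2
    rw [h1] at h2
    exact h2.symm
  obtain ⟨y, hyK⟩ : ∃ y, y ∉ K := by
    by_contra hcon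
    push Not at hcon
    exact hKtop (eq_top_iff.2 fun y _ => hcon y)
  obtain ⟨m, k, hmK, hmk⟩ := exists_pPart hp hKi hyK
  let y' : K := ⟨(y ^ m) ^ p, pow_mem_of_index hKi _⟩
  have hy'1 : y' ^ (p ^ k) = 1 := by
    apply Subtype.ext
    change ((y ^ m) ^ p) ^ (p ^ k) = 1
    rw [← pow_mul, mul_comm, pow_mul, hmk, one_pow]
  have hy'2 : y' ∈ commutator K := mem_commutator_of_no_index hp s4 hy'1
  have hy'3 : g (y' : H) = 1 := by
    have h1 : commutator K ≤ (g.comp K.subtype).ker := by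
      rw [_root_.commutator_def, Subgroup.commutator_le]
      intro a _ b _
      rw [MonoidHom.mem_ker, map_commutatorElement, commutatorElement_eq_one_iff_mul_comm]
      exact mul_comm _ _
    exact h1 hy'2
  change g ((y ^ m) ^ p) = 1 at hy'3
  rw [map_pow, ← red_eq_one_iff hp, hg, hχ] at hy'3
  exact hmK hy'3

theorem centreCondition_of_primitive {W : Set Identity} (hW : IsPrimitive W) :
    CentreCondition W :=
  fun p hp hC G _ _ hG K hK hKi => centreCondition_aux hW p hp hC _ G rfl hG K hK hKi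

end PrimVar
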