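import Pool.Agent.Helper515.PrimC

set_option autoImplicit false

namespace PrimVar

open Subgroup
open scoped commutatorElement

section avg

variable {H : Type} [Group H] [Finite H]

/-- Averaging a homomorphism over a subgroup. -/
theorem exists_average (E N Q : Subgroup H) [E.Normal] [N.Normal]
    (hN : ∀ a ∈ N, ∀ b ∈ N, a * b = b * a) (l : E →* N)
    (hQ : ∀ q ∈ Q, ∀ e e' : E, (e' : H) = q⁻¹ * e * q → ((l e' : N) : H) = q⁻¹ * (l e : N) * q) :
    ∃ π : E →* N, (∀ h : H, ∀ e e' : E, (e' : H) = h * e * h⁻¹ →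
        ((π e' : N) : H) = h * (π e : N) * h⁻¹) ∧
      (∀ e : E, ∀ c : N, (∀ h : H, ∀ e' : E, (e' : H) = h⁻¹ * e * h →
        ((l e' : N) : H) = h⁻¹ * c * h) → π e = c ^ Q.index) := by
  classical
  let _ : CommGroup N := { (inferInstance : Group N) with
    mul_comm := fun a b => Subtype.ext (hN a a.2 b b.2) }
  have := Fintype.ofFinite (H ⧸ Q)
  let Λ : H → E →* N := fun h =>
    ((MulAut.conjNormal h : MulAut N).toMonoidHom.comp l).comp
      (MulAut.conjNormal h⁻¹ : MulAut E).toMonoidHom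
  have hΛ : ∀ h (e : E), ((Λ h e : N) : H) =
      h * ((l ((MulAut.conjNormal h⁻¹ : MulAut E) e) : N) : H) * h⁻¹ := by
    intro h e
    change ((MulAut.conjNormal h (l ((MulAut.conjNormal h⁻¹ : MulAut E) e)) : N) : H) = _
    rw [MulAut.conjNormal_apply]
  have hwd : ∀ h q : H, q ∈ Q → Λ (h * q) = Λ h := by
    intro h q hq
    ext e
    rw [hΛ, hΛ]
    have h1 := hQ q hq ((MulAut.conjNormal h⁻¹ : MulAut E) e)
      ((MulAut.conjNormal (h * q)⁻¹ : MulAut E) e) (by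
        rw [MulAut.conjNormal_apply, MulAut.conjNormal_apply]; group)
    rw [h1]; group
  have hout : ∀ (g : H) (q : H ⧸ Q), Λ (g * q.out) = Λ ((g • q).out) := by
    intro g q
    have h1 : ((g * q.out : H) : H ⧸ Q) = (((g • q).out : H) : H ⧸ Q) := by
      rw [QuotientGroup.out_eq', ← smul_eq_mul, MulAction.Quotient.coe_smul_out]
    have h2 := QuotientGroup.eq.1 h1
    have h3 := hwd (g * q.out) _ h2
    rw [mul_inv_cancel_left] at h3
    exact h3.symm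
  refine ⟨∏ q : H ⧸ Q, Λ q.out, ?_, ?_⟩
  · intro g e e' he'
    have h1 : ∀ q : H ⧸ Q, Λ ((g • q).out) e' = (MulAut.conjNormal g : MulAut N) (Λ q.out e) := by
      intro q
      rw [← hout]
      apply Subtype.ext
      rw [hΛ, MulAut.conjNormal_apply, hΛ]
      have h2 : (MulAut.conjNormal (g * q.out)⁻¹ : MulAut E) e' =
          (MulAut.conjNormal (q.out)⁻¹ : MulAut E) e := by
        apply Subtype.ext
        rw [MulAut.conjNormal_apply, MulAut.conjNormal_apply, he']; group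
      rw [h2]; group
    have h3 : (∏ q : H ⧸ Q, Λ q.out) e' = (MulAut.conjNormal g : MulAut N)
        ((∏ q : H ⧸ Q, Λ q.out) e) := by
      rw [MonoidHom.finsetProd_apply, MonoidHom.finsetProd_apply, map_prod]
      exact (Fintype.prod_equiv (MulAction.toPerm g) _ _ (fun q => (h1 q).symm)).symm
    rw [h3, MulAut.conjNormal_apply]
  · intro e c hc
    have h1 : ∀ q : H ⧸ Q, Λ q.out e = c := by
      intro q
      apply Subtype.ext
      rw [hΛ, hc q.out _ (by rw [MulAut.conjNormal_apply, inv_inv])]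
      group
    rw [MonoidHom.finsetProd_apply, Finset.prod_congr rfl fun q _ => h1 q, Finset.prod_const,
      Finset.card_univ, Subgroup.index, Nat.card_eq_fintype_card]

/-- A subgroup `N` of exponent `p` of an abelian group `Y` with no element of `N` a nontrivial
`p`-th power is a retract. -/
theorem exists_retraction {p : ℕ} (hp : p.Prime) (Y N : Subgroup H) (hNY : N ≤ Y)
    (hcomm : ∀ a ∈ Y, ∀ b ∈ Y, a * b = b * a) (hNp : ∀ y ∈ Y, y ^ p ∈ N → y ^ p = 1) :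
    ∃ ρ : Y →* N, ∀ y : Y, (y : H) ∈ N → ((ρ y : N) : H) = y := by
  -- choose a maximal B
  let S : Set (Subgroup H) := {B | B ≤ Y ∧ (∀ y ∈ Y, y ^ p ∈ B) ∧ B ⊓ N = ⊥}
  let R : Subgroup H :=
    { carrier := {x | ∃ y ∈ Y, y ^ p = x}
      one_mem' := ⟨1, one_mem _, one_pow _⟩
      mul_mem' := by
        rintro _ _ ⟨a, ha, rfl⟩ ⟨b, hb, rfl⟩
        exact ⟨a * b, mul_mem ha hb, (show Commute a b from hcomm a ha b hb).mul_pow p⟩
      inv_mem' := by
        rintro _ ⟨a, ha, rfl⟩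
        exact ⟨a⁻¹, inv_mem ha, by rw [inv_pow]⟩ }
  have hR : R ∈ S := by
    refine ⟨?_, fun y hy => ⟨y, hy, rfl⟩, ?_⟩
    · rintro _ ⟨a, ha, rfl⟩
      exact pow_mem ha p
    · rw [eq_bot_iff]
      rintro x ⟨⟨a, ha, rfl⟩, hx⟩
      exact hNp a ha hx
  obtain ⟨B, hB⟩ := (Set.toFinite S).exists_maximal ⟨R, hR⟩
  obtain ⟨⟨hBY, hBp, hBN⟩, hmax⟩ := hB
  have hBn : ∀ y ∈ Y, ∀ b ∈ B, y * b = b * y := fun y hy b hb => hcomm y hy b (hBY hb)
  have hspan : ∀ y ∈ Y, ∃ b ∈ B, ∃ n ∈ N, y = b * n := by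
    by_contra hcon
    push Not at hcon
    obtain ⟨y, hy, hyno⟩ := hcon
    let B' : Subgroup H :=
      { carrier := {x | ∃ b ∈ B, ∃ k : ℤ, x = b * y ^ k}
        one_mem' := ⟨1, one_mem _, 0, by simp⟩
        mul_mem' := by
          rintro _ _ ⟨b, hb, k, rfl⟩ ⟨b', hb', k', rfl⟩
          refine ⟨b * b', mul_mem hb hb', k + k', ?_⟩
          have h1 := hcomm (y ^ k) (zpow_mem hy k) b' (hBY hb')
          rw [zpow_add, mul_assoc, ← mul_assoc (y ^ k) b', h1]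
          group
        inv_mem' := by
          rintro _ ⟨b, hb, k, rfl⟩
          refine ⟨b⁻¹, inv_mem hb, -k, ?_⟩
          have h1 := hcomm (y ^ k) (zpow_mem hy k) b (hBY hb)
          rw [← h1, mul_inv_rev, zpow_neg] }
    have hBB' : B ≤ B' := fun b hb => ⟨b, hb, 0, by simp⟩
    have hyB' : y ∈ B' := ⟨1, one_mem _, 1, by simp⟩
    have hB'S : B' ∈ S := by
      refine ⟨?_, fun y hy => hBB' (hBp y hy), ?_⟩
      · rintro _ ⟨b, hb, k, rfl⟩
        exact mul_mem (hBY hb) (zpow_mem hy k)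
      · rw [eq_bot_iff]
        rintro x ⟨⟨b, hb, k, rfl⟩, hx⟩
        by_cases hk : (p : ℤ) ∣ k
        · obtain ⟨j, rfl⟩ := hk
          have h1 : b * y ^ ((p : ℤ) * j) ∈ B := by
            apply mul_mem hb
            rw [zpow_mul, zpow_natCast]
            exact zpow_mem (hBp y hy) j
          have : b * y ^ ((p : ℤ) * j) ∈ B ⊓ N := ⟨h1, hx⟩
          rwa [hBN] at this
        · exfalso
          have hcop : IsCoprime (p : ℤ) k :=
            ((Nat.prime_iff_prime_int.1 hp).coprime_iff_not_dvd).2 hk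
          obtain ⟨u, v, huv⟩ := hcop
          -- y = (y^p)^u * (y^k)^v
          have h1 : y = (y ^ p) ^ u * (b⁻¹ * (b * y ^ k)) ^ v := by
            rw [inv_mul_cancel_left, ← zpow_natCast, ← zpow_mul, ← zpow_mul, ← zpow_add]
            have : (p : ℤ) * u + k * v = 1 := by linarith
            rw [this, zpow_one]
          have hcm : Commute b⁻¹ (b * y ^ k) :=
            hcomm _ (inv_mem (hBY hb)) _ (mul_mem (hBY hb) (zpow_mem hy k))
          rw [hcm.mul_zpow] at h1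
          refine hyno ((y ^ p) ^ u * b⁻¹ ^ v) (mul_mem (zpow_mem (hBp y hy) u)
            (zpow_mem (inv_mem hb) v)) ((b * y ^ k) ^ v)
            (zpow_mem (show b * y ^ k ∈ N from hx) v) ?_
          rw [mul_assoc]; exact h1
    have h2 := hmax hB'S hBB' hyB'
    exact hyno y h2 1 (one_mem _) (by simp)
  -- the projection
  choose bb hbb nn hnn hbn using fun y : Y => hspan y y.2
  have huniq : ∀ b ∈ B, ∀ b' ∈ B, ∀ n ∈ N, ∀ n' ∈ N, b * n = b' * n' → n = n' := by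
    intro b hb b' hb' n hn n' hn' h
    have h1 : b'⁻¹ * b = n' * n⁻¹ := by
      rw [inv_mul_eq_iff_eq_mul, ← mul_assoc, ← h, mul_inv_cancel_right]
    have h2 : b'⁻¹ * b ∈ B ⊓ N :=
      Subgroup.mem_inf.2 ⟨mul_mem (inv_mem hb') hb, h1 ▸ mul_mem hn' (inv_mem hn)⟩
    rw [hBN, Subgroup.mem_bot, h1, mul_inv_eq_one] at h2
    exact h2.symm
  refine ⟨MonoidHom.mk' (fun y => ⟨nn y, hnn y⟩) ?_, ?_⟩
  · intro a b
    apply Subtype.ext
    change nn (a * b) = nn a * nn b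
    apply huniq (bb (a * b)) (hbb _) (bb a * bb b) (mul_mem (hbb a) (hbb b)) _ (hnn _) _
      (mul_mem (hnn a) (hnn b))
    rw [← hbn]
    change (a : H) * b = _
    conv_lhs => rw [hbn a, hbn b]
    have h1 := hcomm (nn a) (hNY (hnn a)) (bb b) (hBY (hbb b))
    rw [mul_assoc, ← mul_assoc (nn a), h1]
    group
  · intro y hy
    change nn y = y
    apply huniq (bb y) (hbb y) 1 (one_mem _) _ (hnn y) _ hy
    rw [← hbn, one_mul]

/-- Maschke's theorem in group form. -/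
theorem exists_normal_complement {p : ℕ} (hp : p.Prime) (E A Q : Subgroup H) [E.Normal]
    [hA : A.Normal] (hAE : A ≤ E) (hcomm : ∀ a ∈ E, ∀ b ∈ E, a * b = b * a)
    (hEp : ∀ e ∈ E, e ^ p = 1) (hQ : ∀ q ∈ Q, ∀ e ∈ E, q * e = e * q) (hQi : ¬ p ∣ Q.index) :
    ∃ B : Subgroup H, B.Normal ∧ B ≤ E ∧ A ⊓ B = ⊥ ∧ ∀ e ∈ E, ∃ a ∈ A, ∃ b ∈ B, e = a * b := by
  obtain ⟨ρ, hρ⟩ := exists_retraction hp E A hAE hcomm (fun y hy _ => hEp y hy)
  obtain ⟨π, hπ1, hπ2⟩ := exists_average E A Q (fun a ha b hb => hcomm a (hAE ha) b (hAE hb)) ρ (by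
    intro q hq e e' he
    have h1 : (e' : H) = e := by rw [he, mul_assoc, ← hQ q hq e e.2, inv_mul_cancel_left]
    have h2 : e' = e := Subtype.ext h1
    rw [h2, mul_assoc, ← hQ q hq _ (hAE (ρ e).2), inv_mul_cancel_left])
  have hπA : ∀ a : E, ∀ ha : (a : H) ∈ A, π a = ⟨(a : H), ha⟩ ^ Q.index := by
    intro a ha
    apply hπ2
    intro h e' he'
    rw [hρ e' (by rw [he']; simpa using hA.conj_mem a ha h⁻¹), he']
  have hcop : Nat.Coprime Q.index p := ((Nat.Prime.coprime_iff_not_dvd hp).2 hQi).symm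
  refine ⟨π.ker.map E.subtype, ?_, ?_, ?_, ?_⟩
  · constructor
    rintro _ ⟨e, he, rfl⟩ g
    have hmem : g * (e : H) * g⁻¹ ∈ E := (inferInstance : E.Normal).conj_mem e e.2 g
    refine ⟨⟨g * (e : H) * g⁻¹, hmem⟩, ?_, rfl⟩
    have h1 := hπ1 g e ⟨g * (e : H) * g⁻¹, hmem⟩ rfl
    have h2 : π e = 1 := he
    rw [h2] at h1
    change π _ = 1
    apply Subtype.ext
    rw [h1]; simp
  · rintro _ ⟨e, he, rfl⟩
    exact e.2
  · rw [eq_bot_iff]
    rintro _ ⟨ha, ⟨e, he, rfl⟩⟩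
    have h1 := hπA e ha
    have h2 : π e = 1 := he
    rw [h2] at h1
    have h3 : (e : H) ^ Q.index = 1 := (congrArg Subtype.val h1).symm
    exact eq_one_of_coprime_pow hcop h3 (hEp e e.2)
  · intro e he
    obtain ⟨s, hs⟩ : ∃ s : ℕ, ((π ⟨e, he⟩ : A) : H) ^ (s * Q.index) = (π ⟨e, he⟩ : A) := by
      obtain ⟨s, -, hs⟩ := Nat.exists_mul_mod_eq_one_of_coprime hcop hp.one_lt
      refine ⟨s, ?_⟩
      rw [mul_comm, ← Nat.div_add_mod (Q.index * s) p, hs, pow_add, pow_mul,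
        hEp _ (hAE (π ⟨e, he⟩).2), one_pow, one_mul, pow_one]
    let a : H := ((π ⟨e, he⟩ : A) : H) ^ s
    have ha : a ∈ A := pow_mem (π ⟨e, he⟩).2 s
    refine ⟨a, ha, a⁻¹ * e, ⟨⟨a⁻¹ * e, mul_mem (inv_mem (hAE ha)) he⟩, ?_, rfl⟩, by group⟩
    have h1 : (⟨a⁻¹ * e, mul_mem (inv_mem (hAE ha)) he⟩ : E) = ⟨a, hAE ha⟩⁻¹ * ⟨e, he⟩ := rfl
    change π _ = 1
    rw [h1, map_mul, map_inv, hπA ⟨a, hAE ha⟩ ha, inv_mul_eq_one]
    apply Subtype.ext
    change a ^ Q.index = _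
    rw [← pow_mul, hs]

/-- a Gaschütz type theorem -/
theorem exists_complement {p : ℕ} (hp : p.Prime) (C N : Subgroup H) [C.Normal] [hNn : N.Normal]
    (hNC : N ≤ C) (hCN : ∀ c ∈ C, ∀ n ∈ N, c * n = n * c) (hNp : ∀ n ∈ N, n ^ p = 1)
    (hCi : ¬ p ∣ C.index) (l : C →* N) (m : ℕ) (hm : ¬ p ∣ m)
    (hl : ∀ c : C, (c : H) ∈ N → ((l c : N) : H) = (c : H) ^ m) :
    ∃ L : Subgroup H, L ⊓ N = ⊥ ∧ L ⊔ N = ⊤ := by
  have := Fact.mk hp
  obtain ⟨π, hπ1, hπ2⟩ := exists_average C N C (fun a ha b hb => hCN a (hNC ha) b hb) l (by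
    intro q hq e e' he
    have h1 : e' = (⟨q, hq⟩ : C)⁻¹ * e * ⟨q, hq⟩ := Subtype.ext he
    have h2 : l e' = l e := by
      rw [h1, map_mul, map_mul, map_inv]
      apply Subtype.ext
      have h3 := hCN _ (hNC (l e).2) _ (l ⟨q, hq⟩).2
      change ((l ⟨q, hq⟩ : N) : H)⁻¹ * (l e : N) * (l ⟨q, hq⟩ : N) = (l e : N)
      rw [mul_assoc, h3, inv_mul_cancel_left]
    rw [h2, mul_assoc, ← hCN q hq _ (l e).2, inv_mul_cancel_left])
  have hπN : ∀ a : C, ∀ ha : (a : H) ∈ N, ((π a : N) : H) = (a : H) ^ (m * C.index) := by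
    intro a ha
    rw [hπ2 a (⟨(a : H), ha⟩ ^ m) ?_]
    · change ((a : H) ^ m) ^ C.index = _
      rw [pow_mul]
    · intro h e' he'
      rw [hl e' (by rw [he']; simpa using hNn.conj_mem a ha h⁻¹), he']
      change _ = h⁻¹ * (a : H) ^ m * h
      have := conj_pow (a := h⁻¹) (b := (a : H)) (i := m)
      rw [inv_inv] at this
      exact this
  have hcop : Nat.Coprime (m * C.index) p := by
    apply Nat.Coprime.mul_left
    · exact ((Nat.Prime.coprime_iff_not_dvd hp).2 hm).symm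
    · exact ((Nat.Prime.coprime_iff_not_dvd hp).2 hCi).symm
  let B : Subgroup H := π.ker.map C.subtype
  have hBn : B.Normal := by
    constructor
    rintro _ ⟨e, he, rfl⟩ g
    have hmem : g * (e : H) * g⁻¹ ∈ C := (inferInstance : C.Normal).conj_mem e e.2 g
    refine ⟨⟨g * (e : H) * g⁻¹, hmem⟩, ?_, rfl⟩
    have h1 := hπ1 g e ⟨g * (e : H) * g⁻¹, hmem⟩ rfl
    have h2 : π e = 1 := he
    rw [h2] at h1
    change π _ = 1
    apply Subtype.ext
    rw [h1]; simp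
  have hBC : B ≤ C := by
    rintro _ ⟨e, he, rfl⟩
    exact e.2
  have hBN : B ⊓ N = ⊥ := by
    rw [eq_bot_iff]
    rintro _ ⟨⟨e, he, rfl⟩, ha⟩
    have h1 := hπN e ha
    have h2 : π e = 1 := he
    rw [h2] at h1
    exact eq_one_of_coprime_pow hcop h1.symm (hNp _ ha)
  have hspan : ∀ c ∈ C, ∃ b ∈ B, ∃ n ∈ N, c = b * n := by
    intro e he
    obtain ⟨s, hs⟩ : ∃ s : ℕ, ((π ⟨e, he⟩ : N) : H) ^ (s * (m * C.index)) =
        (π ⟨e, he⟩ : N) := by
      obtain ⟨s, -, hs⟩ := Nat.exists_mul_mod_eq_one_of_coprime hcop hp.one_lt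
      refine ⟨s, ?_⟩
      rw [mul_comm, ← Nat.div_add_mod (m * C.index * s) p, hs, pow_add, pow_mul,
        hNp _ (π ⟨e, he⟩).2, one_pow, one_mul, pow_one]
    let a : H := ((π ⟨e, he⟩ : N) : H) ^ s
    have ha : a ∈ N := pow_mem (π ⟨e, he⟩).2 s
    refine ⟨e * a⁻¹, ⟨⟨e * a⁻¹, mul_mem he (inv_mem (hNC ha))⟩, ?_, rfl⟩, a, ha, by group⟩
    have h1 : (⟨e * a⁻¹, mul_mem he (inv_mem (hNC ha))⟩ : C) = ⟨e, he⟩ * ⟨a, hNC ha⟩⁻¹ := rfl
    change π _ = 1
    rw [h1, map_mul, map_inv, mul_inv_eq_one]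
    apply Subtype.ext
    rw [hπN ⟨a, hNC ha⟩ ha]
    change _ = a ^ (m * C.index)
    rw [← pow_mul, hs]
  -- pass to the quotient
  let Cb : Subgroup (H ⧸ B) := C.map (QuotientGroup.mk' B)
  have hsurj := QuotientGroup.mk'_surjective B
  have hCbn : Cb.Normal := (inferInstance : C.Normal).map _ hsurj
  have hCbp : IsPGroup p Cb := by
    rintro ⟨_, c, hc, rfl⟩
    refine ⟨1, ?_⟩
    obtain ⟨b, hb, n, hn, rfl⟩ := hspan c hc
    apply Subtype.ext
    change (QuotientGroup.mk' B (b * n)) ^ (p ^ 1) = 1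
    rw [pow_one, map_mul, mk'_eq_one.2 hb, one_mul, ← map_pow, hNp n hn, map_one]
  have hCbi : Cb.index = C.index := by
    apply Subgroup.index_map_eq C hsurj
    rw [QuotientGroup.ker_mk']; exact hBC
  obtain ⟨k, hk⟩ := IsPGroup.iff_card.1 hCbp
  obtain ⟨Lb, hLb⟩ := Subgroup.exists_right_complement'_of_coprime (N := Cb) (by
    rw [hk, hCbi]
    exact Nat.Coprime.pow_left k ((Nat.Prime.coprime_iff_not_dvd hp).2 hCi))
  refine ⟨Lb.comap (QuotientGroup.mk' B), ?_, ?_⟩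
  · rw [eq_bot_iff]
    rintro x ⟨hx1, hx2⟩
    have h1 : QuotientGroup.mk' B x ∈ Cb ⊓ Lb := ⟨⟨x, hNC hx2, rfl⟩, hx1⟩
    rw [hLb.disjoint.eq_bot, Subgroup.mem_bot, mk'_eq_one] at h1
    have h2 : x ∈ B ⊓ N := ⟨h1, hx2⟩
    rwa [hBN] at h2
  · rw [eq_top_iff]
    intro x _
    have h1 : QuotientGroup.mk' B x ∈ Cb ⊔ Lb := by rw [hLb.sup_eq_top]; exact Subgroup.mem_top _
    obtain ⟨c', ⟨c, hc, rfl⟩, l', hl', hcl⟩ := Subgroup.mem_sup_of_normal_left.1 h1
    obtain ⟨b, hb, n, hn, rfl⟩ := hspan c hc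
    have h2 : n⁻¹ * x ∈ Lb.comap (QuotientGroup.mk' B) := by
      rw [Subgroup.mem_comap, map_mul, map_inv, ← hcl, map_mul, mk'_eq_one.2 hb, one_mul,
        inv_mul_cancel_left]
      exact hl'
    have h3 : x = n * (n⁻¹ * x) := by group
    rw [h3]
    exact mul_mem ((le_sup_right : N ≤ _) hn) ((le_sup_left : _ ≤ _ ⊔ N) h2)

end avg

end PrimVar
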