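import Mathlib

set_option autoImplicit false

namespace PrimVar

/-- A group identity `w(x₁,…,xₙ) = 1`: a number `n` of variables and a word in the free group
on them. -/
structure Identity where
  n : ℕ
  word : FreeGroup (Fin n)

/-- A quasi-identity `u₁ = 1 ∧ … ∧ u_k = 1 → w = 1` in `n` variables. -/
structure QuasiIdentity where
  n : ℕ
  premises : List (FreeGroup (Fin n))
  conclusion : FreeGroup (Fin n)

/-- The identity `e` holds in the group `G`. -/
def Identity.Holds (e : Identity) (G : Type) [Group G] : Prop :=
  ∀ a : Fin e.n → G, FreeGroup.lift a e.word = 1

/-- The quasi-identity `q` holds in the group `G`. -/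
def QuasiIdentity.Holds (q : QuasiIdentity) (G : Type) [Group G] : Prop :=
  ∀ a : Fin q.n → G, (∀ u ∈ q.premises, FreeGroup.lift a u = 1) →
    FreeGroup.lift a q.conclusion = 1

/-- `G` belongs to the variety of groups defined by the set `W` of identities. -/
def InVariety (W : Set Identity) (G : Type) [Group G] : Prop :=
  ∀ e ∈ W, e.Holds G

/-- `G` belongs to the quasivariety of groups defined by the set `Q` of quasi-identities. -/
def InQuasivariety (Q : Set QuasiIdentity) (G : Type) [Group G] : Prop :=
  ∀ q ∈ Q, q.Holds G

/-- The variety defined by `W` is primitive: every quasivariety contained in it is a variety. -/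
def IsPrimitive (W : Set Identity) : Prop :=
  ∀ Q : Set QuasiIdentity,
    (∀ (G : Type) [Group G], InQuasivariety Q G → InVariety W G) →
    ∃ W' : Set Identity, ∀ (G : Type) [Group G], InQuasivariety Q G ↔ InVariety W' G

/-- The variety defined by `W` is locally finite: its finitely generated groups are finite. -/
def IsLocallyFinite (W : Set Identity) : Prop :=
  ∀ (G : Type) [Group G], InVariety W G → Group.FG G → Finite G

/-- All finite `p`-groups of the variety (for all primes `p`) are abelian. -/
def AbelianPGroups (W : Set Identity) : Prop :=
  ∀ p : ℕ, p.Prime → ∀ (G : Type) [Group G] [Finite G], InVariety W G → IsPGroup p G →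
    ∀ a b : G, a * b = b * a

/-- For every prime `p` such that the cyclic group of order `p²` is in the variety, and every
finite group `G` in the variety, no normal subgroup of index `p` in `G` contains the centre
of `G` (equivalently, `G = K Z(G)` for every normal subgroup `K` of index `p`). -/
def CentreCondition (W : Set Identity) : Prop :=
  ∀ p : ℕ, p.Prime → InVariety W (Multiplicative (ZMod (p ^ 2))) →
    ∀ (G : Type) [Group G] [Finite G], InVariety W G →
      ∀ K : Subgroup G, K.Normal → K.index = p → ¬ (Subgroup.center G ≤ K)

end PrimVar
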