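import Pool.Agent.Helper515.PrimDefs

set_option autoImplicit false

namespace PrimVar

/-- The identities holding in a group `X`; they define the variety generated by `X`. -/
def lawsOf (X : Type) [Group X] : Set Identity := {e | e.Holds X}

end PrimVar
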