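import Pool.Agent.Helper515.PrimD

set_option autoImplicit false

namespace PrimVar

open Subgroup
open scoped commutatorElement

/-- the endomorphism `c k ↦ c ^ p k` -/
theorem exists_endo {H : Type} [Group H] (p : ℕ) (C : Subgroup H) [hCn : C.Normal]
    (hcomm : ∀ a ∈ C, ∀ b ∈ C, a * b = b * a) (hcop : Nat.Coprime (Nat.card C) C.index) :
    ∃ ψ : H →* H, ∀ h, ψ h = 1 ↔ h ∈ C ∧ h ^ p = 1 := by
  obtain ⟨K, hK⟩ := Subgroup.exists_right_complement'_of_coprime hcop
  have hdis : C ⊓ K = ⊥ := hK.disjoint.eq_bot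
  have hspan : ∀ h : H, ∃ c ∈ C, ∃ k ∈ K, c * k = h := by
    intro h
    have : h ∈ C ⊔ K := by rw [hK.sup_eq_top]; exact Subgroup.mem_top h
    exact Subgroup.mem_sup_of_normal_left.1 this
  choose cc hcc kk hkk hck using hspan
  have huniq : ∀ c ∈ C, ∀ c' ∈ C, ∀ k ∈ K, ∀ k' ∈ K, c * k = c' * k' → c = c' ∧ k = k' := by
    intro c hc c' hc' k hk k' hk' h
    have h1 : c'⁻¹ * c = k' * k⁻¹ := by
      rw [inv_mul_eq_iff_eq_mul, ← mul_assoc, ← h, mul_inv_cancel_right]
    have h2 : c'⁻¹ * c ∈ C ⊓ K :=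
      Subgroup.mem_inf.2 ⟨mul_mem (inv_mem hc') hc, h1 ▸ mul_mem hk' (inv_mem hk)⟩
    rw [hdis, Subgroup.mem_bot] at h2
    refine ⟨(inv_mul_eq_one.1 h2).symm, ?_⟩
    rw [h1, mul_inv_eq_one] at h2
    exact h2.symm
  refine ⟨MonoidHom.mk' (fun h => cc h ^ p * kk h) ?_, ?_⟩
  · intro a b
    have hconj : kk a * cc b * (kk a)⁻¹ ∈ C := hCn.conj_mem _ (hcc b) _
    obtain ⟨e1, e2⟩ := huniq (cc (a * b)) (hcc _) (cc a * (kk a * cc b * (kk a)⁻¹))
      (mul_mem (hcc a) hconj) (kk (a * b)) (hkk _) (kk a * kk b) (mul_mem (hkk a) (hkk b)) (by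
        rw [hck]
        conv_lhs => rw [← hck a, ← hck b]
        group)
    change cc (a * b) ^ p * kk (a * b) = cc a ^ p * kk a * (cc b ^ p * kk b)
    rw [e1, e2, (show Commute (cc a) (kk a * cc b * (kk a)⁻¹) from hcomm _ (hcc a) _ hconj).mul_pow,
      conj_pow]
    group
  · intro h
    change cc h ^ p * kk h = 1 ↔ _
    constructor
    · intro h1
      obtain ⟨e1, e2⟩ := huniq (cc h ^ p) (pow_mem (hcc h) p) 1 (one_mem _) (kk h) (hkk h) 1
        (one_mem _) (by rw [h1, one_mul])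
      have h3 : h = cc h := by
        conv_lhs => rw [← hck h, e2, mul_one]
      refine ⟨h3 ▸ hcc h, ?_⟩
      rw [h3, e1]
    · rintro ⟨hC, hp⟩
      obtain ⟨e1, e2⟩ := huniq (cc h) (hcc h) h hC (kk h) (hkk h) 1 (one_mem _)
        (by rw [hck, mul_one])
      rw [e1, e2, hp, one_mul]

/-- if `C_{p²}` is not in the variety, `p`-elements have order dividing `p`. -/
theorem pow_p_eq_one {W : Set Identity} {p : ℕ} (hp : p.Prime)
    (hC : ¬ InVariety W (Multiplicative (ZMod (p ^ 2)))) {X : Type} [Group X]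
    (hX : InVariety W X) (x : X) (k : ℕ) (hx : x ^ (p ^ k) = 1) : x ^ p = 1 := by
  by_contra hxp
  apply hC
  have := Fact.mk hp
  obtain ⟨j, -, hj⟩ := (Nat.dvd_prime_pow hp).1 (orderOf_dvd_of_pow_eq_one hx)
  have hj2 : 2 ≤ j := by
    by_contra hlt
    have hj1 : j ≤ 1 := by omega
    apply hxp
    apply orderOf_dvd_iff_pow_eq_one.1
    rw [hj]
    calc p ^ j ∣ p ^ 1 := pow_dvd_pow p hj1
      _ = p := pow_one p
  obtain ⟨i, rfl⟩ : ∃ i, j = i + 2 := ⟨j - 2, by omega⟩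
  have hord : orderOf (x ^ (p ^ i)) = p ^ 2 := by
    rw [orderOf_pow_of_dvd (pow_ne_zero _ hp.ne_zero) (hj ▸ pow_dvd_pow p (by omega)), hj,
      pow_add, Nat.mul_div_cancel_left _ (pow_pos hp.pos _)]
  have hcard : Nat.card (zpowers (x ^ (p ^ i))) = p ^ 2 := by
    rw [Nat.card_zpowers, hord]
  let e := zmodCyclicMulEquiv (inferInstance : IsCyclic (zpowers (x ^ (p ^ i))))
  have h1 : InVariety W (Multiplicative (ZMod (Nat.card (zpowers (x ^ (p ^ i)))))) :=
    (hX.subgroup _).of_injective e.toMonoidHom e.injective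
  rwa [hcard] at h1

theorem embed_quotient {W : Set Identity} (hA : AbelianPGroups W) (hZ : CentreCondition W) :
    ∀ n : ℕ, ∀ (H G : Type) [Group H] [Group G] [Finite H], Nat.card H = n → InVariety W H →
      SI G → ∀ f : H →* G, Function.Surjective f → ∃ g : G →* H, Function.Injective g := by
  intro n
  induction n using Nat.strong_induction_on with
  | _ n ih =>
  intro H G _ _ _ hn hH hSI f hf
  -- Step 1
  by_cases hL' : ∃ L : Subgroup H, L ≠ ⊤ ∧ L.map f = ⊤
  · obtain ⟨L, hLt, hL⟩ := hL'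
    have hcard : Nat.card L < n := by
      rw [← hn]
      rw [← Subgroup.card_mul_index L]
      have h4 : 0 < Nat.card L := Nat.card_pos
      have h5 : 1 < L.index := by
        have h6 : L.index ≠ 0 := Subgroup.index_ne_zero_of_finite
        have h7 : L.index ≠ 1 := fun h => hLt (Subgroup.index_eq_one.1 h)
        omega
      nlinarith
    obtain ⟨g, hg⟩ := ih _ hcard L G rfl (hH.subgroup L) hSI (f.comp L.subtype) (by
      intro y
      have : y ∈ L.map f := hL ▸ Subgroup.mem_top y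
      obtain ⟨x, hx, rfl⟩ := this
      exact ⟨⟨x, hx⟩, rfl⟩)
    exact ⟨L.subtype.comp g, L.subtype_injective.comp hg⟩
  push Not at hL'
  have hL : ∀ L : Subgroup H, L ⊔ f.ker = ⊤ → L = ⊤ := by
    intro L h
    by_contra hne
    apply hL' L hne
    rw [eq_top_iff]
    intro y _
    obtain ⟨x, rfl⟩ := hf y
    have : x ∈ L ⊔ f.ker := h ▸ Subgroup.mem_top x
    obtain ⟨l, hl, k, hk, rfl⟩ := Subgroup.mem_sup_of_normal_right.1 this
    refine ⟨l, hl, ?_⟩
    rw [map_mul, MonoidHom.mem_ker.1 hk, mul_one]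
  -- Step 2
  set N : Subgroup H := f.ker with hNdef
  have hNn : N.Normal := by rw [hNdef]; infer_instance
  have hfN : ∀ x, f x = 1 ↔ x ∈ N := fun x => Iff.rfl
  by_cases hNb : N = ⊥
  · have hinj : Function.Injective f := (MonoidHom.ker_eq_bot_iff f).1 hNb
    let e := MulEquiv.ofBijective f ⟨hinj, hf⟩
    exact ⟨e.symm.toMonoidHom, e.symm.injective⟩
  have hGfin : Finite G := Finite.of_surjective f hf
  have hcardG : Nat.card G * Nat.card N = n := by
    rw [← hn, ← Subgroup.index_mul_card N, hNdef, Subgroup.index_ker,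
      MonoidHom.range_eq_top.2 hf, Nat.card_congr Subgroup.topEquiv.toEquiv]
  by_cases hmin' : ∃ N0 : Subgroup H, N0.Normal ∧ N0 ≠ ⊥ ∧ N0 ≤ N ∧ N0 ≠ N
  · obtain ⟨N0, hN0n, hN0b, hN0N, hN0ne⟩ := hmin'
    have hcard : Nat.card (H ⧸ N0) < n := by
      rw [← hn]
      have h2 := Subgroup.card_eq_card_quotient_mul_card_subgroup N0
      have h3 : 1 < Nat.card N0 := (Subgroup.one_lt_card_iff_ne_bot N0).2 hN0b
      have h4 : 0 < Nat.card (H ⧸ N0) := Nat.card_pos
      nlinarith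
    let fb : H ⧸ N0 →* G := QuotientGroup.lift N0 f (fun x hx => hN0N hx)
    have hfb : Function.Surjective fb := by
      intro y
      obtain ⟨x, rfl⟩ := hf y
      exact ⟨QuotientGroup.mk' N0 x, rfl⟩
    obtain ⟨g, hg⟩ := ih _ hcard (H ⧸ N0) G rfl (hH.quotient N0) hSI fb hfb
    let L : Subgroup H := g.range.comap (QuotientGroup.mk' N0)
    let ge : G ≃* g.range := MonoidHom.ofInjective hg
    by_cases hLt : L = ⊤
    · exfalso
      have hsurj : Function.Surjective g := by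
        intro y
        obtain ⟨x, rfl⟩ := QuotientGroup.mk'_surjective N0 y
        have : x ∈ L := hLt ▸ Subgroup.mem_top x
        exact this
      have hc : Nat.card G = Nat.card (H ⧸ N0) := Nat.card_eq_of_bijective g ⟨hg, hsurj⟩
      have h2 := Subgroup.card_eq_card_quotient_mul_card_subgroup N0
      rw [← hc, hn, ← hcardG] at h2
      have h4 : 0 < Nat.card G := Nat.card_pos
      have h5 := Nat.eq_of_mul_eq_mul_left h4 h2
      exact hN0ne (Subgroup.eq_of_le_of_card_ge hN0N h5.le)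
    · have hcardL : Nat.card L < n := by
        rw [← hn]
        rw [← Subgroup.card_mul_index L]
        have h4 : 0 < Nat.card L := Nat.card_pos
        have h5 : 1 < L.index := by
          have h6 : L.index ≠ 0 := Subgroup.index_ne_zero_of_finite
          have h7 : L.index ≠ 1 := fun h => hLt (Subgroup.index_eq_one.1 h)
          omega
        nlinarith
      let φ : L →* G := ge.symm.toMonoidHom.comp
        (((QuotientGroup.mk' N0).comp L.subtype).codRestrict g.range (fun x => x.2))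
      have hφ : Function.Surjective φ := by
        intro y
        obtain ⟨x, hx⟩ := QuotientGroup.mk'_surjective N0 (g y)
        refine ⟨⟨x, ⟨y, hx.symm⟩⟩, ?_⟩
        change ge.symm ⟨QuotientGroup.mk' N0 x, _⟩ = y
        rw [MulEquiv.symm_apply_eq]
        exact Subtype.ext hx
      obtain ⟨g', hg'⟩ := ih _ hcardL L G rfl (hH.subgroup L) hSI φ hφ
      exact ⟨L.subtype.comp g', L.subtype_injective.comp hg'⟩
  push Not at hmin'
  have hmin : ∀ N0 : Subgroup H, N0.Normal → N0 ≠ ⊥ → N0 ≤ N → N0 = N := hmin'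
  -- Step 3: N is a p-group
  obtain ⟨p, hp, hpN⟩ : ∃ p : ℕ, p.Prime ∧ p ∣ Nat.card N := by
    apply Nat.exists_prime_and_dvd
    have := (Subgroup.one_lt_card_iff_ne_bot N).2 hNb
    omega
  have hfact := Fact.mk hp
  have hNpg : IsPGroup p N := by
    let P : Sylow p N := default
    have h1 := Sylow.normalizer_sup_eq_top P
    have h2 := hL _ h1
    rw [Subgroup.normalizer_eq_top_iff] at h2
    have hPb : (map N.subtype (P : Subgroup N)) ≠ ⊥ := by
      rw [Ne, Subgroup.map_eq_bot_iff, Subgroup.ker_subtype, le_bot_iff]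
      intro h
      have h3 := P.not_dvd_index
      rw [h, Subgroup.index_bot] at h3
      exact h3 hpN
    have h4 := hmin _ h2 hPb (Subgroup.map_subtype_le _)
    have h5 : IsPGroup p (map N.subtype (P : Subgroup N)) := P.isPGroup'.map _
    rwa [h4] at h5
  have hHab : PAb p H := hA.pab hp hH
  have hNcomm : ∀ a ∈ N, ∀ b ∈ N, a * b = b * a := hHab N hNpg
  have hNp : ∀ x ∈ N, x ^ p = 1 := by
    let N1 : Subgroup H :=
      { carrier := {x | x ∈ N ∧ x ^ p = 1}
        one_mem' := ⟨one_mem _, one_pow _⟩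
        mul_mem' := by
          rintro a b ⟨ha, ha'⟩ ⟨hb, hb'⟩
          exact ⟨mul_mem ha hb, by
            rw [(show Commute a b from hNcomm a ha b hb).mul_pow, ha', hb', one_mul]⟩
        inv_mem' := by
          rintro a ⟨ha, ha'⟩
          exact ⟨inv_mem ha, by rw [inv_pow, ha', inv_one]⟩ }
    have hN1n : N1.Normal := by
      constructor
      rintro a ⟨ha, ha'⟩ g
      exact ⟨hNn.conj_mem a ha g, by rw [conj_pow, ha', mul_one, mul_inv_cancel]⟩
    have hN1b : N1 ≠ ⊥ := by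
      obtain ⟨x, hx⟩ := exists_prime_orderOf_dvd_card' p hpN
      intro h
      have h3 : (x : H) ∈ N1 := by
        refine ⟨x.2, ?_⟩
        rw [← Subgroup.coe_pow, ← hx, pow_orderOf_eq_one]; rfl
      rw [h, Subgroup.mem_bot] at h3
      have h4 : x = 1 := Subtype.ext h3
      rw [h4, orderOf_one] at hx
      exact hp.one_lt.ne hx
    have h3 := hmin N1 hN1n hN1b (fun x hx => hx.1)
    intro x hx
    rw [← h3] at hx
    exact hx.2
  -- Step 4
  let C : Subgroup H := centralizer (N : Set H)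
  have hCn : C.Normal := inferInstance
  have hCN : ∀ c ∈ C, ∀ x ∈ N, c * x = x * c := by
    intro c hc x hx
    exact (Subgroup.mem_centralizer_iff.1 hc x hx).symm
  have hNC : N ≤ C := by
    intro x hx
    rw [Subgroup.mem_centralizer_iff]
    intro y hy
    exact hNcomm y hy x hx
  have hCi : ¬ p ∣ C.index := by
    obtain ⟨P, hP⟩ := hNpg.exists_le_sylow
    have hPC : (P : Subgroup H) ≤ C := by
      intro x hx
      rw [Subgroup.mem_centralizer_iff]
      intro y hy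
      exact hHab P P.isPGroup' y (hP hy) x hx
    intro h
    exact P.not_dvd_index (h.trans (Subgroup.index_dvd_of_le hPC))
  -- no complement
  have hnocomp : ¬ ∃ L : Subgroup H, L ⊓ N = ⊥ ∧ L ⊔ N = ⊤ := by
    rintro ⟨L, h1, h2⟩
    have h3 := hL L h2
    rw [h3, top_inf_eq] at h1
    exact hNb h1
  have hCV : InVariety W C := hH.subgroup C
  have hCab : PAb p C := hA.pab hp hCV
  -- Sylow subgroup of C
  have hNC' : IsPGroup p (N.subgroupOf C) := by
    intro x
    obtain ⟨k, hk⟩ := hNpg ⟨((x : C) : H), x.2⟩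
    refine ⟨k, ?_⟩
    have h5 : ((x : C) : H) ^ (p ^ k) = 1 := congrArg (fun y : N => (y : H)) hk
    apply Subtype.ext
    apply Subtype.ext
    exact h5
  obtain ⟨P, hNP⟩ := hNC'.exists_le_sylow
  have hPcomm := hCab P P.isPGroup'
  obtain ⟨τ, hτ⟩ := exists_transfer (P : Subgroup C) hPcomm
  have hPi : ¬ p ∣ (P : Subgroup C).index := P.not_dvd_index
  have hNcen : ∀ c : C, (c : H) ∈ N → c ∈ center C := by
    intro c hc
    rw [Subgroup.mem_center_iff]
    intro g
    exact Subtype.ext (hCN g g.2 c hc)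
  by_cases hC2 : InVariety W (Multiplicative (ZMod (p ^ 2)))
  swap
  · -- Case A
    exfalso
    apply hnocomp
    obtain ⟨ρ, hρ⟩ := exists_retraction hp (P : Subgroup C) (N.subgroupOf C) hNP hPcomm (by
      intro y hy _
      obtain ⟨k, hk⟩ := P.isPGroup' ⟨y, hy⟩
      exact pow_p_eq_one hp hC2 hCV y k (congrArg Subtype.val hk))
    let l : C →* N := ((Subgroup.subgroupOfEquivOfLe hNC).toMonoidHom.comp ρ).comp τ
    refine exists_complement hp C N hNC hCN hNp hCi l (P : Subgroup C).index hPi ?_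
    intro c hc
    have h1 := hτ c (hNcen c hc)
    have h2 : ((τ c : P) : C) ∈ N.subgroupOf C := by
      rw [h1]
      exact pow_mem (show c ∈ N.subgroupOf C from hc) _
    have h3 := hρ (τ c) h2
    change (((ρ (τ c) : N.subgroupOf C) : C) : H) = _
    rw [h3, h1]; rfl
  -- Case B
  have hτcen : ∀ c : C, ((τ c : P) : C) ∈ center C := by
    intro c
    by_cases hcR : c ∈ τ.ker ⊔ center C
    · obtain ⟨k, hk, z, hz, rfl⟩ := Subgroup.mem_sup_of_normal_left.1 hcR
      rw [map_mul, MonoidHom.mem_ker.1 hk, one_mul, hτ z hz]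
      exact pow_mem hz _
    · exfalso
      obtain ⟨k, hk⟩ := P.isPGroup' (τ c)
      obtain ⟨L, hLn, hRL, hLi⟩ := exists_normal_index_prime hp (τ.ker ⊔ center C) (by
        intro a b
        apply (le_sup_left : τ.ker ≤ _)
        exact transfer_commutator hPcomm τ (Subgroup.commutator_mem_commutator
          (Subgroup.mem_top a) (Subgroup.mem_top b))) hcR (k := k) (by
        apply (le_sup_left : τ.ker ≤ _)
        rw [MonoidHom.mem_ker, map_pow]
        exact hk)
      exact hZ p hp hC2 C hCV L hLn hLi (le_sup_right.trans hRL)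
  let Z : Subgroup H :=
    { carrier := {x | x ∈ C ∧ (∀ c ∈ C, c * x = x * c) ∧ ∃ k : ℕ, x ^ (p ^ k) = 1}
      one_mem' := ⟨one_mem _, fun c _ => by rw [one_mul, mul_one], 0, one_pow _⟩
      mul_mem' := by
        rintro a b ⟨ha, ha', k, hk⟩ ⟨hb, hb', j, hj⟩
        refine ⟨mul_mem ha hb, fun c hc => ?_, k + j, ?_⟩
        · rw [← mul_assoc, ha' c hc, mul_assoc, hb' c hc, mul_assoc]
        · rw [(show Commute a b from hb' a ha).mul_pow, pow_add, pow_mul, hk, one_pow, one_mul,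
            mul_comm, pow_mul, hj, one_pow]
      inv_mem' := by
        rintro a ⟨ha, ha', k, hk⟩
        refine ⟨inv_mem ha, fun c hc => ?_, k, by rw [inv_pow, hk, inv_one]⟩
        rw [mul_inv_eq_iff_eq_mul, mul_assoc, ha' c hc, inv_mul_cancel_left] }
  have hZmem : ∀ x, x ∈ Z ↔ x ∈ C ∧ (∀ c ∈ C, c * x = x * c) ∧ ∃ k : ℕ, x ^ (p ^ k) = 1 :=
    fun x => Iff.rfl
  have hZn : Z.Normal := by
    constructor
    rintro a ⟨ha, ha', k, hk⟩ g
    refine ⟨hCn.conj_mem a ha g, fun c hc => ?_, k, by rw [conj_pow, hk, mul_one, mul_inv_cancel]⟩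
    have h1 := ha' (g⁻¹ * c * g) (by simpa using hCn.conj_mem c hc g⁻¹)
    calc c * (g * a * g⁻¹) = g * ((g⁻¹ * c * g) * a) * g⁻¹ := by group
      _ = g * (a * (g⁻¹ * c * g)) * g⁻¹ := by rw [h1]
      _ = g * a * g⁻¹ * c := by group
  have hNZ : N ≤ Z := by
    intro x hx
    exact ⟨hNC hx, fun c hc => hCN c hc x hx, 1, by rw [pow_one]; exact hNp x hx⟩
  have hZC : Z ≤ C := fun x hx => hx.1
  have hτZ : ∀ c : C, (((τ c : P) : C) : H) ∈ Z := by
    intro c
    refine ⟨((τ c : P) : C).2, fun d hd => ?_, ?_⟩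
    · exact congrArg Subtype.val (Subgroup.mem_center_iff.1 (hτcen c) ⟨d, hd⟩)
    · obtain ⟨k, hk⟩ := P.isPGroup' (τ c)
      exact ⟨k, congrArg (fun x : P => ((x : C) : H)) hk⟩
  have hZcen : ∀ c : C, (c : H) ∈ Z → c ∈ center C := by
    intro c hc
    rw [Subgroup.mem_center_iff]
    intro g
    exact Subtype.ext (hc.2.1 g g.2)
  by_cases hB : ∀ z ∈ Z, z ^ p ∈ N → z ^ p = 1
  · exfalso
    apply hnocomp
    obtain ⟨ρ, hρ⟩ := exists_retraction hp Z N hNZ (fun a ha b hb => hb.2.1 a (hZC ha)) hB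
    let l : C →* N := ρ.comp (((C.subtype.comp (P : Subgroup C).subtype).comp τ).codRestrict Z
      (fun c => hτZ c))
    refine exists_complement hp C N hNC hCN hNp hCi l (P : Subgroup C).index hPi ?_
    intro c hc
    have h1 := hτ c (hNcen c hc)
    have h2 : (((τ c : P) : C) : H) ∈ N := by
      rw [h1]
      exact pow_mem hc _
    have h3 := hρ ⟨(((τ c : P) : C) : H), hτZ c⟩ h2
    change ((ρ ⟨(((τ c : P) : C) : H), hτZ c⟩ : N) : H) = _
    rw [h3]
    change (((τ c : P) : C) : H) = _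
    rw [h1]; rfl
  push Not at hB
  obtain ⟨z0, hz0, hz0N, hz01⟩ := hB
  have hz0n : z0 ∉ N := fun h => hz01 (hNp z0 h)
  obtain ⟨m0, hm01, hm0⟩ := hSI
  -- monolith in images
  have hmono : ∀ A : Subgroup H, A.Normal → ¬ A ≤ N → ∃ a ∈ A, f a = m0 := by
    intro A hAn hAN
    have h1 : m0 ∈ A.map f := by
      apply hm0 _ (hAn.map f hf)
      rw [Ne, Subgroup.map_eq_bot_iff]
      exact hAN
    obtain ⟨a, ha, rfl⟩ := h1
    exact ⟨a, ha, rfl⟩
  -- Step 6
  let D : Subgroup H := (τ.ker.map C.subtype).normalCore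
  have hDC : D ≤ C := (Subgroup.normalCore_le _).trans (Subgroup.map_subtype_le _)
  have hDZ : D ⊓ Z = ⊥ := by
    rw [eq_bot_iff]
    rintro x ⟨hxD, hxZ⟩
    obtain ⟨c, hc, rfl⟩ := Subgroup.normalCore_le _ hxD
    have h1 := hτ c (hZcen c hxZ)
    have h2 : τ c = 1 := hc
    rw [h2] at h1
    obtain ⟨k, hk⟩ := hxZ.2.2
    have h3 : (c : H) ^ (P : Subgroup C).index = 1 := (congrArg Subtype.val h1).symm
    exact eq_one_of_coprime_pow
      (Nat.Coprime.pow_left k ((Nat.Prime.coprime_iff_not_dvd hp).2 hPi)) hk h3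
  have hDb : D = ⊥ := by
    have h1 : D ≤ N := by
      by_contra hDN
      obtain ⟨d, hd, hdm⟩ := hmono D inferInstance hDN
      obtain ⟨z, hz, hzm⟩ := hmono Z hZn (fun h => hz0n (h hz0))
      have h2 : d⁻¹ * z ∈ N := by
        rw [← hfN, map_mul, map_inv, hdm, hzm, inv_mul_cancel]
      have h3 : d ∈ Z := by
        have : d = z * (d⁻¹ * z)⁻¹ := by group
        rw [this]
        exact mul_mem hz (inv_mem (hNZ h2))
      have h4 : d ∈ D ⊓ Z := ⟨hd, h3⟩
      rw [hDZ, Subgroup.mem_bot] at h4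
      apply hm01
      rw [← hdm, h4, map_one]
    rw [eq_bot_iff]
    intro x hx
    have : x ∈ D ⊓ Z := ⟨hx, hNZ (h1 hx)⟩
    rwa [hDZ] at this
  have hDmem : ∀ x : H, (∀ g : H, ∃ hg : g * x * g⁻¹ ∈ C, τ ⟨g * x * g⁻¹, hg⟩ = 1) → x = 1 := by
    intro x hx
    have : x ∈ D := by
      intro g
      obtain ⟨hg, hg'⟩ := hx g
      exact ⟨⟨g * x * g⁻¹, hg⟩, hg', rfl⟩
    rwa [hDb, Subgroup.mem_bot] at this
  have hCcomm : ∀ a ∈ C, ∀ b ∈ C, a * b = b * a := by
    intro a ha b hb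
    rw [← commutatorElement_eq_one_iff_mul_comm]
    apply hDmem
    intro g
    have h1 : g * ⁅a, b⁆ * g⁻¹ = ⁅g * a * g⁻¹, g * b * g⁻¹⁆ := by
      rw [commutatorElement_def, commutatorElement_def]; group
    have hga := hCn.conj_mem a ha g
    have hgb := hCn.conj_mem b hb g
    have h2 : g * ⁅a, b⁆ * g⁻¹ = ((⁅(⟨g * a * g⁻¹, hga⟩ : C), ⟨g * b * g⁻¹, hgb⟩⁆ : C) : H) := by
      rw [h1]; rfl
    have h3 : g * ⁅a, b⁆ * g⁻¹ ∈ C := by rw [h2]; exact Subtype.mem _
    refine ⟨h3, ?_⟩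
    have h4 : (⟨g * ⁅a, b⁆ * g⁻¹, h3⟩ : C) = ⁅(⟨g * a * g⁻¹, hga⟩ : C), ⟨g * b * g⁻¹, hgb⟩⁆ :=
      Subtype.ext h2
    rw [h4]
    exact transfer_commutator hPcomm τ (Subgroup.commutator_mem_commutator
      (Subgroup.mem_top _) (Subgroup.mem_top _))
  obtain ⟨q, hq⟩ := IsPGroup.iff_card.1 P.isPGroup'
  have hCp : ∀ a ∈ C, a ^ (p ^ q) = 1 := by
    intro a ha
    apply hDmem
    intro g
    have hga := hCn.conj_mem a ha g
    have h1 : g * a ^ (p ^ q) * g⁻¹ = (g * a * g⁻¹) ^ (p ^ q) := by rw [conj_pow]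
    have h2 : g * a ^ (p ^ q) * g⁻¹ = (((⟨g * a * g⁻¹, hga⟩ : C) ^ (p ^ q) : C) : H) := by
      rw [h1]; rfl
    have h3 : g * a ^ (p ^ q) * g⁻¹ ∈ C := by rw [h2]; exact Subtype.mem _
    refine ⟨h3, ?_⟩
    have h4 : (⟨g * a ^ (p ^ q) * g⁻¹, h3⟩ : C) = (⟨g * a * g⁻¹, hga⟩ : C) ^ (p ^ q) :=
      Subtype.ext h2
    rw [h4, map_pow, ← hq, pow_card_eq_one']
  have hCpg : IsPGroup p C := by
    intro c
    exact ⟨q, Subtype.ext (hCp c c.2)⟩
  -- Step 7
  obtain ⟨k, hk⟩ := IsPGroup.iff_card.1 hCpg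
  obtain ⟨ψ, hψ⟩ := exists_endo p C hCcomm (by
    rw [hk]
    exact Nat.Coprime.pow_left k ((Nat.Prime.coprime_iff_not_dvd hp).2 hCi))
  have hΩ : ∀ x ∈ C, x ^ p = 1 → x ∈ N := by
    by_contra hcon
    push Not at hcon
    obtain ⟨w, hwC, hwp, hwN⟩ := hcon
    let Ω : Subgroup H :=
      { carrier := {x | x ∈ C ∧ x ^ p = 1}
        one_mem' := ⟨one_mem _, one_pow _⟩
        mul_mem' := by
          rintro a b ⟨ha, ha'⟩ ⟨hb, hb'⟩
          exact ⟨mul_mem ha hb, by
            rw [(show Commute a b from hCcomm a ha b hb).mul_pow, ha', hb', one_mul]⟩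
        inv_mem' := by
          rintro a ⟨ha, ha'⟩
          exact ⟨inv_mem ha, by rw [inv_pow, ha', inv_one]⟩ }
    have hΩn : Ω.Normal := by
      constructor
      rintro a ⟨ha, ha'⟩ g
      exact ⟨hCn.conj_mem a ha g, by rw [conj_pow, ha', mul_one, mul_inv_cancel]⟩
    let X : Subgroup H :=
      { carrier := {x | x ∈ C ∧ x ^ p ∈ N}
        one_mem' := ⟨one_mem _, by rw [one_pow]; exact one_mem _⟩
        mul_mem' := by
          rintro a b ⟨ha, ha'⟩ ⟨hb, hb'⟩
          exact ⟨mul_mem ha hb, by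
            rw [(show Commute a b from hCcomm a ha b hb).mul_pow]
            exact mul_mem ha' hb'⟩
        inv_mem' := by
          rintro a ⟨ha, ha'⟩
          exact ⟨inv_mem ha, by rw [inv_pow]; exact inv_mem ha'⟩ }
    have hXn : X.Normal := by
      constructor
      rintro a ⟨ha, ha'⟩ g
      exact ⟨hCn.conj_mem a ha g, by rw [conj_pow]; exact hNn.conj_mem _ ha' g⟩
    have hEn : (X.map f).Normal := hXn.map f hf
    have hAn : (Ω.map f).Normal := hΩn.map f hf
    have hQi : ¬ p ∣ (C.map f).index := by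
      rw [Subgroup.index_map_eq C hf hNC]; exact hCi
    obtain ⟨B, hBn, hBE, hAB, hspan⟩ := exists_normal_complement hp (X.map f) (Ω.map f)
      (C.map f) (by
        rintro _ ⟨x, ⟨hx, hx'⟩, rfl⟩
        exact ⟨x, ⟨hx, by rw [hx']; exact one_mem _⟩, rfl⟩)
      (by
        rintro _ ⟨x, ⟨hx, hx'⟩, rfl⟩ _ ⟨y, ⟨hy, hy'⟩, rfl⟩
        rw [← map_mul, hCcomm x hx y hy, map_mul])
      (by
        rintro _ ⟨x, ⟨hx, hx'⟩, rfl⟩
        rw [← map_pow, hfN]; exact hx')
      (by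
        rintro _ ⟨x, hx, rfl⟩ _ ⟨y, ⟨hy, hy'⟩, rfl⟩
        rw [← map_mul, hCcomm x hx y hy, map_mul]) hQi
    have hA0 : m0 ∈ Ω.map f := by
      apply hm0 _ hAn
      rw [Ne, Subgroup.map_eq_bot_iff]
      intro h
      exact hwN (h ⟨hwC, hwp⟩)
    have hB0 : m0 ∈ B := by
      apply hm0 _ hBn
      intro hBb
      obtain ⟨a, ⟨w', ⟨hw'C, hw'p⟩, rfl⟩, b, hb, hab⟩ := hspan (f z0) ⟨z0, ⟨hZC hz0, hz0N⟩, rfl⟩
      rw [hBb, Subgroup.mem_bot] at hb
      rw [hb, mul_one] at hab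
      have h1 : w'⁻¹ * z0 ∈ N := by
        rw [← hfN, map_mul, map_inv, hab, inv_mul_cancel]
      have h2 : z0 = w' * (w'⁻¹ * z0) := by group
      apply hz01
      rw [h2, (show Commute w' (w'⁻¹ * z0) from hCcomm _ hw'C _ (hNC h1)).mul_pow, hw'p, one_mul]
      exact hNp _ h1
    have h1 : m0 ∈ Ω.map f ⊓ B := ⟨hA0, hB0⟩
    rw [hAB, Subgroup.mem_bot] at h1
    exact hm01 h1
  have hψN : ∀ x, ψ x = 1 ↔ x ∈ N := by
    intro x
    rw [hψ]
    exact ⟨fun h => hΩ x h.1 h.2, fun h => ⟨hNC h, hNp x h⟩⟩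
  let g : G →* H := MonoidHom.liftOfRightInverse f (Function.surjInv hf)
    (Function.rightInverse_surjInv hf) ⟨ψ, fun x hx => (hψN x).2 hx⟩
  have hg : ∀ x, g (f x) = ψ x := fun x =>
    MonoidHom.liftOfRightInverse_comp_apply f _ (Function.rightInverse_surjInv hf) ⟨ψ, _⟩ x
  refine ⟨g, ?_⟩
  rw [← MonoidHom.ker_eq_bot_iff, eq_bot_iff]
  intro y hy
  obtain ⟨x, rfl⟩ := hf y
  rw [MonoidHom.mem_ker, hg, hψN] at hy
  rw [Subgroup.mem_bot]
  exact hy

end PrimVar
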