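import Pool.Agent.Helper515.PrimE

set_option autoImplicit false

namespace PrimVar

open Subgroup

theorem primitive_of_conditions {W : Set Identity} (hLF : IsLocallyFinite W)
    (hA : AbelianPGroups W) (hZ : CentreCondition W) : IsPrimitive W := by
  rw [isPrimitive_iff]
  intro Q hQ G H _ _ f hf hG q hq a ha
  by_contra hne
  choose b hb using fun i => hf (a i)
  let φ : FreeGroup (Fin q.n) →* G := FreeGroup.lift b
  let G0 : Subgroup G := φ.range
  have hfg : Group.FG G0 := Group.fg_range φ
  have hG0Q : InQuasivariety Q G0 := hG.of_injective G0.subtype G0.subtype_injective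
  have hG0V : InVariety W G0 := hQ G0 hG0Q
  have hfin : Finite G0 := hLF G0 hG0V hfg
  let b' : Fin q.n → G0 := fun i => ⟨b i, ⟨FreeGroup.of i, by simp [φ]⟩⟩
  let f0 : G0 →* H := f.comp G0.subtype
  have hf0 : ∀ w : FreeGroup (Fin q.n), f0 (FreeGroup.lift b' w) = FreeGroup.lift a w := by
    intro w
    rw [map_lift]
    congr 2
    funext i
    exact hb i
  have hc0 : FreeGroup.lift b' q.conclusion ∉ f0.ker := by
    rw [MonoidHom.mem_ker, hf0]; exact hne
  obtain ⟨R, hRn, hker, hcR, hR⟩ := exists_SI_quotient f0.ker _ hc0
  have hSI : SI (G0 ⧸ R) := by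
    refine ⟨QuotientGroup.mk' R (FreeGroup.lift b' q.conclusion), ?_, hR⟩
    rw [Ne, mk'_eq_one]; exact hcR
  obtain ⟨g, hg⟩ := embed_quotient hA hZ _ G0 (G0 ⧸ R) rfl hG0V hSI (QuotientGroup.mk' R)
    (QuotientGroup.mk'_surjective R)
  have hSQ : InQuasivariety Q (G0 ⧸ R) := hG0Q.of_injective g hg
  have h1 := hSQ q hq (fun i => QuotientGroup.mk' R (b' i)) (by
    intro u hu
    rw [← map_lift, mk'_eq_one]
    apply hker
    rw [MonoidHom.mem_ker, hf0]
    exact ha u hu)
  rw [← map_lift, mk'_eq_one] at h1
  exact hcR h1

theorem primitive_iff_of_locallyFinite (W : Set Identity) (hLF : IsLocallyFinite W) :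
    IsPrimitive W ↔ AbelianPGroups W ∧ CentreCondition W :=
  ⟨fun h => ⟨abelianPGroups_of_primitive h, centreCondition_of_primitive h⟩,
    fun h => primitive_of_conditions hLF h.1 h.2⟩

theorem map_derived_commutator (G : Type) [Group G] (n : ℕ) :
    Subgroup.map (commutator G).subtype (derivedSeries (commutator G) n) =
      derivedSeries G (n + 1) := by
  induction n with
  | zero =>
    rw [derivedSeries_zero, ← MonoidHom.range_eq_map, Subgroup.range_subtype,
      derivedSeries_succ, derivedSeries_zero, _root_.commutator_def]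
  | succ n ih =>
    rw [derivedSeries_succ, Subgroup.map_commutator, ih, ← derivedSeries_succ]

theorem finite_of_soluble (e : ℕ) (he : 0 < e) : ∀ n : ℕ, ∀ (G : Type) [Group G] [Group.FG G],
    derivedSeries G n = ⊥ → (∀ g : G, g ^ e = 1) → Finite G := by
  intro n
  induction n with
  | zero =>
    intro G _ _ h _
    rw [derivedSeries_zero] at h
    have : Subsingleton G := by
      constructor
      intro a b
      have ha : a ∈ (⊥ : Subgroup G) := h ▸ Subgroup.mem_top a
      have hb : b ∈ (⊥ : Subgroup G) := h ▸ Subgroup.mem_top b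
      rw [Subgroup.mem_bot] at ha hb
      rw [ha, hb]
    exact Finite.of_subsingleton
  | succ n ih =>
    intro G _ _ h hG
    have h1 : Finite (Abelianization G) := by
      have hsurj : Function.Surjective (Abelianization.of : G →* Abelianization G) :=
        QuotientGroup.mk'_surjective (commutator G)
      have hfg : Group.FG (Abelianization G) := Group.fg_of_surjective hsurj
      apply CommGroup.finite_of_fg_isMulTorsion
      intro x
      obtain ⟨y, rfl⟩ := hsurj x
      rw [isOfFinOrder_iff_pow_eq_one]
      exact ⟨e, he, by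
        change (Abelianization.of y) ^ e = 1
        rw [← map_pow, hG, map_one]⟩
    have h2 : (commutator G).index ≠ 0 := by
      rw [Subgroup.index_eq_card]
      exact Nat.card_ne_zero.2 ⟨inferInstance, h1⟩
    have : (commutator G).FiniteIndex := ⟨h2⟩
    have hfgK : Group.FG (commutator G) := Subgroup.fg_of_index_ne_zero _
    have h3 : Finite (commutator G) := by
      apply ih (commutator G)
      · have h4 := map_derived_commutator G n
        rw [h, Subgroup.map_eq_bot_iff, Subgroup.ker_subtype, le_bot_iff] at h4
        exact h4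
      · intro g
        exact Subtype.ext (hG g)
    apply Nat.finite_of_card_ne_zero
    rw [← Subgroup.card_mul_index (commutator G)]
    exact mul_ne_zero (Nat.card_ne_zero.2 ⟨inferInstance, h3⟩) h2

/-- the soluble case -/
theorem primitive_iff_of_soluble (W : Set Identity)
    (hS : ∀ (G : Type) [Group G], InVariety W G → Group.IsSolvable G) :
    IsPrimitive W ↔ (∃ n : ℕ, 0 < n ∧ ∀ (G : Type) [Group G], InVariety W G → ∀ g : G, g ^ n = 1) ∧
      AbelianPGroups W ∧ CentreCondition W := by
  constructor
  · intro h
    exact ⟨finite_exponent h, abelianPGroups_of_primitive h, centreCondition_of_primitive h⟩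
  · rintro ⟨⟨n, hn, hexp⟩, hA, hZ⟩
    refine primitive_of_conditions ?_ hA hZ
    intro G _ hG hfg
    obtain ⟨m, hm⟩ := (Group.isSolvable_def G).1 (hS G hG)
    exact finite_of_soluble n hn m G hm (hexp G hG)

end PrimVar
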