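import Pool.Agent.Helper515.PrimF

set_option autoImplicit false

namespace PrimVar

open Subgroup
open scoped commutatorElement

/-- hereditary centre condition at `p` -/
def Her (p : ℕ) (X : Type) [Group X] : Prop :=
  PAb p X ∧ ∀ L : Subgroup X, ∀ K : Subgroup L, K.Normal → K.index = p →
    ¬ (Subgroup.center L ≤ K)

/-- the centre condition for one group -/
def CC (p : ℕ) (L : Type) [Group L] : Prop :=
  ∀ K : Subgroup L, K.Normal → K.index = p → ¬ (Subgroup.center L ≤ K)

theorem CC.of_mulEquiv {p : ℕ} {L M : Type} [Group L] [Group M] (e : L ≃* M) (h : CC p L) :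
    CC p M := by
  intro K hK hKi hcen
  have hK' : (K.comap e.toMonoidHom).Normal := hK.comap _
  apply h (K.comap e.toMonoidHom) hK' (by
    rw [Subgroup.index_comap_of_surjective _ e.surjective, hKi])
  intro z hz
  rw [Subgroup.mem_comap]
  apply hcen
  rw [Subgroup.mem_center_iff] at hz ⊢
  intro g
  obtain ⟨g', rfl⟩ := e.surjective g
  change e g' * e z = e z * e g'
  rw [← map_mul, hz g', map_mul]

theorem Her.cc {p : ℕ} {X : Type} [Group X] (h : Her p X) {L : Type} [Group L]
    (f : L →* X) (hf : Function.Injective f) : CC p L := by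
  have h1 : CC p f.range := h.2 f.range
  exact h1.of_mulEquiv (MonoidHom.ofInjective hf).symm

theorem Her.of_injective {p : ℕ} {X : Type} [Group X] (h : Her p X) {L : Type} [Group L]
    (f : L →* X) (hf : Function.Injective f) : Her p L := by
  refine ⟨?_, fun M => ?_⟩
  · intro P hP a ha b hb
    apply hf
    rw [map_mul, map_mul]
    exact h.1 (P.map f) (hP.map f) (f a) ⟨a, ha, rfl⟩ (f b) ⟨b, hb, rfl⟩
  · exact h.cc (f.comp M.subtype) (hf.comp M.subtype_injective)

theorem PAb.of_surjective {p : ℕ} (hp : p.Prime) {X Y : Type} [Group X] [Finite X] [Group Y]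
    (h : PAb p X) (f : X →* Y) (hf : Function.Surjective f) : PAb p Y := by
  have := Fact.mk hp
  intro P hP a ha b hb
  -- preimage and its Sylow subgroup
  let M : Subgroup X := P.comap f
  let S : Sylow p M := default
  have hker : ((f.ker.subgroupOf M) : Subgroup M).index ∣ Nat.card P := by
    have h1 : (f.ker.subgroupOf M) = (f.comp M.subtype).ker := by
      ext x; rfl
    rw [h1, Subgroup.index_ker]
    have h2 : (f.comp M.subtype).range = P := by
      ext y
      constructor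
      · rintro ⟨x, rfl⟩
        exact x.2
      · intro hy
        obtain ⟨x, rfl⟩ := hf y
        exact ⟨⟨x, hy⟩, rfl⟩
    rw [h2]
  have hYfin : Finite Y := Finite.of_surjective f hf
  obtain ⟨n, hn⟩ := IsPGroup.iff_card.1 hP
  have htop : (S : Subgroup M) ⊔ f.ker.subgroupOf M = ⊤ := by
    rw [← Subgroup.index_eq_one]
    have h1 : ((S : Subgroup M) ⊔ f.ker.subgroupOf M).index ∣ (S : Subgroup M).index :=
      Subgroup.index_dvd_of_le le_sup_left
    have h2 : ((S : Subgroup M) ⊔ f.ker.subgroupOf M).index ∣ p ^ n :=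
      (Subgroup.index_dvd_of_le le_sup_right).trans (hn ▸ hker)
    have h3 : Nat.Coprime (S : Subgroup M).index (p ^ n) :=
      (Nat.Coprime.pow_left n ((Nat.Prime.coprime_iff_not_dvd hp).2 S.not_dvd_index)).symm
    exact Nat.eq_one_of_dvd_coprimes h3 h1 h2
  have hlift : ∀ y ∈ P, ∃ s : M, s ∈ (S : Subgroup M) ∧ f s = y := by
    intro y hy
    obtain ⟨x, rfl⟩ := hf y
    have : (⟨x, hy⟩ : M) ∈ (S : Subgroup M) ⊔ f.ker.subgroupOf M := htop ▸ Subgroup.mem_top _
    obtain ⟨s, hs, k, hk, hsk⟩ := Subgroup.mem_sup_of_normal_right.1 this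
    refine ⟨s, hs, ?_⟩
    have h1 : x = s * k := (congrArg Subtype.val hsk).symm
    have h2 : f k = 1 := hk
    rw [h1, map_mul, h2, mul_one]
  obtain ⟨s, hs, rfl⟩ := hlift a ha
  obtain ⟨t, ht, rfl⟩ := hlift b hb
  rw [← map_mul, ← map_mul]
  congr 1
  exact h ((S : Subgroup M).map M.subtype) (S.isPGroup'.map _) s ⟨s, hs, rfl⟩ t ⟨t, ht, rfl⟩

theorem Her.of_surjective {p : ℕ} (hp : p.Prime) {X Y : Type} [Group X] [Finite X] [Group Y]
    (h : Her p X) (f : X →* Y) (hf : Function.Surjective f) : Her p Y := by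
  refine ⟨h.1.of_surjective hp f hf, fun M K hK hKi hcen => ?_⟩
  -- preimage
  let L : Subgroup X := M.comap f
  let g : L →* M := (f.comp L.subtype).codRestrict M (fun x => x.2)
  have hg : Function.Surjective g := by
    rintro ⟨y, hy⟩
    obtain ⟨x, rfl⟩ := hf y
    exact ⟨⟨x, hy⟩, rfl⟩
  apply h.2 L (K.comap g) (hK.comap g) (by
    rw [Subgroup.index_comap_of_surjective _ hg, hKi])
  intro z hz
  rw [Subgroup.mem_comap]
  apply hcen
  rw [Subgroup.mem_center_iff] at hz ⊢
  intro y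
  obtain ⟨x, rfl⟩ := hg y
  rw [← map_mul, hz x, map_mul]

/-- lifting central `p`-elements -/
theorem lift_central {p : ℕ} (hp : p.Prime) {L : Type} [Group L] [Finite L]
    (N M : Subgroup L) [N.Normal] [M.Normal] (hNM : N ≤ M) (hab : PAb p (L ⧸ M))
    (hT : ∀ K : Subgroup L, K.Normal → N ≤ K → K.index = p → ∃ w, w ∉ K ∧ ∀ h : L, ⁅w, h⁆ ∈ N)
    {u : L} {k : ℕ} (hu : u ^ (p ^ k) = 1) (huM : ∀ h : L, ⁅u, h⁆ ∈ M) :
    ∃ w : L, (∀ h : L, ⁅w, h⁆ ∈ N) ∧ u⁻¹ * w ∈ M := by
  have := Fact.mk hp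
  let W2 : Subgroup L := (center (L ⧸ N)).comap (QuotientGroup.mk' N)
  have hW2 : ∀ w, w ∈ W2 ↔ ∀ h : L, ⁅w, h⁆ ∈ N := fun w => comm_mem_iff
  have hW2n : W2.Normal := inferInstance
  let R : Subgroup L := commutator L ⊔ W2
  have hRn : R.Normal := inferInstance
  have huR : u ∈ R := by
    by_contra hno
    obtain ⟨K, hK, hRK, hKi⟩ := exists_normal_index_prime hp R (fun a b =>
      (le_sup_left : commutator L ≤ R) (Subgroup.commutator_mem_commutator
        (Subgroup.mem_top a) (Subgroup.mem_top b))) hno (k := k) (by rw [hu]; exact one_mem _)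
    have hNK : N ≤ K := by
      refine le_trans ?_ hRK
      refine le_trans ?_ le_sup_right
      intro x hx
      rw [hW2]
      intro h
      exact (Subgroup.commutator_le_left N ⊤) (Subgroup.commutator_mem_commutator hx
        (Subgroup.mem_top h))
    obtain ⟨w, hwK, hw⟩ := hT K hK hNK hKi
    exact hwK (hRK ((le_sup_right : W2 ≤ R) ((hW2 w).2 hw)))
  obtain ⟨c, hc, w, hw, hcw⟩ := Subgroup.mem_sup_of_normal_right.1 huR
  -- choose the power
  obtain ⟨j, m, hm, hjm⟩ := Nat.exists_eq_pow_mul_and_not_dvd (Nat.card_pos (α := L)).ne' p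
    hp.ne_one
  have hcop : Nat.Coprime (p ^ (j + k)) m :=
    Nat.Coprime.pow_left _ ((Nat.Prime.coprime_iff_not_dvd hp).2 hm)
  obtain ⟨s, hs1, hs2⟩ := Nat.chineseRemainder hcop 1 0
  have hms : m ∣ s := (Nat.modEq_zero_iff_dvd).1 hs2
  have huM' : QuotientGroup.mk' M u ∈ center (L ⧸ M) := comm_mem_iff.2 huM
  have hwM' : QuotientGroup.mk' M w ∈ center (L ⧸ M) :=
    comm_mem_iff.2 fun h => hNM ((hW2 w).1 hw h)
  have hcM' : QuotientGroup.mk' M c ∈ center (L ⧸ M) := by
    have h1 : c = u * w⁻¹ := by rw [← hcw]; group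
    rw [h1, map_mul, map_inv]
    exact mul_mem huM' (inv_mem hwM')
  have hcs : (QuotientGroup.mk' M c) ^ s = 1 := by
    apply central_commutator hp hab (pow_mem hcM' s) (pow_mem ?_ s) (k := j)
    · rw [← pow_mul]
      obtain ⟨t, rfl⟩ := hms
      have : m * t * p ^ j = Nat.card L * t := by rw [hjm]; ring
      rw [this, pow_mul, ← map_pow, pow_card_eq_one', map_one, one_pow]
    · have h1 : (commutator L).map (QuotientGroup.mk' M) ≤ commutator (L ⧸ M) := by
        rw [_root_.commutator_def, _root_.commutator_def, Subgroup.map_commutator]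
        exact Subgroup.commutator_mono le_top le_top
      exact h1 ⟨c, hc, rfl⟩
  refine ⟨w ^ s, ?_, ?_⟩
  · exact (hW2 _).1 (pow_mem hw s)
  · rw [← mk'_eq_one, map_mul, map_inv, map_pow, inv_mul_eq_one]
    have h1 : QuotientGroup.mk' M u = QuotientGroup.mk' M c * QuotientGroup.mk' M w := by
      rw [← map_mul, hcw]
    have h2 : (QuotientGroup.mk' M u) ^ s = (QuotientGroup.mk' M w) ^ s := by
      have hcomm : Commute (QuotientGroup.mk' M c) (QuotientGroup.mk' M w) :=
        Subgroup.mem_center_iff.1 hwM' _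
      rw [h1, hcomm.mul_pow, hcs, one_mul]
    have h3 : (QuotientGroup.mk' M u) ^ s = QuotientGroup.mk' M u := by
      have h4 : (QuotientGroup.mk' M u) ^ (p ^ (j + k)) = 1 := by
        rw [← map_pow, add_comm, pow_add, pow_mul, hu, one_pow, map_one]
      have h5 : s % p ^ (j + k) = 1 % p ^ (j + k) := hs1
      rw [← Nat.div_add_mod s (p ^ (j + k)), pow_add, pow_mul, h4, one_pow, one_mul, h5,
        ← pow_mod_orderOf, Nat.mod_mod_of_dvd _ (orderOf_dvd_of_pow_eq_one h4),
        pow_mod_orderOf, pow_one]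
    rw [← h2, h3]

/-- the main step: subdirect products of two groups -/
theorem cc_of_subdirect {p : ℕ} (hp : p.Prime) {L : Type} [Group L] [Finite L] (hab : PAb p L)
    (N1 N2 : Subgroup L) [hN1 : N1.Normal] [hN2 : N2.Normal] (hinf : N1 ⊓ N2 = ⊥)
    (h1 : CC p (L ⧸ N1)) (h2 : CC p (L ⧸ N2)) (h3 : CC p N1) (h4 : CC p N2) : CC p L := by
  have := Fact.mk hp
  intro K hK hKi hcen
  -- Step A
  have stepA : ∀ N : Subgroup L, N.Normal → CC p N → N ≤ K := by
    intro N hN hCC
    by_contra hNK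
    have hKN : ((K.subgroupOf N) : Subgroup N).index = p := by
      have h5 : K.relIndex N ∣ K.index := Subgroup.relIndex_dvd_index_of_normal K N
      rw [hKi] at h5
      rcases (Nat.dvd_prime hp).1 h5 with h6 | h6
      · exact absurd (Subgroup.relIndex_eq_one.1 h6) hNK
      · exact h6
    have hnorm : ((K.subgroupOf N) : Subgroup N).Normal := inferInstance
    have h5 := hCC _ hnorm hKN
    rw [SetLike.not_le_iff_exists] at h5
    obtain ⟨y0, hy0, hy0K⟩ := h5
    obtain ⟨m, k, hmK, hmk⟩ := exists_pPart hp hKN hy0K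
    set y : N := y0 ^ m with hy
    have hyc : y ∈ center N := pow_mem hy0 m
    have hyp : ((y : N) : L) ^ (p ^ k) = 1 := by rw [← Subgroup.coe_pow, hmk]; rfl
    have hyK : (y : L) ∉ K := fun h => hmK h
    -- a Sylow subgroup containing y
    have hPz : IsPGroup p (zpowers (y : L)) := by
      intro g
      refine ⟨k, ?_⟩
      apply Subtype.ext
      obtain ⟨j, hj⟩ := Subgroup.mem_zpowers_iff.1 g.2
      rw [Subgroup.coe_pow, ← hj, ← zpow_natCast, ← zpow_mul, mul_comm, zpow_mul, zpow_natCast,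
        hyp, one_zpow]; rfl
    obtain ⟨P, hP⟩ := hPz.exists_le_sylow
    have hyP : (y : L) ∈ P := hP (mem_zpowers _)
    let C : Subgroup L := centralizer {(y : L)}
    have hPC : (P : Subgroup L) ≤ C := by
      intro x hx
      rw [Subgroup.mem_centralizer_singleton_iff]
      exact hab P P.isPGroup' x hx y hyP
    have hCi : ¬ p ∣ C.index := fun h => P.not_dvd_index (h.trans (Subgroup.index_dvd_of_le hPC))
    -- norm of y: average the inclusion of the trivial group ... use the abelian group Z(N)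
    let A : Subgroup L := (center N).map N.subtype
    have hAn : A.Normal := by
      constructor
      rintro _ ⟨a, ha, rfl⟩ g
      have hmem : g * (a : L) * g⁻¹ ∈ N := hN.conj_mem a a.2 g
      refine ⟨⟨g * (a : L) * g⁻¹, hmem⟩, ?_, rfl⟩
      change _ ∈ center N
      rw [Subgroup.mem_center_iff]
      intro b
      apply Subtype.ext
      change (b : L) * (g * a * g⁻¹) = g * a * g⁻¹ * b
      have hb : g⁻¹ * (b : L) * g ∈ N := by simpa using hN.conj_mem b b.2 g⁻¹
      have h6 := congrArg Subtype.val (Subgroup.mem_center_iff.1 ha ⟨_, hb⟩)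
      change g⁻¹ * (b : L) * g * a = a * (g⁻¹ * b * g) at h6
      calc (b : L) * (g * a * g⁻¹) = g * (g⁻¹ * b * g * a) * g⁻¹ := by group
        _ = g * (a * (g⁻¹ * b * g)) * g⁻¹ := by rw [h6]
        _ = g * a * g⁻¹ * b := by group
    have hyA : (y : L) ∈ A := ⟨y, hyc, rfl⟩
    have hAcomm : ∀ a ∈ A, ∀ b ∈ A, a * b = b * a := by
      rintro _ ⟨a, ha, rfl⟩ _ ⟨b, hb, rfl⟩
      exact congrArg Subtype.val (Subgroup.mem_center_iff.1 hb a)
    have hAK : ∀ a : A, ∀ g : L, QuotientGroup.mk' K (g * a * g⁻¹) = QuotientGroup.mk' K a := by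
      intro a g
      have hcomm : ∀ s t : L ⧸ K, s * t = t * s := by
        have hcard : Nat.card (L ⧸ K) = p := by rw [← Subgroup.index_eq_card, hKi]
        have hcyc : IsCyclic (L ⧸ K) := isCyclic_of_prime_card hcard
        intro s t
        exact (hcyc.commGroup : CommGroup (L ⧸ K)).mul_comm s t
      rw [map_mul, map_mul, map_inv, hcomm, inv_mul_cancel_left]
    classical
    let _ : CommGroup A := { (inferInstance : Group A) with
      mul_comm := fun a b => Subtype.ext (hAcomm a a.2 b b.2) }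
    have := Fintype.ofFinite (L ⧸ C)
    let Λ : L → A := fun g => MulAut.conjNormal g ⟨(y : L), hyA⟩
    have hΛ : ∀ g, ((Λ g : A) : L) = g * y * g⁻¹ := fun g => MulAut.conjNormal_apply _ _
    have hwd : ∀ g q : L, q ∈ C → Λ (g * q) = Λ g := by
      intro g q hq
      apply Subtype.ext
      rw [hΛ, hΛ]
      rw [Subgroup.mem_centralizer_singleton_iff] at hq
      calc g * q * y * (g * q)⁻¹ = g * (q * y) * q⁻¹ * g⁻¹ := by group
        _ = g * (y * q) * q⁻¹ * g⁻¹ := by rw [hq]
        _ = g * y * g⁻¹ := by group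
    have hout : ∀ (g : L) (q : L ⧸ C), Λ (g * q.out) = Λ ((g • q).out) := by
      intro g q
      have h1 : ((g * q.out : L) : L ⧸ C) = (((g • q).out : L) : L ⧸ C) := by
        rw [QuotientGroup.out_eq', ← smul_eq_mul, MulAction.Quotient.coe_smul_out]
      have h2 := QuotientGroup.eq.1 h1
      have h3 := hwd (g * q.out) _ h2
      rw [mul_inv_cancel_left] at h3
      exact h3.symm
    let ν : A := ∏ q : L ⧸ C, Λ q.out
    have hνc : ((ν : A) : L) ∈ center L := by
      rw [Subgroup.mem_center_iff]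
      intro g
      have h6 : MulAut.conjNormal g ν = ν := by
        change MulAut.conjNormal g (∏ q : L ⧸ C, Λ q.out) = ∏ q : L ⧸ C, Λ q.out
        rw [map_prod]
        refine Fintype.prod_equiv (MulAction.toPerm g) _ _ (fun q => ?_)
        change MulAut.conjNormal g (Λ q.out) = Λ ((g • q).out)
        rw [← hout]
        apply Subtype.ext
        rw [MulAut.conjNormal_apply, hΛ, hΛ]; group
      have h7 := congrArg Subtype.val h6
      rw [MulAut.conjNormal_apply] at h7
      exact mul_inv_eq_iff_eq_mul.1 h7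
    have hνK : QuotientGroup.mk' K (ν : L) = (QuotientGroup.mk' K (y : L)) ^ C.index := by
      have h6 : QuotientGroup.mk' K (ν : L) = ((QuotientGroup.mk' K).comp A.subtype) ν := rfl
      have hcard : Nat.card (L ⧸ K) = p := by rw [← Subgroup.index_eq_card, hKi]
      have hcyc : IsCyclic (L ⧸ K) := isCyclic_of_prime_card hcard
      let _ : CommGroup (L ⧸ K) := { (inferInstance : Group (L ⧸ K)) with
        mul_comm := fun s t => (hcyc.commGroup : CommGroup (L ⧸ K)).mul_comm s t }
      have h7 : ((QuotientGroup.mk' K).comp A.subtype) (∏ q : L ⧸ C, Λ q.out) =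
          ∏ q : L ⧸ C, ((QuotientGroup.mk' K).comp A.subtype) (Λ q.out) :=
        map_prod ((QuotientGroup.mk' K).comp A.subtype) _ _
      rw [h6, h7, Finset.prod_congr rfl (g := fun _ => QuotientGroup.mk' K (y : L)),
        Finset.prod_const, Finset.card_univ, Subgroup.index, Nat.card_eq_fintype_card]
      intro q _
      change QuotientGroup.mk' K ((Λ q.out : A) : L) = _
      rw [hΛ]
      exact hAK ⟨y, hyA⟩ q.out
    have h8 := hcen hνc
    rw [← mk'_eq_one, hνK] at h8
    apply hyK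
    rw [← mk'_eq_one]
    exact eq_one_of_coprime_pow ((Nat.Prime.coprime_iff_not_dvd hp).2 hCi)
      (by rw [← map_pow, mk'_eq_one]; exact pow_mem_of_index hKi _) h8
  have hN1K : N1 ≤ K := stepA N1 hN1 h3
  have hN2K : N2 ≤ K := stepA N2 hN2 h4
  -- Step B
  have hT : ∀ N : Subgroup L, ∀ _ : N.Normal, CC p (L ⧸ N) → ∀ K : Subgroup L, K.Normal →
      N ≤ K → K.index = p → ∃ w, w ∉ K ∧ ∀ h : L, ⁅w, h⁆ ∈ N := by
    intro N hN hCC K hK hNK hKi
    have hsurj := QuotientGroup.mk'_surjective N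
    have h5 := hCC (K.map (QuotientGroup.mk' N)) (hK.map _ hsurj) (by
        rw [Subgroup.index_map_eq K hsurj (by rw [QuotientGroup.ker_mk']; exact hNK), hKi])
    rw [SetLike.not_le_iff_exists] at h5
    obtain ⟨y', hy', hy'K⟩ := h5
    obtain ⟨y, rfl⟩ := hsurj y'
    exact ⟨y, fun h => hy'K ⟨y, h, rfl⟩, comm_mem_iff.1 hy'⟩
  obtain ⟨w1, hw1K, hw1⟩ := hT N1 hN1 h1 K hK hN1K hKi
  obtain ⟨m, k, hmK, hmk⟩ := exists_pPart hp hKi hw1K
  set u := w1 ^ m with hu
  have hu1 : ∀ h : L, ⁅u, h⁆ ∈ N1 := by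
    apply comm_mem_iff.1
    rw [hu, map_pow]; exact pow_mem (comm_mem_iff.2 hw1) _
  obtain ⟨w, hw, huw⟩ := lift_central hp N2 (N1 ⊔ N2) le_sup_right
    (hab.of_surjective hp _ (QuotientGroup.mk'_surjective (N1 ⊔ N2))) (hT N2 hN2 h2) hmk
    (fun h => (le_sup_left : N1 ≤ N1 ⊔ N2) (hu1 h))
  obtain ⟨a1, ha1, a2, ha2, ha⟩ := Subgroup.mem_sup_of_normal_right.1 huw
  have hz : u * a1 = w * a2⁻¹ := by
    rw [eq_mul_inv_iff_mul_eq, mul_assoc, ha, mul_inv_cancel_left]
  have hzc : u * a1 ∈ center L := by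
    rw [Subgroup.mem_center_iff]
    intro h
    have h1 : ⁅u * a1, h⁆ ∈ N1 := by
      apply comm_mem_iff.1
      rw [map_mul, mk'_eq_one.2 ha1, mul_one]; exact comm_mem_iff.2 hu1
    have h2 : ⁅u * a1, h⁆ ∈ N2 := by
      rw [hz]
      apply comm_mem_iff.1
      rw [map_mul, mk'_eq_one.2 (inv_mem ha2), mul_one]; exact comm_mem_iff.2 hw
    have h3 : ⁅u * a1, h⁆ ∈ N1 ⊓ N2 := ⟨h1, h2⟩
    rw [hinf, Subgroup.mem_bot, commutatorElement_eq_one_iff_mul_comm] at h3
    exact h3.symm
  have h5 := hcen hzc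
  exact hmK ((Subgroup.mul_mem_cancel_right K (hN1K ha1)).1 h5)

theorem Her.prod {p : ℕ} (hp : p.Prime) {X Y : Type} [Group X] [Finite X] [Group Y] [Finite Y]
    (hX : Her p X) (hY : Her p Y) : Her p (X × Y) := by
  have hab : PAb p (X × Y) := by
    intro P hP a ha b hb
    apply Prod.ext
    · exact hX.1 (P.map (MonoidHom.fst X Y)) (hP.map _) a.1 ⟨a, ha, rfl⟩ b.1 ⟨b, hb, rfl⟩
    · exact hY.1 (P.map (MonoidHom.snd X Y)) (hP.map _) a.2 ⟨a, ha, rfl⟩ b.2 ⟨b, hb, rfl⟩
  refine ⟨hab, fun L => ?_⟩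
  let f1 : L →* X := (MonoidHom.fst X Y).comp L.subtype
  let f2 : L →* Y := (MonoidHom.snd X Y).comp L.subtype
  have hLab : PAb p L := by
    intro P hP a ha b hb
    apply Subtype.ext
    exact hab (P.map L.subtype) (hP.map _) a ⟨a, ha, rfl⟩ b ⟨b, hb, rfl⟩
  have hinj1 : Function.Injective (f2.comp f1.ker.subtype) := by
    rw [← MonoidHom.ker_eq_bot_iff, eq_bot_iff]
    intro x hx
    rw [Subgroup.mem_bot]
    apply Subtype.ext
    apply Subtype.ext
    exact Prod.ext (x.2 : f1 x = 1) (hx : f2 x = 1)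
  have hinj2 : Function.Injective (f1.comp f2.ker.subtype) := by
    rw [← MonoidHom.ker_eq_bot_iff, eq_bot_iff]
    intro x hx
    rw [Subgroup.mem_bot]
    apply Subtype.ext
    apply Subtype.ext
    exact Prod.ext (hx : f1 x = 1) (x.2 : f2 x = 1)
  apply cc_of_subdirect hp hLab f1.ker f2.ker
  · rw [eq_bot_iff]
    rintro x ⟨h1, h2⟩
    rw [Subgroup.mem_bot]
    apply Subtype.ext
    exact Prod.ext (h1 : f1 x = 1) (h2 : f2 x = 1)
  · exact hX.cc (QuotientGroup.kerLift f1) (QuotientGroup.kerLift_injective f1)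
  · exact hY.cc (QuotientGroup.kerLift f2) (QuotientGroup.kerLift_injective f2)
  · exact hY.cc _ hinj1
  · exact hX.cc _ hinj2

end PrimVar
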