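import Pool.Agent.Helper515.PrimG
import Pool.Agent.Helper515.PrimDefs2

set_option autoImplicit false

namespace PrimVar

open Subgroup
open scoped commutatorElement

theorem self_inVariety (X : Type) [Group X] : InVariety (lawsOf X) X := fun _ he => he

theorem var_induction (P : ∀ (G : Type) [Group G], Prop)
    (hsub : ∀ (G H : Type) [Group G] [Group H] (f : G →* H), Function.Injective f → P H → P G)
    (hquot : ∀ (G H : Type) [Group G] [Finite G] [Group H] (f : G →* H), Function.Surjective f →
      P G → P H)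
    (hprod : ∀ (G H : Type) [Group G] [Finite G] [Group H] [Finite H], P G → P H → P (G × H))
    (htriv : ∀ (G : Type) [Group G], Subsingleton G → P G)
    {X : Type} [Group X] [Finite X] (hX : P X) {G : Type} [Group G] (hfg : Group.FG G)
    (hG : InVariety (lawsOf X) G) : Finite G ∧ P G := by
  have hpow : ∀ n : ℕ, P (Fin n → X) := by
    intro n
    induction n with
    | zero => exact htriv _ inferInstance
    | succ n ih =>
      let f : (Fin (n + 1) → X) →* X × (Fin n → X) :=
        { toFun := fun x => (x 0, fun i => x i.succ)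
          map_one' := rfl
          map_mul' := fun _ _ => rfl }
      refine hsub _ _ f ?_ (hprod _ _ hX ih)
      intro x y hxy
      funext i
      refine Fin.cases ?_ (fun j => ?_) i
      · exact congrArg Prod.fst hxy
      · exact congrFun (congrArg Prod.snd hxy) j
  obtain ⟨n, S, hScard, hS⟩ := Group.fg_iff'.1 hfg
  -- generators indexed by Fin n
  let e : Fin n ≃ S := (Finset.equivFinOfCardEq hScard).symm
  let φ : FreeGroup (Fin n) →* G := FreeGroup.lift (fun i => (e i : G))
  have hφ : Function.Surjective φ := by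
    rw [← MonoidHom.range_eq_top, eq_top_iff, ← hS, Subgroup.closure_le]
    intro s hs
    refine ⟨FreeGroup.of (e.symm ⟨s, hs⟩), ?_⟩
    simp [φ]
  have : Fintype (Fin n → X) := Fintype.ofFinite _
  let N := Fintype.card (Fin n → X)
  let ε : (Fin n → X) ≃ Fin N := Fintype.equivFin _
  let Φ : FreeGroup (Fin n) →* (Fin N → X) :=
    { toFun := fun w j => FreeGroup.lift (ε.symm j) w
      map_one' := by funext j; simp
      map_mul' := by intro a b; funext j; simp }
  have hker : Φ.ker ≤ φ.ker := by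
    intro w hw
    rw [MonoidHom.mem_ker]
    have hlaw : (⟨n, w⟩ : Identity) ∈ lawsOf X := by
      intro a
      have h1 := congrFun (MonoidHom.mem_ker.1 hw) (ε a)
      change FreeGroup.lift (ε.symm (ε a)) w = 1 at h1
      rwa [Equiv.symm_apply_apply] at h1
    exact hG _ hlaw _
  have hfinR : Finite Φ.range := inferInstance
  have hPR : P Φ.range := hsub _ _ Φ.range.subtype Φ.range.subtype_injective (hpow N)
  -- the map from the range
  let ψ : Φ.range →* G := MonoidHom.liftOfRightInverse Φ.rangeRestrict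
    (Function.surjInv Φ.rangeRestrict_surjective)
    (Function.rightInverse_surjInv Φ.rangeRestrict_surjective)
    ⟨φ, fun x hx => hker (by
      rw [MonoidHom.mem_ker] at hx ⊢
      exact congrArg Subtype.val hx)⟩
  have hψ : ∀ x, ψ (Φ.rangeRestrict x) = φ x := fun x =>
    MonoidHom.liftOfRightInverse_comp_apply Φ.rangeRestrict _
      (Function.rightInverse_surjInv Φ.rangeRestrict_surjective) ⟨φ, _⟩ x
  have hψs : Function.Surjective ψ := by
    intro y
    obtain ⟨x, rfl⟩ := hφ y
    exact ⟨Φ.rangeRestrict x, hψ x⟩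
  exact ⟨Finite.of_surjective ψ hψs, hquot _ _ ψ hψs hPR⟩

theorem PAb.of_injective {p : ℕ} {X Y : Type} [Group X] [Group Y] (f : X →* Y)
    (hf : Function.Injective f) (h : PAb p Y) : PAb p X := by
  intro P hP a ha b hb
  apply hf
  rw [map_mul, map_mul]
  exact h (P.map f) (hP.map f) (f a) ⟨a, ha, rfl⟩ (f b) ⟨b, hb, rfl⟩

theorem PAb.prod {p : ℕ} {X Y : Type} [Group X] [Group Y] (hX : PAb p X) (hY : PAb p Y) :
    PAb p (X × Y) := by
  intro P hP a ha b hb
  apply Prod.ext
  · exact hX (P.map (MonoidHom.fst X Y)) (hP.map _) a.1 ⟨a, ha, rfl⟩ b.1 ⟨b, hb, rfl⟩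
  · exact hY (P.map (MonoidHom.snd X Y)) (hP.map _) a.2 ⟨a, ha, rfl⟩ b.2 ⟨b, hb, rfl⟩

theorem PAb.of_subsingleton {p : ℕ} {X : Type} [Group X] (h : Subsingleton X) : PAb p X :=
  fun _ _ _ _ _ _ => Subsingleton.elim _ _

theorem Her.of_subsingleton {p : ℕ} (hp : p.Prime) {X : Type} [Group X] (h : Subsingleton X) :
    Her p X := by
  refine ⟨PAb.of_subsingleton h, fun L K _ hKi => ?_⟩
  exfalso
  have : Subsingleton L := inferInstance
  have h1 : K.index = 1 := by
    rw [Subgroup.index_eq_one, eq_top_iff]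
    intro x _
    rw [Subsingleton.elim x 1]; exact one_mem _
  rw [h1] at hKi
  exact hp.one_lt.ne hKi

theorem lawsOf_locallyFinite (X : Type) [Group X] [Finite X] : IsLocallyFinite (lawsOf X) :=
  fun G _ hG hfg => (var_induction (fun _ _ => True) (fun _ _ _ _ _ _ _ => trivial)
    (fun _ _ _ _ _ _ _ _ => trivial) (fun _ _ _ _ _ _ _ _ => trivial)
    (fun _ _ _ => trivial) (X := X) trivial hfg hG).1

theorem pab_of_var {p : ℕ} (hp : p.Prime) {X : Type} [Group X] [Finite X] (hX : PAb p X)
    {G : Type} [Group G] (hfg : Group.FG G) (hG : InVariety (lawsOf X) G) : PAb p G :=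
  (var_induction (fun Y _ => PAb p Y) (fun _ _ _ _ f hf h => h.of_injective f hf)
    (fun _ _ _ _ _ f hf h => h.of_surjective hp f hf) (fun _ _ _ _ _ _ h1 h2 => h1.prod h2)
    (fun _ _ h => PAb.of_subsingleton h) hX hfg hG).2

theorem her_of_var {p : ℕ} (hp : p.Prime) {X : Type} [Group X] [Finite X] (hX : Her p X)
    {G : Type} [Group G] (hfg : Group.FG G) (hG : InVariety (lawsOf X) G) : Her p G :=
  (var_induction (fun Y _ => Her p Y) (fun _ _ _ _ f hf h => h.of_injective f hf)
    (fun _ _ _ _ _ f hf h => h.of_surjective hp f hf) (fun _ _ _ _ _ _ h1 h2 => h1.prod hp h2)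
    (fun _ _ h => Her.of_subsingleton hp h) hX hfg hG).2

theorem cyclic_mem_var_iff {p : ℕ} (hp : p.Prime) {X : Type} [Group X] [Finite X] :
    InVariety (lawsOf X) (Multiplicative (ZMod (p ^ 2))) ↔ ∃ x : X, orderOf x = p ^ 2 := by
  have := Fact.mk hp
  constructor
  · intro h
    by_contra hno
    push Not at hno
    -- every p-element has order dividing p, so x^(p*m) = 1 for some m prime to p
    obtain ⟨j, m, hm, hjm⟩ := Nat.exists_eq_pow_mul_and_not_dvd (Nat.card_pos (α := X)).ne' p
      hp.ne_one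
    have hlaw : ∀ x : X, x ^ (p * m) = 1 := by
      intro x
      have h1 : (x ^ m) ^ (p ^ j) = 1 := by
        rw [← pow_mul, mul_comm, ← hjm, pow_card_eq_one']
      by_contra hne
      have h2 : (x ^ m) ^ p ≠ 1 := by rwa [← pow_mul, mul_comm m p]
      obtain ⟨i, -, hi⟩ := (Nat.dvd_prime_pow hp).1 (orderOf_dvd_of_pow_eq_one h1)
      have hi2 : 2 ≤ i := by
        by_contra hlt
        have hi1 : i ≤ 1 := by omega
        apply h2
        apply orderOf_dvd_iff_pow_eq_one.1
        rw [hi]
        calc p ^ i ∣ p ^ 1 := pow_dvd_pow p hi1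
          _ = p := pow_one p
      obtain ⟨k, rfl⟩ : ∃ k, i = k + 2 := ⟨i - 2, by omega⟩
      apply hno ((x ^ m) ^ (p ^ k))
      rw [orderOf_pow_of_dvd (pow_ne_zero _ hp.ne_zero) (hi ▸ pow_dvd_pow p (by omega)), hi,
        pow_add, Nat.mul_div_cancel_left _ (pow_pos hp.pos _)]
    have hid : (⟨1, FreeGroup.of 0 ^ (p * m)⟩ : Identity) ∈ lawsOf X := by
      intro a
      change FreeGroup.lift a (FreeGroup.of 0 ^ (p * m)) = 1
      rw [map_pow, FreeGroup.lift_apply_of]
      exact hlaw _
    have h3 := h _ hid (fun _ => Multiplicative.ofAdd (1 : ZMod (p ^ 2)))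
    change FreeGroup.lift _ (FreeGroup.of 0 ^ (p * m)) = 1 at h3
    rw [map_pow, FreeGroup.lift_apply_of, ← ofAdd_nsmul, ofAdd_eq_one, nsmul_eq_mul, mul_one,
      ZMod.natCast_eq_zero_iff, pow_two, Nat.mul_dvd_mul_iff_left hp.pos] at h3
    exact hm h3
  · rintro ⟨x, hx⟩
    have hcard : Nat.card (zpowers x) = p ^ 2 := by rw [Nat.card_zpowers, hx]
    let e := zmodCyclicMulEquiv (inferInstance : IsCyclic (zpowers x))
    have h1 : InVariety (lawsOf X) (Multiplicative (ZMod (Nat.card (zpowers x)))) :=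
      ((self_inVariety X).subgroup _).of_injective e.toMonoidHom e.injective
    rwa [hcard] at h1

/-- The variety generated by a finite group `X` is primitive iff ... -/
theorem primitive_var_iff (X : Type) [Group X] [Finite X] :
    IsPrimitive (lawsOf X) ↔
      (∀ p : ℕ, p.Prime → ∀ P : Subgroup X, IsPGroup p P → ∀ a ∈ P, ∀ b ∈ P, a * b = b * a) ∧
      (∀ p : ℕ, p.Prime → (∃ x : X, orderOf x = p ^ 2) →
        ∀ L : Subgroup X, ∀ K : Subgroup L, K.Normal → K.index = p →
          ¬ (Subgroup.center L ≤ K)) := by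
  rw [primitive_iff_of_locallyFinite _ (lawsOf_locallyFinite X)]
  constructor
  · rintro ⟨hA, hZ⟩
    refine ⟨fun p hp => hA.pab hp (self_inVariety X), fun p hp hx L K hK hKi => ?_⟩
    exact hZ p hp ((cyclic_mem_var_iff hp).2 hx) L ((self_inVariety X).subgroup L) K hK hKi
  · rintro ⟨hA, hZ⟩
    refine ⟨?_, ?_⟩
    · intro p hp G _ _ hG hpG a b
      have h1 : PAb p G := pab_of_var hp (hA p hp) inferInstance hG
      exact h1 ⊤ (hpG.to_subgroup ⊤) a (Subgroup.mem_top a) b (Subgroup.mem_top b)
    · intro p hp hC G _ _ hG K hK hKi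
      have h1 : Her p G := her_of_var hp ⟨hA p hp, hZ p hp ((cyclic_mem_var_iff hp).1 hC)⟩
        inferInstance hG
      exact h1.cc (MonoidHom.id G) (fun _ _ h => h) K hK hKi

end PrimVar
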